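import Pool.Agent.H76.SIJ.Defs

/-!
The block problem used for the lower bound: `k` blocks of `2h+1` positions; Alice and Bob hold a
subset of every block and want to count the blocks on which their subsets intersect.

In the lower bounds the output may be computed by one player from the transcript and that
player's own input.
-/

namespace Pool.Agent.H76.SIJ

/-- There is a public-coin protocol in which at most `c` bits are exchanged and at the end of
which Alice outputs a number, which may depend on her input, such that on every input this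
number is a `(1+ε)`-approximation of the support size with probability at least `1-δ`. -/
def PubSolvesAlice (n : ℕ) (ε δ : ℝ) (c : ℕ) : Prop :=
  ∃ P : PMF (Protocol (BM n) (BM n) (BM n → ℝ)), (∀ p ∈ P.support, p.cost ≤ c) ∧
    ∀ A B : BM n, ENNReal.ofReal (1 - δ) ≤
      P.toOuterMeasure {p | IsApprox ε (suppSize A B) (p.run A B A)}

/-- There is a public-coin protocol in which at most `c` bits are exchanged and at the end of
which Bob outputs a number, which may depend on his input, such that on every input this
number is a `(1+ε)`-approximation of the support size with probability at least `1-δ`. -/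
def PubSolvesBob (n : ℕ) (ε δ : ℝ) (c : ℕ) : Prop :=
  ∃ P : PMF (Protocol (BM n) (BM n) (BM n → ℝ)), (∀ p ∈ P.support, p.cost ≤ c) ∧
    ∀ A B : BM n, ENNReal.ofReal (1 - δ) ≤
      P.toOuterMeasure {p | IsApprox ε (suppSize A B) (p.run A B B)}

/-- The positions of a block: one planted position `none`, `h` positions used by Alice and `h`
positions used by Bob. -/
abbrev Pos (h : ℕ) : Type := Option (Fin h ⊕ Fin h)

/-- A tuple of subsets of `k` blocks. -/
abbrev Blk (k h : ℕ) : Type := Fin k → Pos h → Bool

/-- The number of blocks where the two subsets intersect. -/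
def intCount {k h : ℕ} (a b : Blk k h) : ℕ :=
  (Finset.univ.filter fun g : Fin k => ∃ p : Pos h, a g p = true ∧ b g p = true).card

/-- Lower bound for the block problem (error probability `δ`, output by Bob). -/
def CoreLower (δ : ℝ) : Prop :=
  ∃ c0 c1 : ℝ, 0 < c0 ∧ 0 < c1 ∧ ∃ k0 : ℕ, ∀ k : ℕ, k0 ≤ k → ∀ h C : ℕ,
    ∀ P : PMF (Protocol (Blk k h) (Blk k h) (Blk k h → ℝ)), (∀ p ∈ P.support, p.cost ≤ C) →
      (∀ a b : Blk k h, ENNReal.ofReal (1 - δ) ≤
        P.toOuterMeasure {p | |p.run a b b - (intCount a b : ℝ)| ≤ c1 * Real.sqrt k}) →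
      c0 * k * (h + 1) ≤ C

/-- Lower bound for set disjointness (error probability `δ`, output by Bob). -/
def DisjLower (δ : ℝ) : Prop :=
  ∃ c : ℝ, 0 < c ∧ ∀ h C : ℕ,
    ∀ P : PMF (Protocol (Pos h → Bool) (Pos h → Bool) ((Pos h → Bool) → ℝ)),
      (∀ p ∈ P.support, p.cost ≤ C) →
      (∀ a b : Pos h → Bool, ENNReal.ofReal (1 - δ) ≤
        P.toOuterMeasure {p | 0 < p.run a b b ↔ ∃ i, a i = true ∧ b i = true}) →
      c * (h + 1) ≤ C

end Pool.Agent.H76.SIJ
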