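import Mathlib
import Pool.Agent.H76.SIJ.Defs2

/-!
The Ruzsa-Szemeredi embedding of the block problem into the support size problem.
-/

open Finset
open scoped BigOperators

namespace Pool.Agent.H76.SIJ

/-- `(u,v)` is a live pair. -/
def Live (m : ℕ) (S : Finset ℕ) (u v : ℕ) : Prop := ∃ x < m, ∃ s ∈ S, u = x + s ∧ v = x + 2 * s

/-- MODULE P3a: Ruzsa-Szemeredi embedding. -/
theorem embedding (n m h : ℕ) (S : Finset ℕ) (hS : S ⊆ range m) (hAP : ThreeAPFree (S : Set ℕ))
    (hn : m * (2 * h + 3) ≤ n) :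
    ∃ A B : Blk (m * S.card) h → BM n, ∀ a b : Blk (m * S.card) h,
      suppSize (A a) (B b) + m * S.card = 6 * m ^ 2 + intCount a b := by
  classical
  -- coordinates
  obtain ⟨ι⟩ : Nonempty (((Fin m × Pos h) ⊕ Fin (2 * m)) ↪ Fin n) := by
    apply Function.Embedding.nonempty_of_card_le
    simp only [Fintype.card_sum, Fintype.card_prod, Fintype.card_fin, Fintype.card_option]
    refine le_trans (le_of_eq ?_) hn
    ring
  -- blocks
  obtain ⟨eqv⟩ : Nonempty (Fin (m * S.card) ≃ Fin m × S) := by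
    refine ⟨Fintype.equivOfCardEq ?_⟩
    simp
  have h3mn : 3 * m ≤ n := by nlinarith
  have hSm : ∀ s ∈ S, s < m := fun s hs => mem_range.mp (hS hs)
  let A : Blk (m * S.card) h → BM n := fun a i e => decide
    ((∃ (x : Fin m) (p : Pos h) (s : S), e = ι (Sum.inl (x, p)) ∧ (i : ℕ) = x + s ∧
      a (eqv.symm (x, s)) p = true) ∨ ∃ u : Fin (2 * m), e = ι (Sum.inr u) ∧ (i : ℕ) = u)
  let B : Blk (m * S.card) h → BM n := fun b e j => decide
    ((∃ (x : Fin m) (p : Pos h) (s : S), e = ι (Sum.inl (x, p)) ∧ (j : ℕ) = x + 2 * s ∧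
      b (eqv.symm (x, s)) p = true) ∨ ∃ u : Fin (2 * m), e = ι (Sum.inr u) ∧ (j : ℕ) < 3 * m ∧
        ¬ Live m S u j)
  refine ⟨A, B, fun a b => ?_⟩
  have key : ∀ i j : Fin n, Meets (A a) (B b) i j ↔
      (((i : ℕ) < 2 * m ∧ (j : ℕ) < 3 * m ∧ ¬ Live m S i j) ∨
        ∃ (x : Fin m) (s : S), (i : ℕ) = x + s ∧ (j : ℕ) = x + 2 * s ∧
          ∃ p, a (eqv.symm (x, s)) p = true ∧ b (eqv.symm (x, s)) p = true) := by
    intro i j
    simp only [Meets, A, B, decide_eq_true_eq]
    constructor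
    · rintro ⟨e, hA, hB⟩
      rcases hA with ⟨x, p, s, rfl, hi, ha⟩ | ⟨u, rfl, hi⟩
      · rcases hB with ⟨x', p', s', he, hj, hb⟩ | ⟨u', he, hj, hl⟩
        · have h1 := ι.injective he
          simp only [Sum.inl.injEq, Prod.mk.injEq] at h1
          obtain ⟨rfl, rfl⟩ := h1
          by_cases hlive : Live m S i j
          · right
            obtain ⟨y, hy, t, ht, hi', hj'⟩ := hlive
            have h2 : (s : ℕ) + t = s' + s' := by omega
            have h3 : (s : ℕ) = s' := hAP s.2 s'.2 ht h2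
            have h4 : s = s' := Subtype.ext h3
            subst h4
            exact ⟨x, s, hi, hj, p, ha, hb⟩
          · left
            have hsm := hSm s s.2
            have hsm' := hSm s' s'.2
            have hx := x.2
            exact ⟨by omega, by omega, hlive⟩
        · have h1 := ι.injective he
          simp at h1
      · rcases hB with ⟨x', p', s', he, hj, hb⟩ | ⟨u', he, hj, hl⟩
        · have h1 := ι.injective he
          simp at h1
        · have h1 := ι.injective he
          simp only [Sum.inr.injEq] at h1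
          subst h1
          left
          refine ⟨by rw [hi]; exact u.2, hj, ?_⟩
          rw [hi]
          exact hl
    · rintro (⟨hi, hj, hl⟩ | ⟨x, s, hi, hj, p, ha, hb⟩)
      · exact ⟨ι (Sum.inr ⟨i, hi⟩), Or.inr ⟨⟨i, hi⟩, rfl, rfl⟩, Or.inr ⟨⟨i, hi⟩, rfl, hj, hl⟩⟩
      · exact ⟨ι (Sum.inl (x, p)), Or.inl ⟨x, p, s, rfl, hi, ha⟩, Or.inl ⟨x, p, s, rfl, hj, hb⟩⟩
  -- the map from blocks to live pairs
  let f : Fin (m * S.card) → Fin n × Fin n := fun g =>
    (⟨(eqv g).1 + (eqv g).2, by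
        have h1 := (eqv g).1.2
        have h2 := hSm _ (eqv g).2.2
        omega⟩,
      ⟨(eqv g).1 + 2 * (eqv g).2, by
        have h1 := (eqv g).1.2
        have h2 := hSm _ (eqv g).2.2
        omega⟩)
  have hf : Function.Injective f := by
    intro g g' hgg
    simp only [f, Prod.mk.injEq, Fin.mk.injEq] at hgg
    apply eqv.injective
    apply Prod.ext
    · apply Fin.ext; omega
    · apply Subtype.ext; omega
  have hlive : ∀ q : Fin n × Fin n, Live m S q.1 q.2 ↔ ∃ g, f g = q := by
    intro q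
    constructor
    · rintro ⟨x, hx, s, hs, h1, h2⟩
      refine ⟨eqv.symm (⟨x, hx⟩, ⟨s, hs⟩), ?_⟩
      simp only [f, Equiv.apply_symm_apply]
      apply Prod.ext
      · apply Fin.ext; simp [h1]
      · apply Fin.ext; simp [h2]
    · rintro ⟨g, rfl⟩
      exact ⟨(eqv g).1, (eqv g).1.2, (eqv g).2, (eqv g).2.2, rfl, rfl⟩
  -- counting
  have hsplit : (univ.filter fun q : Fin n × Fin n => Meets (A a) (B b) q.1 q.2) =
      (univ.filter fun q : Fin n × Fin n => (q.1 : ℕ) < 2 * m ∧ (q.2 : ℕ) < 3 * m ∧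
        ¬ Live m S q.1 q.2) ∪
      ((univ.filter fun g : Fin (m * S.card) => ∃ p : Pos h, a g p = true ∧ b g p = true).image
        f) := by
    ext q
    simp only [mem_filter, mem_univ, true_and, mem_union, mem_image]
    rw [key]
    apply or_congr Iff.rfl
    constructor
    · rintro ⟨x, s, h1, h2, h3⟩
      refine ⟨eqv.symm (x, s), h3, ?_⟩
      simp only [f, Equiv.apply_symm_apply]
      apply Prod.ext
      · apply Fin.ext; simp [h1]
      · apply Fin.ext; simp [h2]
    · rintro ⟨g, h3, rfl⟩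
      refine ⟨(eqv g).1, (eqv g).2, rfl, rfl, ?_⟩
      simpa using h3
  have hdisj : Disjoint (univ.filter fun q : Fin n × Fin n => (q.1 : ℕ) < 2 * m ∧
        (q.2 : ℕ) < 3 * m ∧ ¬ Live m S q.1 q.2)
      ((univ.filter fun g : Fin (m * S.card) => ∃ p : Pos h, a g p = true ∧ b g p = true).image
        f) := by
    rw [disjoint_left]
    intro q hq hq'
    simp only [mem_filter, mem_univ, true_and, mem_image] at hq hq'
    obtain ⟨g, _, hg⟩ := hq'
    exact hq.2.2 ((hlive q).mpr ⟨g, hg⟩)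
  have hbox : (univ.filter fun q : Fin n × Fin n => (q.1 : ℕ) < 2 * m ∧ (q.2 : ℕ) < 3 * m).card =
      6 * m ^ 2 := by
    have h1 : (univ.filter fun q : Fin n × Fin n => (q.1 : ℕ) < 2 * m ∧ (q.2 : ℕ) < 3 * m) =
        (univ.filter fun i : Fin n => (i : ℕ) < 2 * m) ×ˢ
          (univ.filter fun j : Fin n => (j : ℕ) < 3 * m) := by
      ext q
      simp
    rw [h1, card_product, Fin.card_filter_val_lt, Fin.card_filter_val_lt, min_eq_right (by omega),
      min_eq_right h3mn]
    ring
  have hbox2 : (univ.filter fun q : Fin n × Fin n => (q.1 : ℕ) < 2 * m ∧ (q.2 : ℕ) < 3 * m) =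
      (univ.filter fun q : Fin n × Fin n => (q.1 : ℕ) < 2 * m ∧ (q.2 : ℕ) < 3 * m ∧
        ¬ Live m S q.1 q.2) ∪ (univ.image f) := by
    ext q
    simp only [mem_filter, mem_univ, true_and, mem_union, mem_image]
    constructor
    · rintro ⟨h1, h2⟩
      by_cases hl : Live m S q.1 q.2
      · right
        exact (hlive q).mp hl
      · left; exact ⟨h1, h2, hl⟩
    · rintro (⟨h1, h2, _⟩ | ⟨g, rfl⟩)
      · exact ⟨h1, h2⟩
      · have h1 := (eqv g).1.2
        have h2 := hSm _ (eqv g).2.2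
        simp only [f]
        omega
  have hdisj2 : Disjoint (univ.filter fun q : Fin n × Fin n => (q.1 : ℕ) < 2 * m ∧
        (q.2 : ℕ) < 3 * m ∧ ¬ Live m S q.1 q.2) (univ.image f) := by
    rw [disjoint_left]
    intro q hq hq'
    simp only [mem_filter, mem_univ, true_and, mem_image] at hq hq'
    obtain ⟨g, hg⟩ := hq'
    exact hq.2.2 ((hlive q).mpr ⟨g, hg⟩)
  have hc2 := congrArg Finset.card hbox2
  rw [hbox, card_union_of_disjoint hdisj2, card_image_of_injective _ hf, card_univ,
    Fintype.card_fin] at hc2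
  rw [suppSize_eq, hsplit, card_union_of_disjoint hdisj, card_image_of_injective _ hf]
  unfold intCount
  omega

end Pool.Agent.H76.SIJ
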