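import Mathlib

/-!
Two-party communication protocols and the problem `SIJ` (approximate size of the support of a
product of two 0-1 matrices).
-/

namespace Pool.Agent.H76.SIJ

/-- A deterministic two-party communication protocol.  Alice holds an element of `X`, Bob holds an
element of `Y`.  At a node `alice f p0 p1` Alice sends the bit `f x`, at a node `bob f p0 p1` Bob
sends the bit `f y`; the protocol continues with `p1` if the bit is `true` and with `p0` if it is
`false`.  At a leaf `output r` nothing more is sent and `r` is the output. -/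
inductive Protocol (X Y R : Type) : Type
  | output (r : R) : Protocol X Y R
  | alice (f : X → Bool) (p0 p1 : Protocol X Y R) : Protocol X Y R
  | bob (f : Y → Bool) (p0 p1 : Protocol X Y R) : Protocol X Y R

namespace Protocol

variable {X Y R : Type}

/-- The worst-case number of bits exchanged (the depth of the protocol tree). -/
def cost : Protocol X Y R → ℕ
  | output _ => 0
  | alice _ p0 p1 => max p0.cost p1.cost + 1
  | bob _ p0 p1 => max p0.cost p1.cost + 1

/-- The output of the protocol on the inputs `x` (Alice) and `y` (Bob). -/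
def run : Protocol X Y R → X → Y → R
  | output r, _, _ => r
  | alice f p0 p1, x, y => if f x then p1.run x y else p0.run x y
  | bob f p0 p1, x, y => if f y then p1.run x y else p0.run x y

end Protocol

/-- `n × n` matrices with entries in `{0,1}` (`true` is `1`). -/
abbrev BM (n : ℕ) : Type := Matrix (Fin n) (Fin n) Bool

/-- The integer matrix of a 0-1 matrix. -/
def toInt {n : ℕ} (A : BM n) : Matrix (Fin n) (Fin n) ℤ := fun i j => if A i j then 1 else 0

/-- The number of pairs `(i,j)` such that the entry `(i,j)` of the integer matrix product `A B` is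
nonzero. -/
def suppSize {n : ℕ} (A B : BM n) : ℕ :=
  (Finset.univ.filter fun p : Fin n × Fin n => (toInt A * toInt B) p.1 p.2 ≠ 0).card

/-- `v` is a `(1+ε)`-approximation of `N`. -/
def IsApprox (ε : ℝ) (N : ℕ) (v : ℝ) : Prop := (N : ℝ) / (1 + ε) ≤ v ∧ v ≤ (1 + ε) * N

/-- There is a public-coin protocol (a probability distribution on deterministic protocols) in
which at most `c` bits are exchanged and which, on every input, outputs a `(1+ε)`-approximation of
the support size with probability at least `1-δ`. -/
def PubSolves (n : ℕ) (ε δ : ℝ) (c : ℕ) : Prop :=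
  ∃ P : PMF (Protocol (BM n) (BM n) ℝ), (∀ p ∈ P.support, p.cost ≤ c) ∧
    ∀ A B : BM n, ENNReal.ofReal (1 - δ) ≤
      P.toOuterMeasure {p | IsApprox ε (suppSize A B) (p.run A B)}

/-- There is a private-coin protocol (Alice and Bob hold independent random seeds) in
which at most `c` bits are exchanged and which, on every input, outputs a `(1+ε)`-approximation of
the support size with probability at least `1-δ`. -/
def PrivSolves (n : ℕ) (ε δ : ℝ) (c : ℕ) : Prop :=
  ∃ (RA RB : Type) (μA : PMF RA) (μB : PMF RB) (p : Protocol (BM n × RA) (BM n × RB) ℝ),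
    p.cost ≤ c ∧
    ∀ A B : BM n, ENNReal.ofReal (1 - δ) ≤
      (μA.bind fun a => μB.map fun b => (a, b)).toOuterMeasure
        {r | IsApprox ε (suppSize A B) (p.run (A, r.1) (B, r.2))}

/-- Row `i` of `A` and column `j` of `B` share a `1`. -/
def Meets {n : ℕ} (A B : BM n) (i j : Fin n) : Prop := ∃ k, A i k = true ∧ B k j = true

instance {n : ℕ} (A B : BM n) (i j : Fin n) : Decidable (Meets A B i j) := by
  unfold Meets; infer_instance

theorem mul_ne_zero_iff {n : ℕ} (A B : BM n) (i j : Fin n) :
    (toInt A * toInt B) i j ≠ 0 ↔ Meets A B i j := by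
  unfold Meets
  rw [Matrix.mul_apply]
  have hnn : ∀ k ∈ (Finset.univ : Finset (Fin n)),
      (0 : ℤ) ≤ toInt A i k * toInt B k j := by
    intro k _
    by_cases h1 : A i k <;> by_cases h2 : B k j <;> simp [toInt, h1, h2]
  rw [Ne, Finset.sum_eq_zero_iff_of_nonneg hnn]
  push Not
  constructor
  · rintro ⟨k, _, hk⟩
    refine ⟨k, ?_⟩
    by_cases h1 : A i k <;> by_cases h2 : B k j <;> simp_all [toInt]
  · rintro ⟨k, h1, h2⟩
    exact ⟨k, Finset.mem_univ _, by simp [toInt, h1, h2]⟩

theorem suppSize_eq {n : ℕ} (A B : BM n) :
    suppSize A B = (Finset.univ.filter fun p : Fin n × Fin n => Meets A B p.1 p.2).card := by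
  unfold suppSize
  congr 1
  ext p
  simp only [Finset.mem_filter, Finset.mem_univ, true_and]
  exact mul_ne_zero_iff A B p.1 p.2

end Pool.Agent.H76.SIJ
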