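import Mathlib
import Pool.Agent.H76.SIJ.Defs

/-!
Combinators for protocols: sending a message of a finite type, three round protocols, and
Newman's theorem (from public coins with a finite uniform seed to private coins).
-/

open Finset
open scoped BigOperators

namespace Pool.Agent.H76.SIJ
namespace Protocol

variable {X Y R : Type}

/-- Pull back a protocol along maps of inputs. -/
def comap {X' Y' : Type} (fx : X' → X) (fy : Y' → Y) : Protocol X Y R → Protocol X' Y' R
  | output r => output r
  | alice f p0 p1 => alice (f ∘ fx) (p0.comap fx fy) (p1.comap fx fy)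
  | bob f p0 p1 => bob (f ∘ fy) (p0.comap fx fy) (p1.comap fx fy)

theorem cost_comap {X' Y' : Type} (fx : X' → X) (fy : Y' → Y) (p : Protocol X Y R) :
    (p.comap fx fy).cost = p.cost := by
  induction p with
  | output r => rfl
  | alice f p0 p1 h0 h1 => simp [comap, cost, h0, h1]
  | bob f p0 p1 h0 h1 => simp [comap, cost, h0, h1]

theorem run_comap {X' Y' : Type} (fx : X' → X) (fy : Y' → Y) (p : Protocol X Y R) (x : X')
    (y : Y') : (p.comap fx fy).run x y = p.run (fx x) (fy y) := by
  induction p with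
  | output r => rfl
  | alice f p0 p1 h0 h1 => simp [comap, run, h0, h1]
  | bob f p0 p1 h0 h1 => simp [comap, run, h0, h1]

theorem exists_sendA_bits (k : ℕ) : ∀ (f : X → (Fin k → Bool)) (K : (Fin k → Bool) →
    Protocol X Y R) (c : ℕ), (∀ m, (K m).cost ≤ c) →
    ∃ p : Protocol X Y R, p.cost ≤ k + c ∧ ∀ x y, p.run x y = (K (f x)).run x y := by
  induction k with
  | zero =>
    intro f K c hK
    refine ⟨K default, by simpa using hK default, fun x y => ?_⟩
    rw [Subsingleton.elim (f x) default]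
  | succ k ih =>
    intro f K c hK
    obtain ⟨p0, h0, h0'⟩ := ih (fun x => Fin.tail (f x)) (fun m => K (Fin.cons false m)) c
      (fun m => hK _)
    obtain ⟨p1, h1, h1'⟩ := ih (fun x => Fin.tail (f x)) (fun m => K (Fin.cons true m)) c
      (fun m => hK _)
    refine ⟨alice (fun x => f x 0) p0 p1, ?_, fun x y => ?_⟩
    · simp only [cost]
      omega
    · simp only [run]
      have hc := Fin.cons_self_tail (f x)
      by_cases hb : f x 0 = true
      · rw [hb] at hc
        rw [if_pos hb, h1', hc]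
      · have hb' : f x 0 = false := by simpa using hb
        rw [hb'] at hc
        rw [if_neg hb, h0', hc]

theorem exists_sendB_bits (k : ℕ) : ∀ (f : Y → (Fin k → Bool)) (K : (Fin k → Bool) →
    Protocol X Y R) (c : ℕ), (∀ m, (K m).cost ≤ c) →
    ∃ p : Protocol X Y R, p.cost ≤ k + c ∧ ∀ x y, p.run x y = (K (f y)).run x y := by
  induction k with
  | zero =>
    intro f K c hK
    refine ⟨K default, by simpa using hK default, fun x y => ?_⟩
    rw [Subsingleton.elim (f y) default]
  | succ k ih =>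
    intro f K c hK
    obtain ⟨p0, h0, h0'⟩ := ih (fun x => Fin.tail (f x)) (fun m => K (Fin.cons false m)) c
      (fun m => hK _)
    obtain ⟨p1, h1, h1'⟩ := ih (fun x => Fin.tail (f x)) (fun m => K (Fin.cons true m)) c
      (fun m => hK _)
    refine ⟨bob (fun x => f x 0) p0 p1, ?_, fun x y => ?_⟩
    · simp only [cost]
      omega
    · simp only [run]
      have hc := Fin.cons_self_tail (f y)
      by_cases hb : f y 0 = true
      · rw [hb] at hc
        rw [if_pos hb, h1', hc]
      · have hb' : f y 0 = false := by simpa using hb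
        rw [hb'] at hc
        rw [if_neg hb, h0', hc]

theorem exists_enc {M : Type} [Fintype M] [Nonempty M] {k : ℕ} (hk : Fintype.card M ≤ 2 ^ k) :
    ∃ (e : M → (Fin k → Bool)) (d : (Fin k → Bool) → M), ∀ m, d (e m) = m := by
  have : Fintype.card M ≤ Fintype.card (Fin k → Bool) := by simpa using hk
  obtain ⟨e⟩ := Function.Embedding.nonempty_of_card_le this
  exact ⟨e, Function.invFun e, fun m => Function.leftInverse_invFun e.injective m⟩

theorem exists_sendA {M : Type} [Fintype M] [Nonempty M] {k : ℕ} (hk : Fintype.card M ≤ 2 ^ k)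
    (f : X → M) (K : M → Protocol X Y R) (c : ℕ) (hK : ∀ m, (K m).cost ≤ c) :
    ∃ p : Protocol X Y R, p.cost ≤ k + c ∧ ∀ x y, p.run x y = (K (f x)).run x y := by
  obtain ⟨e, d, hed⟩ := exists_enc hk
  obtain ⟨p, hp, hp'⟩ := exists_sendA_bits k (fun x => e (f x)) (fun m => K (d m)) c
    (fun m => hK _)
  refine ⟨p, hp, fun x y => ?_⟩
  rw [hp', hed]

theorem exists_sendB {M : Type} [Fintype M] [Nonempty M] {k : ℕ} (hk : Fintype.card M ≤ 2 ^ k)
    (f : Y → M) (K : M → Protocol X Y R) (c : ℕ) (hK : ∀ m, (K m).cost ≤ c) :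
    ∃ p : Protocol X Y R, p.cost ≤ k + c ∧ ∀ x y, p.run x y = (K (f y)).run x y := by
  obtain ⟨e, d, hed⟩ := exists_enc hk
  obtain ⟨p, hp, hp'⟩ := exists_sendB_bits k (fun x => e (f x)) (fun m => K (d m)) c
    (fun m => hK _)
  refine ⟨p, hp, fun x y => ?_⟩
  rw [hp', hed]

/-- A three round protocol: Bob speaks, Alice speaks, Bob speaks. -/
theorem exists_three {M1 M2 M3 : Type} [Fintype M1] [Nonempty M1] [Fintype M2] [Nonempty M2]
    [Fintype M3] [Nonempty M3] {k1 k2 k3 : ℕ} (h1 : Fintype.card M1 ≤ 2 ^ k1)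
    (h2 : Fintype.card M2 ≤ 2 ^ k2) (h3 : Fintype.card M3 ≤ 2 ^ k3)
    (b1 : Y → M1) (a2 : X → M1 → M2) (b3 : Y → M1 → M2 → M3) (out : M1 → M2 → M3 → R) :
    ∃ p : Protocol X Y R, p.cost ≤ k1 + (k2 + k3) ∧ ∀ x y, p.run x y =
      out (b1 y) (a2 x (b1 y)) (b3 y (b1 y) (a2 x (b1 y))) := by
  have H3 : ∀ m1 m2, ∃ p : Protocol X Y R, p.cost ≤ k3 + 0 ∧ ∀ x y, p.run x y =
      out m1 m2 (b3 y m1 m2) := fun m1 m2 => by
    obtain ⟨p, hp, hp'⟩ := exists_sendB (X := X) (R := R) h3 (fun y => b3 y m1 m2)
      (fun m3 => output (out m1 m2 m3)) 0 (fun m => le_rfl)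
    exact ⟨p, hp, fun x y => by rw [hp']; rfl⟩
  choose P3 hP3 hP3' using H3
  have H2 : ∀ m1, ∃ p : Protocol X Y R, p.cost ≤ k2 + k3 ∧ ∀ x y, p.run x y =
      out m1 (a2 x m1) (b3 y m1 (a2 x m1)) := fun m1 => by
    obtain ⟨p, hp, hp'⟩ := exists_sendA (Y := Y) (R := R) h2 (fun x => a2 x m1)
      (fun m2 => P3 m1 m2) k3 (fun m => hP3 m1 m)
    exact ⟨p, hp, fun x y => by rw [hp', hP3']⟩
  choose P2 hP2 hP2' using H2
  obtain ⟨p, hp, hp'⟩ := exists_sendB (X := X) (R := R) h1 b1 P2 (k2 + k3) hP2
  exact ⟨p, hp, fun x y => by rw [hp', hP2']⟩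

end Protocol

/-- Newman: choose few seeds which are good for all inputs. -/
theorem exists_seeds {Ω I : Type} [Fintype Ω] [Nonempty Ω] [Fintype I] (bad : I → Ω → Prop)
    [∀ i, DecidablePred (bad i)] (δ : ℝ) (hδ : 0 < δ)
    (hbad : ∀ i, ((univ.filter (bad i)).card : ℝ) ≤ δ / 4 * Fintype.card Ω) (t : ℕ)
    (ht : Real.log (Fintype.card I) ≤ δ / 2 * t) :
    ∃ s : Fin t → Ω, ∀ i, ((univ.filter fun j => bad i (s j)).card : ℝ) ≤ δ * t := by
  have hΩ : (0 : ℝ) < Fintype.card Ω := by exact_mod_cast Fintype.card_pos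
  -- potential
  have hstep : ∀ t : ℕ, ∃ s : Fin t → Ω,
      ∑ i, Real.exp ((univ.filter fun j => bad i (s j)).card : ℝ) ≤
        Fintype.card I * Real.exp (δ / 2 * t) := by
    intro t
    induction t with
    | zero =>
      refine ⟨Fin.elim0, ?_⟩
      simp
    | succ t ih =>
      obtain ⟨s, hs⟩ := ih
      have hcard : ∀ (ω : Ω) (i : I), Real.exp ((univ.filter fun j : Fin (t + 1) =>
          bad i ((Fin.cons ω s : Fin (t + 1) → Ω) j)).card : ℝ) =
          Real.exp ((univ.filter fun j => bad i (s j)).card : ℝ) *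
            (if bad i ω then Real.exp 1 else 1) := by
        intro ω i
        have : (univ.filter fun j : Fin (t + 1) => bad i ((Fin.cons ω s : Fin (t + 1) → Ω) j)).card
            = (if bad i ω then 1 else 0) + (univ.filter fun j => bad i (s j)).card := by
          rw [Fin.univ_succ, filter_cons, ]
          simp only [Fin.cons_zero]
          split_ifs with h
          · rw [card_cons, filter_map, card_map]
            simp [add_comm]
          · rw [filter_map, card_map]
            simp
        rw [this]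
        push_cast
        split_ifs with h
        · rw [← Real.exp_add, add_comm]
        · simp
      have hsum : ∑ ω : Ω, ∑ i, Real.exp ((univ.filter fun j : Fin (t + 1) =>
          bad i ((Fin.cons ω s : Fin (t + 1) → Ω) j)).card : ℝ) ≤
          ∑ ω : Ω, (Fintype.card I * Real.exp (δ / 2 * (t + 1 : ℕ)) : ℝ) := by
        rw [sum_comm]
        have hi : ∀ i ∈ (univ : Finset I), ∑ ω : Ω, Real.exp ((univ.filter fun j : Fin (t + 1) =>
            bad i ((Fin.cons ω s : Fin (t + 1) → Ω) j)).card : ℝ) ≤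
            Real.exp ((univ.filter fun j => bad i (s j)).card : ℝ) *
              (Fintype.card Ω * Real.exp (δ / 2)) := by
          intro i _
          rw [sum_congr rfl (fun ω _ => hcard ω i), ← mul_sum]
          refine mul_le_mul_of_nonneg_left ?_ (Real.exp_pos _).le
          have h1 : ∑ ω : Ω, (if bad i ω then Real.exp 1 else 1) =
              (Fintype.card Ω : ℝ) + (univ.filter (bad i)).card * (Real.exp 1 - 1) := by
            have : ∀ ω : Ω, (if bad i ω then Real.exp 1 else 1) =
                1 + (if bad i ω then (Real.exp 1 - 1) else 0) := by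
              intro ω; split_ifs <;> ring
            rw [sum_congr rfl (fun ω _ => this ω), sum_add_distrib, ← sum_filter, sum_const,
              sum_const, nsmul_eq_mul, nsmul_eq_mul, card_univ, mul_one]
          rw [h1]
          have he : Real.exp 1 - 1 ≤ 2 := by
            have := Real.exp_one_lt_d9
            linarith
          have he0 : 0 ≤ Real.exp 1 - 1 := by
            have := Real.add_one_le_exp (1 : ℝ)
            linarith
          have h2 : ((univ.filter (bad i)).card : ℝ) * (Real.exp 1 - 1) ≤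
              (δ / 4 * Fintype.card Ω) * 2 :=
            mul_le_mul (hbad i) he he0 (by positivity)
          have h3 : δ / 2 + 1 ≤ Real.exp (δ / 2) := Real.add_one_le_exp _
          nlinarith
        refine (sum_le_sum hi).trans ?_
        rw [← sum_mul, sum_const, nsmul_eq_mul, card_univ]
        calc (∑ i, Real.exp ((univ.filter fun j => bad i (s j)).card : ℝ)) *
              (Fintype.card Ω * Real.exp (δ / 2))
            ≤ (Fintype.card I * Real.exp (δ / 2 * t)) * (Fintype.card Ω * Real.exp (δ / 2)) :=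
              mul_le_mul_of_nonneg_right hs (by positivity)
          _ = Fintype.card Ω * (Fintype.card I * (Real.exp (δ / 2 * t) * Real.exp (δ / 2))) := by
              ring
          _ = Fintype.card Ω * (Fintype.card I * Real.exp (δ / 2 * (t + 1 : ℕ))) := by
              rw [← Real.exp_add]
              congr 3
              push_cast
              ring
      obtain ⟨ω, _, hω⟩ := exists_le_of_sum_le univ_nonempty hsum
      exact ⟨Fin.cons ω s, hω⟩
  obtain ⟨s, hs⟩ := hstep t
  refine ⟨s, fun i => ?_⟩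
  by_contra hlt
  push Not at hlt
  have hI : (0 : ℝ) < Fintype.card I := by
    have : Nonempty I := ⟨i⟩
    exact_mod_cast Fintype.card_pos
  have h1 : Real.exp (δ * t) < Real.exp ((univ.filter fun j => bad i (s j)).card : ℝ) :=
    Real.exp_lt_exp.mpr hlt
  have h2 : Real.exp ((univ.filter fun j => bad i (s j)).card : ℝ) ≤
      ∑ i, Real.exp ((univ.filter fun j => bad i (s j)).card : ℝ) :=
    single_le_sum (f := fun i => Real.exp ((univ.filter fun j => bad i (s j)).card : ℝ))
      (fun _ _ => (Real.exp_pos _).le) (mem_univ i)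
  have h3 : (Fintype.card I : ℝ) ≤ Real.exp (δ / 2 * t) := by
    rw [← Real.exp_log hI]
    exact Real.exp_le_exp.mpr ht
  have h4 : (Fintype.card I : ℝ) * Real.exp (δ / 2 * t) ≤ Real.exp (δ * t) := by
    calc (Fintype.card I : ℝ) * Real.exp (δ / 2 * t)
        ≤ Real.exp (δ / 2 * t) * Real.exp (δ / 2 * t) :=
          mul_le_mul_of_nonneg_right h3 (Real.exp_pos _).le
      _ = Real.exp (δ * t) := by rw [← Real.exp_add]; congr 1; ring
  linarith

/-- From a finite uniform public seed to private coins. -/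
theorem privSolves_of_public {n : ℕ} {ε δ : ℝ} (hδ : 0 < δ) {Ω : Type} [Fintype Ω] [Nonempty Ω]
    (p : Ω → Protocol (BM n) (BM n) ℝ) (c : ℕ) (hc : ∀ ω, (p ω).cost ≤ c)
    (hp : ∀ A B : BM n, (∃ S : Finset Ω, (S.card : ℝ) ≤ δ / 4 * Fintype.card Ω ∧ ∀ ω, ω ∉ S →
      IsApprox ε (suppSize A B) ((p ω).run A B))) (t k : ℕ) (ht0 : 1 ≤ t)
    (ht : 4 * (n : ℝ) ^ 2 ≤ δ * t) (htk : t ≤ 2 ^ k) : PrivSolves n ε δ (k + c) := by
  classical
  have : Nonempty (Fin t) := ⟨⟨0, ht0⟩⟩
  choose S hS hS' using hp
  obtain ⟨s, hs⟩ := exists_seeds (I := BM n × BM n) (Ω := Ω) (fun i ω => ω ∈ S i.1 i.2) δ hδ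
    (fun i => by
      have : (univ.filter fun ω => ω ∈ S i.1 i.2) = S i.1 i.2 := by ext; simp
      rw [this]; exact hS _ _) t (by
      have : (Fintype.card (BM n × BM n) : ℝ) = 2 ^ (2 * n ^ 2) := by
        have h1 : Fintype.card (BM n) = 2 ^ (n ^ 2) := by
          rw [show Fintype.card (BM n) = Fintype.card (Fin n → Fin n → Bool) from rfl]
          simp [← pow_mul, sq]
        rw [Fintype.card_prod, h1]
        push_cast
        rw [← pow_add]
        congr 1
        ring
      rw [this, Real.log_pow]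
      push_cast
      have hl : Real.log 2 ≤ 1 := by
        have := Real.log_two_lt_d9
        linarith
      nlinarith [sq_nonneg (n : ℝ)])
  obtain ⟨q, hq, hq'⟩ := Protocol.exists_sendA (X := BM n × Fin t) (Y := BM n × Unit) (R := ℝ)
    (M := Fin t) (k := k) (by simpa using htk) (fun x => x.2)
    (fun i => (p (s i)).comap Prod.fst Prod.fst) c (fun i => by rw [Protocol.cost_comap]; exact hc _)
  refine ⟨Fin t, Unit, PMF.uniformOfFintype (Fin t), PMF.pure (), q, hq, fun A B => ?_⟩
  have hset : (Prod.fst ⁻¹' (↑(univ.filter fun j : Fin t => s j ∉ S A B) : Set (Fin t)) :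
      Set (Fin t × Unit)) ⊆ {r | IsApprox ε (suppSize A B) (q.run (A, r.1) (B, r.2))} := by
    intro r hr
    simp only [coe_filter, mem_univ, true_and, Set.mem_preimage, Set.mem_ofPred_eq] at hr
    simp only [Set.mem_ofPred_eq]
    rw [hq', Protocol.run_comap]
    exact hS' A B _ hr
  refine le_trans ?_ (MeasureTheory.measure_mono hset)
  have hcomp : ((PMF.uniformOfFintype (Fin t)).bind fun a => (PMF.pure ()).map
      fun b => (a, b)).toOuterMeasure
      (Prod.fst ⁻¹' (↑(univ.filter fun j : Fin t => s j ∉ S A B) : Set (Fin t))) =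
      (PMF.uniformOfFintype (Fin t)).toOuterMeasure
        (↑(univ.filter fun j : Fin t => s j ∉ S A B) : Set (Fin t)) := by
    rw [← PMF.toOuterMeasure_map_apply]
    congr 2
    rw [PMF.map_bind]
    simp [PMF.pure_map, PMF.bind_pure]
  rw [hcomp, PMF.toOuterMeasure_uniformOfFintype_apply]
  have hcard : Fintype.card (↑(univ.filter fun j : Fin t => s j ∉ S A B) : Set (Fin t)) =
      (univ.filter fun j : Fin t => s j ∉ S A B).card := by
    simp
  rw [hcard, Fintype.card_fin]
  have hsplit : (univ.filter fun j : Fin t => s j ∈ S A B).card +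
      (univ.filter fun j : Fin t => s j ∉ S A B).card = t := by
    have := card_filter_add_card_filter_not (s := (univ : Finset (Fin t)))
      (p := fun j => s j ∈ S A B)
    simpa using this
  have hs1 := hs (A, B)
  simp only at hs1
  have htpos : (0 : ℝ) < t := by exact_mod_cast ht0
  have hge : 1 - δ ≤ ((univ.filter fun j : Fin t => s j ∉ S A B).card : ℝ) / t := by
    rw [le_div_iff₀ htpos]
    have : ((univ.filter fun j : Fin t => s j ∈ S A B).card : ℝ) +
      ((univ.filter fun j : Fin t => s j ∉ S A B).card : ℝ) = t := by exact_mod_cast hsplit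
    linarith
  refine (ENNReal.ofReal_le_ofReal hge).trans ?_
  rw [ENNReal.ofReal_div_of_pos htpos, ENNReal.ofReal_natCast, ENNReal.ofReal_natCast]

theorem PrivSolves.mono {n : ℕ} {ε δ δ' : ℝ} {c c' : ℕ} (hδ : δ ≤ δ') (hc : c ≤ c')
    (h : PrivSolves n ε δ c) : PrivSolves n ε δ' c' := by
  obtain ⟨RA, RB, μA, μB, p, hp, h'⟩ := h
  refine ⟨RA, RB, μA, μB, p, hp.trans hc, fun A B => le_trans ?_ (h' A B)⟩
  exact ENNReal.ofReal_le_ofReal (by linarith)

/-- The trivial protocol. -/
theorem privSolves_trivial (n : ℕ) {ε δ : ℝ} (hε : 0 ≤ ε) (hδ : 0 < δ) :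
    PrivSolves n ε δ (n ^ 2 + n ^ 2) := by
  classical
  have hc : Fintype.card (BM n) ≤ 2 ^ (n ^ 2) := by
    rw [show Fintype.card (BM n) = Fintype.card (Fin n → Fin n → Bool) from rfl]
    simp [← pow_mul, sq]
  have : Nonempty (BM n) := ⟨fun _ _ => false⟩
  have H : ∀ m : BM n, ∃ p : Protocol (BM n × Unit) (BM n × Unit) ℝ, p.cost ≤ n ^ 2 + 0 ∧
      ∀ x y, p.run x y = (suppSize m y.1 : ℝ) := fun m => by
    obtain ⟨p, hp, hp'⟩ := Protocol.exists_sendB (X := BM n × Unit) (Y := BM n × Unit) (R := ℝ)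
      hc (fun y => y.1) (fun m' => Protocol.output (suppSize m m' : ℝ)) 0 (fun m => le_rfl)
    exact ⟨p, hp, fun x y => by rw [hp']; rfl⟩
  choose P hP hP' using H
  obtain ⟨q, hq, hq'⟩ := Protocol.exists_sendA (X := BM n × Unit) (Y := BM n × Unit) (R := ℝ)
      hc (fun x => x.1) P (n ^ 2) hP
  refine ⟨Unit, Unit, PMF.pure (), PMF.pure (), q, hq, fun A B => ?_⟩
  have : {r : Unit × Unit | IsApprox ε (suppSize A B) (q.run (A, r.1) (B, r.2))} = Set.univ := by
    ext r
    simp only [Set.mem_ofPred_eq, Set.mem_univ, iff_true]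
    rw [hq', hP']
    have h1 : (0 : ℝ) < 1 + ε := by linarith
    have h0 : (0 : ℝ) ≤ suppSize A B := Nat.cast_nonneg _
    constructor
    · rw [div_le_iff₀ h1]
      nlinarith
    · nlinarith
  rw [this]
  have h1 : ((PMF.pure ()).bind fun a => (PMF.pure ()).map fun b : Unit => (a, b)).toOuterMeasure
      Set.univ = 1 := by
    rw [PMF.toOuterMeasure_apply_eq_one_iff]
    exact Set.subset_univ _
  rw [h1]
  calc ENNReal.ofReal (1 - δ) ≤ ENNReal.ofReal 1 := ENNReal.ofReal_le_ofReal (by linarith)
    _ = 1 := ENNReal.ofReal_one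

end Pool.Agent.H76.SIJ
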