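import Mathlib
import Pool.Agent.H76.SIJ.Defs2
import Pool.Agent.H76.SIJ.Embed
import Pool.Agent.H76.SIJ.UpperProto

/-!
Assembly of the lower bound.
-/

open Finset
open scoped BigOperators

namespace Pool.Agent.H76.SIJ

/-- Post-process the output of a protocol. -/
def Protocol.mapOut {X Y R R' : Type} (f : R → R') : Protocol X Y R → Protocol X Y R'
  | .output r => .output (f r)
  | .alice g p0 p1 => .alice g (p0.mapOut f) (p1.mapOut f)
  | .bob g p0 p1 => .bob g (p0.mapOut f) (p1.mapOut f)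

theorem Protocol.cost_mapOut {X Y R R' : Type} (f : R → R') (p : Protocol X Y R) :
    (p.mapOut f).cost = p.cost := by
  induction p with
  | output r => rfl
  | alice g p0 p1 h0 h1 => simp [mapOut, cost, h0, h1]
  | bob g p0 p1 h0 h1 => simp [mapOut, cost, h0, h1]

theorem Protocol.run_mapOut {X Y R R' : Type} (f : R → R') (p : Protocol X Y R) (x : X)
    (y : Y) : (p.mapOut f).run x y = f (p.run x y) := by
  induction p with
  | output r => rfl
  | alice g p0 p1 h0 h1 =>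
    simp only [mapOut, run]
    split_ifs
    · exact h1
    · exact h0
  | bob g p0 p1 h0 h1 =>
    simp only [mapOut, run]
    split_ifs
    · exact h1
    · exact h0

theorem IsApprox.mono {ε ε' : ℝ} (hε : 0 ≤ ε) (h : ε ≤ ε') {N : ℕ} {v : ℝ}
    (hv : IsApprox ε N v) : IsApprox ε' N v := by
  have hN : (0 : ℝ) ≤ N := Nat.cast_nonneg _
  obtain ⟨h1, h2⟩ := hv
  constructor
  · refine le_trans ?_ h1
    exact div_le_div_of_nonneg_left hN (by linarith) (by linarith)
  · refine h2.trans ?_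
    exact mul_le_mul_of_nonneg_right (by linarith) hN

theorem IsApprox.abs_sub_le {ε : ℝ} (hε : 0 ≤ ε) {N : ℕ} {v : ℝ} (hv : IsApprox ε N v) :
    |v - N| ≤ ε * N := by
  have hN : (0 : ℝ) ≤ N := Nat.cast_nonneg _
  obtain ⟨h1, h2⟩ := hv
  rw [div_le_iff₀ (by linarith)] at h1
  rw [abs_le]
  constructor
  · by_cases hvN : v ≤ N
    · have := mul_le_mul_of_nonneg_left hvN hε
      nlinarith
    · push Not at hvN
      nlinarith [mul_nonneg hε hN]
  · nlinarith

theorem PubSolvesBob.mono_eps {n : ℕ} {ε ε' δ : ℝ} {K : ℕ} (hε : 0 ≤ ε) (h : ε ≤ ε')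
    (hP : PubSolvesBob n ε δ K) : PubSolvesBob n ε' δ K := by
  obtain ⟨P, hc, hp⟩ := hP
  refine ⟨P, hc, fun A B => (hp A B).trans (MeasureTheory.measure_mono ?_)⟩
  intro p hp'
  exact IsApprox.mono hε h hp'

/-- A protocol for the support size gives one for another problem. -/
theorem reduce {n : ℕ} {ε δ : ℝ} {K : ℕ} (hP : PubSolvesBob n ε δ K) {X : Type}
    {Q : X → X → ℝ → Prop} (A B : X → BM n) (post : ℝ → ℝ)
    (hQ : ∀ a b v, IsApprox ε (suppSize (A a) (B b)) v → Q a b (post v)) :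
    ∃ P : PMF (Protocol X X (X → ℝ)), (∀ p ∈ P.support, p.cost ≤ K) ∧
      ∀ a b, ENNReal.ofReal (1 - δ) ≤ P.toOuterMeasure {p | Q a b (p.run a b b)} := by
  obtain ⟨P, hc, hp⟩ := hP
  refine ⟨P.map fun p => (p.comap A B).mapOut (fun r x => post (r (B x))), ?_, ?_⟩
  · intro p hp'
    rw [PMF.mem_support_map_iff] at hp'
    obtain ⟨q, hq, rfl⟩ := hp'
    rw [Protocol.cost_mapOut, Protocol.cost_comap]
    exact hc q hq
  · intro a b
    rw [PMF.toOuterMeasure_map_apply]
    refine (hp (A a) (B b)).trans (MeasureTheory.measure_mono ?_)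
    intro p hp'
    simp only [Set.mem_preimage, Set.mem_ofPred_eq] at hp' ⊢
    rw [Protocol.run_mapOut, Protocol.run_comap]
    exact hQ a b _ hp'

/-- Reduction from set disjointness. -/
theorem disj_case {n h K : ℕ} {ε δ : ℝ} (hε : 0 ≤ ε) (hP : PubSolvesBob n ε δ K)
    (hn : 2 * h + 1 ≤ n) :
    ∃ P : PMF (Protocol (Pos h → Bool) (Pos h → Bool) ((Pos h → Bool) → ℝ)),
      (∀ p ∈ P.support, p.cost ≤ K) ∧
      ∀ a b : Pos h → Bool, ENNReal.ofReal (1 - δ) ≤
        P.toOuterMeasure {p | 0 < p.run a b b ↔ ∃ i, a i = true ∧ b i = true} := by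
  classical
  obtain ⟨ι⟩ : Nonempty (Pos h ↪ Fin n) := by
    apply Function.Embedding.nonempty_of_card_le
    simp only [Fintype.card_option, Fintype.card_sum, Fintype.card_fin]
    omega
  let A : (Pos h → Bool) → BM n := fun a i e => decide ((i : ℕ) = 0 ∧ ∃ p, e = ι p ∧ a p = true)
  let B : (Pos h → Bool) → BM n := fun b e j => decide ((j : ℕ) = 0 ∧ ∃ p, e = ι p ∧ b p = true)
  refine reduce (Q := fun a b v => 0 < v ↔ ∃ i, a i = true ∧ b i = true) hP A B id ?_
  intro a b v hv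
  have key : ∀ i j : Fin n, Meets (A a) (B b) i j ↔
      ((i : ℕ) = 0 ∧ (j : ℕ) = 0 ∧ ∃ p, a p = true ∧ b p = true) := by
    intro i j
    simp only [Meets, A, B, decide_eq_true_eq]
    constructor
    · rintro ⟨e, ⟨hi, p, rfl, ha⟩, ⟨hj, p', he, hb⟩⟩
      have := ι.injective he
      subst this
      exact ⟨hi, hj, p, ha, hb⟩
    · rintro ⟨hi, hj, p, ha, hb⟩
      exact ⟨ι p, ⟨hi, p, rfl, ha⟩, hj, p, rfl, hb⟩
  have hn0 : 0 < n := by omega
  simp only [id]
  by_cases hex : ∃ p, a p = true ∧ b p = true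
  · have hN : suppSize (A a) (B b) = 1 := by
      rw [suppSize_eq]
      have : (univ.filter fun p : Fin n × Fin n => Meets (A a) (B b) p.1 p.2) =
          {(⟨0, hn0⟩, ⟨0, hn0⟩)} := by
        ext q
        simp only [mem_filter, mem_univ, true_and, mem_singleton]
        rw [key]
        constructor
        · rintro ⟨h1, h2, _⟩
          apply Prod.ext
          · apply Fin.ext; exact h1
          · apply Fin.ext; exact h2
        · rintro rfl
          exact ⟨rfl, rfl, hex⟩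
      rw [this, card_singleton]
    rw [hN] at hv
    have h1 := hv.1
    have h2 : (0 : ℝ) < ((1 : ℕ) : ℝ) / (1 + ε) := by positivity
    exact ⟨fun _ => hex, fun _ => lt_of_lt_of_le h2 h1⟩
  · have hN : suppSize (A a) (B b) = 0 := by
      rw [suppSize_eq, card_eq_zero, filter_eq_empty_iff]
      intro q _
      rw [key]
      rintro ⟨_, _, h⟩
      exact hex h
    rw [hN] at hv
    have h1 := hv.2
    simp only [Nat.cast_zero, mul_zero] at h1
    exact ⟨fun h => absurd h (not_lt.mpr h1), fun h => absurd h hex⟩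

theorem rs_set (m : ℕ) : ∃ S : Finset ℕ, S ⊆ range m ∧ ThreeAPFree (S : Set ℕ) ∧
    (m : ℝ) * Real.exp (-4 * √(Real.log m)) ≤ S.card := by
  obtain ⟨S, h1, h2, h3⟩ := rothNumberNat_spec m
  refine ⟨S, h1, h3, ?_⟩
  rw [h2]
  exact Behrend.roth_lower_bound

/-- Reduction from the block problem. -/
theorem block_case {n m h K : ℕ} {ε δ c1 : ℝ} (hε : 0 ≤ ε) (hP : PubSolvesBob n ε δ K)
    (hn : m * (2 * h + 3) ≤ n) (S : Finset ℕ) (hS : S ⊆ range m)
    (hAP : ThreeAPFree (S : Set ℕ))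
    (herr : 6 * ε * (m : ℝ) ^ 2 ≤ c1 * √((m * S.card : ℕ) : ℝ)) :
    ∃ P : PMF (Protocol (Blk (m * S.card) h) (Blk (m * S.card) h) (Blk (m * S.card) h → ℝ)),
      (∀ p ∈ P.support, p.cost ≤ K) ∧
      ∀ a b : Blk (m * S.card) h, ENNReal.ofReal (1 - δ) ≤
        P.toOuterMeasure {p | |p.run a b b - (intCount a b : ℝ)| ≤
          c1 * √((m * S.card : ℕ) : ℝ)} := by
  obtain ⟨A, B, hAB⟩ := embedding n m h S hS hAP hn
  refine reduce (Q := fun a b v => |v - (intCount a b : ℝ)| ≤ c1 * √((m * S.card : ℕ) : ℝ))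
    hP A B (fun v => v + ((m * S.card : ℕ) : ℝ) - ((6 * m ^ 2 : ℕ) : ℝ)) ?_
  intro a b v hv
  have h1 := hAB a b
  have h2 := hv.abs_sub_le hε
  have hle : intCount a b ≤ m * S.card := by
    refine (card_le_univ _).trans ?_
    simp
  have hNle : suppSize (A a) (B b) ≤ 6 * m ^ 2 := by omega
  have h1r : (suppSize (A a) (B b) : ℝ) + ((m * S.card : ℕ) : ℝ) =
      ((6 * m ^ 2 : ℕ) : ℝ) + (intCount a b : ℝ) := by exact_mod_cast h1
  have hNr : (suppSize (A a) (B b) : ℝ) ≤ 6 * (m : ℝ) ^ 2 := by exact_mod_cast hNle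
  have h3 : v + ((m * S.card : ℕ) : ℝ) - ((6 * m ^ 2 : ℕ) : ℝ) - (intCount a b : ℝ) =
      v - (suppSize (A a) (B b) : ℝ) := by linarith
  rw [h3]
  refine h2.trans (le_trans ?_ herr)
  have := mul_le_mul_of_nonneg_left hNr hε
  linarith

theorem PrivSolves.pub {n : ℕ} {ε δ : ℝ} {c : ℕ} (h : PrivSolves n ε δ c) :
    PubSolves n ε δ c := by
  obtain ⟨RA, RB, μA, μB, p, hc, hp⟩ := h
  refine ⟨(μA.bind fun a => μB.map fun b => (a, b)).map fun r =>
    p.comap (fun A => (A, r.1)) (fun B => (B, r.2)), ?_, ?_⟩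
  · intro q hq
    rw [PMF.mem_support_map_iff] at hq
    obtain ⟨r, _, rfl⟩ := hq
    rw [Protocol.cost_comap]
    exact hc
  · intro A B
    rw [PMF.toOuterMeasure_map_apply]
    refine (hp A B).trans (MeasureTheory.measure_mono ?_)
    intro r hr
    simp only [Set.mem_preimage, Set.mem_ofPred_eq] at hr ⊢
    rw [Protocol.run_comap]
    exact hr

theorem PubSolves.bob {n : ℕ} {ε δ : ℝ} {c : ℕ} (h : PubSolves n ε δ c) :
    PubSolvesBob n ε δ c := by
  obtain ⟨P, hc, hp⟩ := h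
  refine ⟨P.map fun p => p.mapOut (fun r _ => r), ?_, ?_⟩
  · intro q hq
    rw [PMF.mem_support_map_iff] at hq
    obtain ⟨r, hr, rfl⟩ := hq
    rw [Protocol.cost_mapOut]
    exact hc r hr
  · intro A B
    rw [PMF.toOuterMeasure_map_apply]
    refine (hp A B).trans (MeasureTheory.measure_mono ?_)
    intro r hr
    simp only [Set.mem_preimage, Set.mem_ofPred_eq] at hr ⊢
    rw [Protocol.run_mapOut]
    exact hr

/-- Exchange the roles of the players. -/
def Protocol.swap {X Y R : Type} : Protocol X Y R → Protocol Y X R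
  | .output r => .output r
  | .alice g p0 p1 => .bob g p0.swap p1.swap
  | .bob g p0 p1 => .alice g p0.swap p1.swap

theorem Protocol.cost_swap {X Y R : Type} (p : Protocol X Y R) : p.swap.cost = p.cost := by
  induction p with
  | output r => rfl
  | alice g p0 p1 h0 h1 => simp [swap, cost, h0, h1]
  | bob g p0 p1 h0 h1 => simp [swap, cost, h0, h1]

theorem Protocol.run_swap {X Y R : Type} (p : Protocol X Y R) (x : X) (y : Y) :
    p.swap.run y x = p.run x y := by
  induction p with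
  | output r => rfl
  | alice g p0 p1 h0 h1 =>
    simp only [swap, run]
    split_ifs
    · exact h1
    · exact h0
  | bob g p0 p1 h0 h1 =>
    simp only [swap, run]
    split_ifs
    · exact h1
    · exact h0

theorem suppSize_transpose {n : ℕ} (A B : BM n) :
    suppSize (Matrix.transpose B) (Matrix.transpose A) = suppSize A B := by
  rw [suppSize_eq, suppSize_eq]
  refine card_bij (fun p _ => (p.2, p.1)) ?_ ?_ ?_
  · intro p hp
    rw [mem_filter] at hp ⊢
    obtain ⟨k, h1, h2⟩ := hp.2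
    exact ⟨mem_univ _, k, h2, h1⟩
  · intro p _ q _ h
    simp only [Prod.mk.injEq] at h
    exact Prod.ext h.2 h.1
  · intro p hp
    rw [mem_filter] at hp
    obtain ⟨k, h1, h2⟩ := hp.2
    exact ⟨(p.2, p.1), by rw [mem_filter]; exact ⟨mem_univ _, k, h2, h1⟩, rfl⟩

theorem PubSolvesAlice.bob {n : ℕ} {ε δ : ℝ} {c : ℕ} (h : PubSolvesAlice n ε δ c) :
    PubSolvesBob n ε δ c := by
  obtain ⟨P, hc, hp⟩ := h
  refine ⟨P.map fun p => (p.swap.comap (fun A : BM n => (Matrix.transpose A : BM n))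
    (fun B : BM n => (Matrix.transpose B : BM n))).mapOut
      (fun r (B : BM n) => r (Matrix.transpose B : BM n)), ?_, ?_⟩
  · intro q hq
    rw [PMF.mem_support_map_iff] at hq
    obtain ⟨r, hr, rfl⟩ := hq
    rw [Protocol.cost_mapOut, Protocol.cost_comap, Protocol.cost_swap]
    exact hc r hr
  · intro A B
    rw [PMF.toOuterMeasure_map_apply]
    refine (hp (Matrix.transpose B) (Matrix.transpose A)).trans (MeasureTheory.measure_mono ?_)
    intro r hr
    simp only [Set.mem_preimage, Set.mem_ofPred_eq] at hr ⊢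
    rw [Protocol.run_mapOut, Protocol.run_comap, Protocol.run_swap]
    rw [suppSize_transpose] at hr
    exact hr

/-- The main case: `M` large. -/
theorem large_case {δ c0 c1 : ℝ} (hc0 : 0 < c0) (hc1 : 0 < c1) (hc11 : c1 ≤ 1) {k0 : ℕ}
    (hcore : ∀ k : ℕ, k0 ≤ k → ∀ h C : ℕ,
      ∀ P : PMF (Protocol (Blk k h) (Blk k h) (Blk k h → ℝ)),
      (∀ p ∈ P.support, p.cost ≤ C) →
      (∀ a b : Blk k h, ENNReal.ofReal (1 - δ) ≤
        P.toOuterMeasure {p | |p.run a b b - (intCount a b : ℝ)| ≤ c1 * Real.sqrt k}) →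
      c0 * k * (h + 1) ≤ C)
    {n K : ℕ} {M : ℝ} (hM1 : Real.exp 16 ≤ M) (hM2 : (6 * (k0 + 2) / c1) ^ 2 ≤ M)
    (hMn : M ≤ n) (hP : PubSolvesBob n (1 / M) δ K) :
    (c0 / 48 * c1) * n * M * Real.exp (-(6 * √(Real.log M))) ≤ K := by
  have hM0 : 0 < M := lt_of_lt_of_le (Real.exp_pos _) hM1
  have hlogM : 16 ≤ Real.log M := by
    rw [Real.le_log_iff_exp_le hM0]; exact hM1
  have hMge1 : 1 ≤ M := by
    have := Real.add_one_le_exp (16 : ℝ)
    linarith
  have hk0 : (0 : ℝ) ≤ k0 := Nat.cast_nonneg _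
  set l : ℝ := √(Real.log M) with hl
  have hl0 : 0 ≤ l := Real.sqrt_nonneg _
  have hlsq : l ^ 2 = Real.log M := Real.sq_sqrt (by linarith)
  have hl4 : 4 ≤ l := by
    rw [hl]; exact Real.le_sqrt_of_sq_le (by linarith)
  have hexpM : Real.exp (l ^ 2) = M := by rw [hlsq, Real.exp_log hM0]
  -- M exp(-2l) >= sqrt M
  have hbig : √M ≤ M * Real.exp (-(2 * l)) := by
    have h1 : √M = Real.exp (l ^ 2 / 2) := by
      rw [Real.exp_half, hexpM]
    rw [h1]
    nth_rewrite 1 [← hexpM]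
    rw [← Real.exp_add]
    exact Real.exp_le_exp.mpr (by nlinarith)
  have hsq2 : 6 * (k0 + 2) / c1 ≤ √M := Real.le_sqrt_of_sq_le hM2
  set y : ℝ := c1 / 6 * M * Real.exp (-(2 * l)) with hy
  have hyk : (k0 : ℝ) + 2 ≤ y := by
    have h1 : 6 * (k0 + 2) / c1 ≤ M * Real.exp (-(2 * l)) := hsq2.trans hbig
    rw [div_le_iff₀ hc1] at h1
    rw [hy]
    linarith
  set m : ℕ := ⌊y⌋₊ with hm
  have hmy : (m : ℝ) ≤ y := Nat.floor_le (by linarith)
  have hmy2 : y < m + 1 := Nat.lt_floor_add_one y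
  have hmk : k0 + 1 ≤ m := by
    have : (k0 : ℝ) + 1 < m + 1 := by linarith
    have h2 : (k0 : ℝ) + 1 < ((m + 1 : ℕ) : ℝ) := by push_cast; exact this
    have h3 : ((k0 + 1 : ℕ) : ℝ) < ((m + 1 : ℕ) : ℝ) := by push_cast; push_cast at h2; exact h2
    have h4 : k0 + 1 < m + 1 := by exact_mod_cast h3
    have h5 : (k0 : ℝ) + 1 ≤ m := by
      have : (k0 : ℝ) + 2 < m + 1 + 0 := by linarith
      linarith
    exact_mod_cast h5
  have hm1 : 1 ≤ m := by omega
  have hm1r : (1 : ℝ) ≤ m := by exact_mod_cast hm1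
  have hexp1 : Real.exp (-(2 * l)) ≤ 1 := by
    rw [Real.exp_le_one_iff]; linarith
  have hyM : y ≤ M / 6 := by
    have h1 : c1 * (M * Real.exp (-(2 * l))) ≤ 1 * (M * 1) :=
      mul_le_mul hc11 (mul_le_mul_of_nonneg_left hexp1 hM0.le) (by positivity) (by norm_num)
    rw [hy]; linarith
  have hmM : (m : ℝ) ≤ M := by linarith
  have hmn6 : 6 * m ≤ n := by
    have h1 : (6 : ℝ) * m ≤ n := by linarith
    exact_mod_cast h1
  have hlogm : √(Real.log m) ≤ l := Real.sqrt_le_sqrt (Real.log_le_log (by linarith) hmM)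
  obtain ⟨S, hS1, hS2, hS3⟩ := rs_set m
  have hSr : (m : ℝ) * Real.exp (-(4 * l)) ≤ S.card := by
    refine le_trans ?_ hS3
    refine mul_le_mul_of_nonneg_left (Real.exp_le_exp.mpr ?_) (by linarith)
    linarith
  have hSpos : 1 ≤ S.card := by
    have h1 : (0 : ℝ) < S.card := lt_of_lt_of_le (by positivity) hSr
    exact_mod_cast h1
  -- error bound
  have herr : 6 * (1 / M) * (m : ℝ) ^ 2 ≤ c1 * √((m * S.card : ℕ) : ℝ) := by
    have h1 : (m : ℝ) * Real.exp (-(2 * l)) ≤ √((m * S.card : ℕ) : ℝ) := by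
      apply Real.le_sqrt_of_sq_le
      push_cast
      have h2 : ((m : ℝ) * Real.exp (-(2 * l))) ^ 2 = m * (m * Real.exp (-(4 * l))) := by
        rw [mul_pow, ← Real.exp_nat_mul]
        have : ((2 : ℕ) : ℝ) * (-(2 * l)) = -(4 * l) := by push_cast; ring
        rw [this]; ring
      rw [h2]
      exact mul_le_mul_of_nonneg_left hSr (by linarith)
    refine le_trans ?_ (mul_le_mul_of_nonneg_left h1 hc1.le)
    have h3 : (m : ℝ) * m ≤ m * y := mul_le_mul_of_nonneg_left hmy (by linarith)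
    rw [show 6 * (1 / M) * (m : ℝ) ^ 2 = 6 * (m * m) / M by ring, div_le_iff₀ hM0]
    calc 6 * ((m : ℝ) * m) ≤ 6 * (m * y) := by linarith
      _ = c1 * (m * Real.exp (-(2 * l))) * M := by rw [hy]; ring
  -- h
  set q : ℕ := n / m with hq
  have hq6 : 6 ≤ q := (Nat.le_div_iff_mul_le hm1).mpr hmn6
  set h : ℕ := (q - 3) / 2 with hh
  have hmh : m * (2 * h + 3) ≤ n := by
    have h1 : 2 * h + 3 ≤ q := by omega
    calc m * (2 * h + 3) ≤ m * q := Nat.mul_le_mul_left m h1
      _ ≤ n := Nat.mul_div_le n m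
  have hh2 : n ≤ 4 * m * (h + 1) := by
    have h1 : q ≤ 3 * (h + 1) := by omega
    have h2 : n < m * (q + 1) := by
      rw [hq]
      have := Nat.lt_div_mul_add (a := n) hm1
      nlinarith
    have h3 : q + 1 ≤ 4 * (h + 1) := by omega
    nlinarith
  obtain ⟨P, hPc, hPp⟩ := block_case (c1 := c1) (by positivity) hP hmh S hS1 hS2 herr
  have hk : k0 ≤ m * S.card := by nlinarith
  have hfin := hcore (m * S.card) hk h K P hPc hPp
  have hh2r : (n : ℝ) ≤ 4 * m * (h + 1) := by exact_mod_cast hh2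
  have hn0 : (0 : ℝ) ≤ n := Nat.cast_nonneg _
  have hm2 : y / 2 ≤ m := by linarith
  push_cast at hfin
  refine le_trans ?_ hfin
  have e1 : Real.exp (-(6 * l)) = Real.exp (-(2 * l)) * Real.exp (-(4 * l)) := by
    rw [← Real.exp_add]; congr 1; ring
  have hE4 : 0 < Real.exp (-(4 * l)) := Real.exp_pos _
  calc (c0 / 48 * c1) * n * M * Real.exp (-(6 * l))
      = c0 * (y / 2) * Real.exp (-(4 * l)) * (n / 4) := by rw [e1, hy]; ring
    _ ≤ c0 * m * Real.exp (-(4 * l)) * (m * (h + 1)) := by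
        refine mul_le_mul ?_ (by linarith) (by positivity) (by positivity)
        exact mul_le_mul_of_nonneg_right (mul_le_mul_of_nonneg_left hm2 hc0.le) hE4.le
    _ = c0 * (m * (m * Real.exp (-(4 * l)))) * (h + 1) := by ring
    _ ≤ c0 * (m * S.card) * (h + 1) := by
        refine mul_le_mul_of_nonneg_right (mul_le_mul_of_nonneg_left ?_ hc0.le) (by positivity)
        exact mul_le_mul_of_nonneg_left hSr (by linarith)

/-- MODULE P3b: the assembly of the lower bound. -/
theorem lower_of_core (δ : ℝ) (h1 : CoreLower δ) (h2 : DisjLower δ) :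
    ∃ c : ℝ, 0 < c ∧ ∀ n : ℕ, 1 ≤ n → ∀ ε : ℝ, 0 < ε → ε ≤ 1 → ∀ K : ℕ,
      PubSolvesBob n ε δ K →
      c * n * min (1 / ε) n * Real.exp (-(6 * Real.sqrt (Real.log (min (1 / ε) n)))) ≤ K := by
  obtain ⟨c0, c1', hc0, hc1', k0, hcore'⟩ := h1
  obtain ⟨cd, hcd, hdisj⟩ := h2
  set c1 : ℝ := min c1' 1 with hc1
  have hc10 : 0 < c1 := lt_min hc1' one_pos
  have hc11 : c1 ≤ 1 := min_le_right _ _
  have hcore : ∀ k : ℕ, k0 ≤ k → ∀ h C : ℕ,
      ∀ P : PMF (Protocol (Blk k h) (Blk k h) (Blk k h → ℝ)),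
      (∀ p ∈ P.support, p.cost ≤ C) →
      (∀ a b : Blk k h, ENNReal.ofReal (1 - δ) ≤
        P.toOuterMeasure {p | |p.run a b b - (intCount a b : ℝ)| ≤ c1 * Real.sqrt k}) →
      c0 * k * (h + 1) ≤ C := by
    intro k hk h C P hP hp
    refine hcore' k hk h C P hP (fun a b => (hp a b).trans (MeasureTheory.measure_mono ?_))
    intro p hp'
    simp only [Set.mem_ofPred_eq] at hp' ⊢
    exact hp'.trans (mul_le_mul_of_nonneg_right (min_le_left _ _) (Real.sqrt_nonneg _))
  set E0 : ℝ := max (Real.exp 16) ((6 * (k0 + 2) / c1) ^ 2) with hE0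
  have hE0pos : 0 < E0 := lt_of_lt_of_le (Real.exp_pos _) (le_max_left _ _)
  refine ⟨min (c0 / 48 * c1) (cd / (2 * E0)), lt_min (by positivity) (by positivity),
    fun n hn ε hε0 hε1 K hP => ?_⟩
  have hn1 : (1 : ℝ) ≤ n := by exact_mod_cast hn
  set M : ℝ := min (1 / ε) n with hM
  have hεinv : 1 ≤ 1 / ε := by rw [le_div_iff₀ hε0]; linarith
  have hM1 : 1 ≤ M := le_min hεinv hn1
  have hMn : M ≤ n := min_le_right _ _
  have hM0 : 0 < M := by linarith
  have hεM : ε ≤ 1 / M := by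
    rw [le_div_iff₀ hM0]
    have h3 : M ≤ 1 / ε := min_le_left _ _
    have := mul_le_mul_of_nonneg_left h3 hε0.le
    have h4 : ε * (1 / ε) = 1 := by field_simp
    linarith
  have hP' : PubSolvesBob n (1 / M) δ K := hP.mono_eps hε0.le hεM
  have hnM : 0 ≤ (n : ℝ) * M * Real.exp (-(6 * √(Real.log M))) := by positivity
  rcases le_or_gt E0 M with hcase | hcase
  · have h3 := large_case hc0 hc10 hc11 hcore ((le_max_left _ _).trans hcase)
      ((le_max_right _ _).trans hcase) hMn hP'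
    refine le_trans ?_ h3
    have h4 : min (c0 / 48 * c1) (cd / (2 * E0)) ≤ c0 / 48 * c1 := min_le_left _ _
    have := mul_le_mul_of_nonneg_right h4 hnM
    calc min (c0 / 48 * c1) (cd / (2 * E0)) * n * M * Real.exp (-(6 * √(Real.log M)))
        = min (c0 / 48 * c1) (cd / (2 * E0)) * (n * M * Real.exp (-(6 * √(Real.log M)))) := by ring
      _ ≤ (c0 / 48 * c1) * (n * M * Real.exp (-(6 * √(Real.log M)))) := this
      _ = _ := by ring
  · obtain ⟨P, hPc, hPp⟩ := disj_case (h := (n - 1) / 2) (by positivity) hP' (by omega)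
    have h3 := hdisj ((n - 1) / 2) K P hPc hPp
    have h4 : (n : ℝ) / 2 ≤ (((n - 1) / 2 : ℕ) : ℝ) + 1 := by
      have : n ≤ 2 * ((n - 1) / 2 + 1) := by omega
      have h5 : (n : ℝ) ≤ 2 * ((((n - 1) / 2 : ℕ) : ℝ) + 1) := by exact_mod_cast this
      linarith
    have h6 : cd * (n / 2) ≤ K := le_trans (mul_le_mul_of_nonneg_left h4 hcd.le) h3
    refine le_trans ?_ h6
    have h7 : min (c0 / 48 * c1) (cd / (2 * E0)) ≤ cd / (2 * E0) := min_le_right _ _
    have h8 : Real.exp (-(6 * √(Real.log M))) ≤ 1 := by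
      rw [Real.exp_le_one_iff]
      have := Real.sqrt_nonneg (Real.log M)
      linarith
    calc min (c0 / 48 * c1) (cd / (2 * E0)) * n * M * Real.exp (-(6 * √(Real.log M)))
        = min (c0 / 48 * c1) (cd / (2 * E0)) * (n * M * Real.exp (-(6 * √(Real.log M)))) := by ring
      _ ≤ cd / (2 * E0) * (n * M * Real.exp (-(6 * √(Real.log M)))) :=
          mul_le_mul_of_nonneg_right h7 hnM
      _ ≤ cd / (2 * E0) * (n * E0 * 1) := by
          refine mul_le_mul_of_nonneg_left ?_ (by positivity)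
          exact mul_le_mul (mul_le_mul_of_nonneg_left hcase.le (by linarith)) h8
            (Real.exp_pos _).le (by positivity)
      _ = cd * (n / 2) := by field_simp

end Pool.Agent.H76.SIJ
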