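import Pool.Agent.H76.SIJ.Ent

/-!
Chain rule and superadditivity of the entropy functional on product spaces.
-/

open Finset
open scoped BigOperators

namespace Pool.Agent.H76.SIJ

section mix

variable {k : ℕ} {X : Type*}

/-- First `g` coordinates from `x`, the others from `x'`. -/
def mix (g : ℕ) (x x' : Fin k → X) : Fin k → X := fun i => if (i : ℕ) < g then x i else x' i

theorem mix_zero (x x' : Fin k → X) : mix 0 x x' = x' := by
  funext i; simp [mix]

theorem mix_of_le {g : ℕ} (hg : k ≤ g) (x x' : Fin k → X) : mix g x x' = x := by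
  funext i
  have : (i : ℕ) < g := lt_of_lt_of_le i.2 hg
  simp [mix, this]

theorem mix_succ_update (g : Fin k) (x x' : Fin k → X) (z : X) :
    mix ((g : ℕ) + 1) (Function.update x g z) x' = mix (g : ℕ) x (Function.update x' g z) := by
  funext i
  unfold mix
  rcases lt_trichotomy (i : ℕ) (g : ℕ) with h | h | h
  · have h1 : i ≠ g := fun h' => by simp [h'] at h
    have h2 : (i : ℕ) < g + 1 := by omega
    simp [h, h2, Function.update_of_ne h1]
  · have h1 : i = g := Fin.ext h
    subst h1
    simp
  · have h1 : i ≠ g := fun h' => by simp [h'] at h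
    have h2 : ¬ (i : ℕ) < g + 1 := by omega
    have h3 : ¬ (i : ℕ) < g := by omega
    simp [h2, h3, Function.update_of_ne h1]

theorem update_mix_succ (g : Fin k) (x x' : Fin k → X) (z : X) :
    mix ((g : ℕ) + 1) (Function.update x g z) x' = Function.update (mix (g : ℕ) x x') g z := by
  funext i
  by_cases h1 : i = g
  · subst h1
    simp [mix]
  · rw [Function.update_of_ne h1]
    have h1' : (i : ℕ) ≠ g := fun h => h1 (Fin.ext h)
    unfold mix
    rw [Function.update_of_ne h1]
    by_cases h : (i : ℕ) < g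
    · rw [if_pos h, if_pos (by omega)]
    · rw [if_neg h, if_neg (by omega)]

variable [Fintype X]

/-- Conditional expectation given the first `g` coordinates. -/
noncomputable def condE (g : ℕ) (F : (Fin k → X) → ℝ) (x : Fin k → X) : ℝ :=
  𝔼 x' : Fin k → X, F (mix g x x')

theorem condE_zero (F : (Fin k → X) → ℝ) (x : Fin k → X) :
    condE 0 F x = 𝔼 x' : Fin k → X, F x' := by
  unfold condE
  simp only [mix_zero]

theorem condE_nonneg (g : ℕ) (F : (Fin k → X) → ℝ) (hF : ∀ x, 0 ≤ F x) (x : Fin k → X) :
    0 ≤ condE g F x := expect_nonneg' fun _ => hF _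

variable [Nonempty X]

theorem condE_of_le {g : ℕ} (hg : k ≤ g) (F : (Fin k → X) → ℝ) (x : Fin k → X) :
    condE g F x = F x := by
  unfold condE
  simp only [mix_of_le hg, Fintype.expect_const]

theorem condE_succ (g : Fin k) (F : (Fin k → X) → ℝ) (x : Fin k → X) :
    (𝔼 z : X, condE ((g : ℕ) + 1) F (Function.update x g z)) = condE (g : ℕ) F x := by
  unfold condE
  rw [expect_comm' (fun (z : X) (x' : Fin k → X) =>
    F (mix ((g : ℕ) + 1) (Function.update x g z) x'))]
  simp only [mix_succ_update]
  exact expect_update g (fun x' => F (mix (g : ℕ) x x'))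

theorem expect_condE_step (g : Fin k) (F : (Fin k → X) → ℝ) :
    (𝔼 x, condE (g : ℕ) F x) = 𝔼 x, condE ((g : ℕ) + 1) F x := by
  rw [← expect_update g (fun x => condE ((g : ℕ) + 1) F x)]
  apply Finset.expect_congr rfl
  intro x _
  exact (condE_succ g F x).symm

theorem expect_condE (F : (Fin k → X) → ℝ) (g : ℕ) : (𝔼 x, condE g F x) = 𝔼 x, F x := by
  induction g with
  | zero => simp only [condE_zero, Fintype.expect_const]
  | succ g ih =>
    by_cases h : g < k
    · rw [← ih]
      exact (expect_condE_step ⟨g, h⟩ F).symm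
    · simp only [condE_of_le (show k ≤ g + 1 by omega)]

/-- Chain rule for the entropy functional. -/
theorem Ent_chain (F : (Fin k → X) → ℝ) :
    Ent F = ∑ g : Fin k, 𝔼 x, Ent (fun z : X => condE ((g : ℕ) + 1) F (Function.update x g z)) := by
  set Lf : ℕ → ℝ := fun g => 𝔼 x, condE g F x * Real.log (condE g F x) with hL
  have step : ∀ g : Fin k,
      (𝔼 x, Ent (fun z : X => condE ((g : ℕ) + 1) F (Function.update x g z)))
        = Lf ((g : ℕ) + 1) - Lf (g : ℕ) := by
    intro g
    unfold Ent
    rw [Finset.expect_sub_distrib]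
    simp only [condE_succ]
    rw [expect_update g (fun x => condE ((g : ℕ) + 1) F x * Real.log (condE ((g : ℕ) + 1) F x))]
  rw [Finset.sum_congr rfl (fun g _ => step g)]
  rw [Fin.sum_univ_eq_sum_range (fun g => Lf (g + 1) - Lf g) k, Finset.sum_range_sub]
  simp only [hL, condE_zero, condE_of_le le_rfl, Fintype.expect_const]
  rfl

end mix

section marg

variable {ι X : Type*} [Fintype ι] [DecidableEq ι] [Fintype X] [Nonempty X]

/-- The marginal of `φ` at the coordinate `i`. -/
noncomputable def margAt (i : ι) (φ : (ι → X) → ℝ) (z : X) : ℝ :=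
  𝔼 x : ι → X, φ (Function.update x i z)

omit [Nonempty X] in
theorem margAt_nonneg (i : ι) (φ : (ι → X) → ℝ) (h : ∀ x, 0 ≤ φ x) (z : X) :
    0 ≤ margAt i φ z := expect_nonneg' fun _ => h _

theorem expect_margAt (i : ι) (φ : (ι → X) → ℝ) : (𝔼 z, margAt i φ z) = 𝔼 x, φ x := by
  unfold margAt
  rw [expect_comm' (fun (z : X) (x : ι → X) => φ (Function.update x i z))]
  exact expect_update i φ

theorem margAt_eq_expect_condE {k : ℕ} (g : Fin k) (F : (Fin k → X) → ℝ) (z : X) :
    margAt g F z = 𝔼 x, condE ((g : ℕ) + 1) F (Function.update x g z) := by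
  unfold margAt
  rw [← expect_condE (fun x => F (Function.update x g z)) (g : ℕ)]
  apply Finset.expect_congr rfl
  intro x _
  unfold condE
  simp only [update_mix_succ]

theorem Ent_superadd_fin {k : ℕ} (F : (Fin k → X) → ℝ) (hF : ∀ x, 0 ≤ F x) :
    ∑ g : Fin k, Ent (margAt g F) ≤ Ent F := by
  rw [Ent_chain F]
  apply Finset.sum_le_sum
  intro g _
  have : margAt g F = fun z => 𝔼 x, condE ((g : ℕ) + 1) F (Function.update x g z) := by
    funext z
    exact margAt_eq_expect_condE g F z
  rw [this]
  exact Ent_expect_le (fun x z => condE ((g : ℕ) + 1) F (Function.update x g z))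
    (fun x z => condE_nonneg _ F hF _)

/-- Superadditivity of the entropy functional over the coordinates. -/
theorem Ent_superadd (φ : (ι → X) → ℝ) (hφ : ∀ x, 0 ≤ φ x) :
    ∑ i : ι, Ent (margAt i φ) ≤ Ent φ := by
  let e : ι ≃ Fin (Fintype.card ι) := Fintype.equivFin ι
  let E : (ι → X) ≃ (Fin (Fintype.card ι) → X) := Equiv.arrowCongr e (Equiv.refl X)
  have hE : ∀ x : ι → X, ∀ j, E x j = x (e.symm j) := by
    intro x j
    rfl
  have h1 := Ent_superadd_fin (fun y => φ (E.symm y)) (fun y => hφ _)
  have h2 : Ent (fun y => φ (E.symm y)) = Ent φ := Ent_equiv E.symm φ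
  rw [h2] at h1
  refine le_trans (le_of_eq ?_) h1
  rw [← Equiv.sum_comp e]
  apply Finset.sum_congr rfl
  intro i _
  congr 1
  funext z
  unfold margAt
  rw [← expect_equiv' E]
  apply Finset.expect_congr rfl
  intro x _
  congr 1
  rw [Equiv.eq_symm_apply]
  funext j
  rw [hE]
  by_cases hj : e.symm j = i
  · have : j = e i := by rw [← hj, Equiv.apply_symm_apply]
    subst this
    simp
  · have : j ≠ e i := fun h => hj (by rw [h, Equiv.symm_apply_apply])
    rw [Function.update_of_ne hj, Function.update_of_ne this, hE]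

end marg

end Pool.Agent.H76.SIJ
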