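import Pool.Agent.H76.SIJ.Cut

/-!
Low communication leaves the planted bits almost uniform.
-/

open Finset
open scoped BigOperators

namespace Pool.Agent.H76.SIJ

section plant

variable {k : ℕ} {P : Type*} [Fintype P] [DecidableEq P]

/-- Overwrite the planted bits. -/
def plant (p0 : P) (x : Fin k → P → Bool) (u : Fin k → Bool) : Fin k → P → Bool :=
  fun g => Function.update (x g) p0 (u g)

theorem expect_prod {A B : Type*} [Fintype A] [Fintype B] (Ψ : A × B → ℝ) :
    (𝔼 p, Ψ p) = 𝔼 a, 𝔼 b, Ψ (a, b) := by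
  have := Finset.expect_product (Finset.univ : Finset A) (Finset.univ : Finset B) Ψ
  rw [Finset.univ_product_univ] at this
  exact this

/-- Exchange the planted bits with an independent vector. -/
def plantEquiv (p0 : P) : ((Fin k → P → Bool) × (Fin k → Bool)) ≃
    ((Fin k → P → Bool) × (Fin k → Bool)) where
  toFun q := (plant p0 q.1 q.2, fun g => q.1 g p0)
  invFun q := (plant p0 q.1 q.2, fun g => q.1 g p0)
  left_inv := by
    rintro ⟨x, u⟩
    ext1
    · funext g
      simp [plant]
    · funext g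
      simp [plant]
  right_inv := by
    rintro ⟨x, u⟩
    ext1
    · funext g
      simp [plant]
    · funext g
      simp [plant]

theorem expect_plant (p0 : P) (Φ : (Fin k → P → Bool) → ℝ) :
    (𝔼 x, 𝔼 u, Φ (plant p0 x u)) = 𝔼 x, Φ x := by
  have h1 := expect_equiv' (plantEquiv (k := k) p0) (fun q => Φ q.1)
  rw [expect_prod, expect_prod] at h1
  simp only [Fintype.expect_const] at h1
  exact h1

theorem expect_plant' (p0 : P) (Φ : (Fin k → P → Bool) → ℝ) :
    (𝔼 u, 𝔼 x, Φ (plant p0 x u)) = 𝔼 x, Φ x := by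
  rw [expect_comm' (fun (u : Fin k → Bool) (x : Fin k → P → Bool) => Φ (plant p0 x u))]
  exact expect_plant p0 Φ

theorem plant_mix (p0 : P) (g : ℕ) (x x' : Fin k → P → Bool) (w u' : Fin k → Bool) :
    mix g (plant p0 x w) (plant p0 x' u') = plant p0 (mix g x x') (mix g w u') := by
  funext i
  unfold mix plant
  by_cases h : (i : ℕ) < g <;> simp [h]

theorem update_plant (p0 : P) (g : Fin k) (x : Fin k → P → Bool) (u : Fin k → Bool)
    (z : P → Bool) (b : Bool) :
    Function.update (plant p0 x u) g (Function.update z p0 b)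
      = plant p0 (Function.update x g z) (Function.update u g b) := by
  funext i
  by_cases h : i = g
  · subst h
    simp [plant]
  · simp [plant, Function.update_of_ne h]

/-- The mean of `F` as a function of the planted bits. -/
noncomputable def FU (p0 : P) (F : (Fin k → P → Bool) → ℝ) (u : Fin k → Bool) : ℝ :=
  𝔼 x, F (plant p0 x u)

theorem FU_nonneg (p0 : P) (F : (Fin k → P → Bool) → ℝ) (hF : ∀ x, 0 ≤ F x)
    (u : Fin k → Bool) : 0 ≤ FU p0 F u := expect_nonneg' fun _ => hF _

theorem expect_FU (p0 : P) (F : (Fin k → P → Bool) → ℝ) : (𝔼 u, FU p0 F u) = 𝔼 x, F x :=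
  expect_plant' p0 F

theorem condE_FU (p0 : P) (F : (Fin k → P → Bool) → ℝ) (g : Fin k) (u : Fin k → Bool)
    (b : Bool) : condE ((g : ℕ) + 1) (FU p0 F) (Function.update u g b)
      = 𝔼 x, margAt p0 (slice F g (plant p0 x u)) b := by
  set w := Function.update u g b with hw
  have hR : (𝔼 x, margAt p0 (slice F g (plant p0 x u)) b)
      = 𝔼 x, 𝔼 x', F (mix ((g : ℕ) + 1) (plant p0 x w) x') := by
    unfold margAt slice condE
    rw [← expect_update g (fun x => 𝔼 x', F (mix ((g : ℕ) + 1) (plant p0 x w) x'))]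
    apply Finset.expect_congr rfl
    intro x _
    apply Finset.expect_congr rfl
    intro z _
    rw [update_plant]
  rw [hR]
  have h2 : ∀ x, (𝔼 x', F (mix ((g : ℕ) + 1) (plant p0 x w) x'))
      = 𝔼 u', 𝔼 x', F (plant p0 (mix ((g : ℕ) + 1) x x') (mix ((g : ℕ) + 1) w u')) := by
    intro x
    rw [← expect_plant' p0 (fun x' => F (mix ((g : ℕ) + 1) (plant p0 x w) x'))]
    simp only [plant_mix]
  simp only [h2]
  rw [expect_comm' (fun (x : Fin k → P → Bool) (u' : Fin k → Bool) =>
    𝔼 x', F (plant p0 (mix ((g : ℕ) + 1) x x') (mix ((g : ℕ) + 1) w u')))]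
  unfold condE FU
  apply Finset.expect_congr rfl
  intro u' _
  exact (expect_condE (fun x => F (plant p0 x (mix ((g : ℕ) + 1) w u'))) ((g : ℕ) + 1)).symm

theorem Ent_FU_le (p0 : P) (F : (Fin k → P → Bool) → ℝ) (hF : ∀ x, 0 ≤ F x) :
    Ent (FU p0 F) ≤ ∑ g : Fin k, 𝔼 x, Ent (margAt p0 (slice F g x)) := by
  rw [Ent_chain (FU p0 F)]
  apply Finset.sum_le_sum
  intro g _
  rw [← expect_plant' p0 (fun x => Ent (margAt p0 (slice F g x)))]
  apply expect_mono
  intro u
  simp only [condE_FU]
  exact Ent_expect_le (fun x b => margAt p0 (slice F g (plant p0 x u)) b)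
    (fun x b => margAt_nonneg _ _ (slice_nonneg _ hF g _) b)

theorem expect_margAt_slice (p0 : P) (F : (Fin k → P → Bool) → ℝ) (g : Fin k) (b : Bool) :
    (𝔼 x, margAt p0 (slice F g x) b) = cm p0 F g b := by
  unfold cm
  unfold margAt
  rw [expect_comm' (fun (x : Fin k → P → Bool) (z : P → Bool) =>
    slice F g x (Function.update z p0 b))]
  apply Finset.expect_congr rfl
  intro z _
  exact expect_slice F g _

theorem Ent_cm_le (p0 : P) (F : (Fin k → P → Bool) → ℝ) (hF : ∀ x, 0 ≤ F x) (g : Fin k) :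
    Ent (cm p0 F g) ≤ 𝔼 x, Ent (margAt p0 (slice F g x)) := by
  have : cm p0 F g = fun b => 𝔼 x, margAt p0 (slice F g x) b := by
    funext b
    exact (expect_margAt_slice p0 F g b).symm
  rw [this]
  exact Ent_expect_le (fun x b => margAt p0 (slice F g x) b)
    (fun x b => margAt_nonneg _ _ (slice_nonneg _ hF g _) b)

theorem avg_left {L A B : Type*} [Fintype L] [Fintype A] [Nonempty A] (f : L → A → ℝ)
    (h : L → B → ℝ) (b : B) (H : ∀ a, ∑ l, f l a * h l b = 1) :
    ∑ l, (𝔼 a, f l a) * h l b = 1 := by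
  have : (𝔼 a : A, ∑ l, f l a * h l b) = 1 := by simp [H]
  rw [expect_sum] at this
  rw [← this]
  apply Finset.sum_congr rfl
  intro l _
  rw [Finset.expect_mul]

theorem avg_right {L A B : Type*} [Fintype L] [Fintype B] [Nonempty B] (f : L → A → ℝ)
    (h : L → B → ℝ) (a : A) (H : ∀ b, ∑ l, f l a * h l b = 1) :
    ∑ l, f l a * (𝔼 b, h l b) = 1 := by
  have : (𝔼 b : B, ∑ l, f l a * h l b) = 1 := by simp [H]
  rw [expect_sum] at this
  rw [← this]
  apply Finset.sum_congr rfl
  intro l _
  rw [Finset.mul_expect]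

theorem sum_slice_cm {L : Type*} [Fintype L] (p0 : P) (F G : L → (Fin k → P → Bool) → ℝ)
    (hFG : ∀ x y, ∑ l, F l x * G l y = 1) (g : Fin k) (x : Fin k → P → Bool) (u v : Bool) :
    ∑ l, margAt p0 (slice (F l) g x) u * cm p0 (G l) g v = 1 := by
  have h1 : ∀ (x : Fin k → P → Bool), ∑ l, F l x * cm p0 (G l) g v = 1 := by
    intro x
    unfold cm
    unfold margAt
    apply avg_right (fun l (_ : Unit) => F l x)
      (fun l z => 𝔼 y, G l (Function.update y g (Function.update z p0 v))) ()
    intro z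
    apply avg_right (fun l (_ : Unit) => F l x)
      (fun l y => G l (Function.update y g (Function.update z p0 v))) ()
    intro y
    exact hFG _ _
  unfold margAt
  apply avg_left (fun l z => slice (F l) g x (Function.update z p0 u))
    (fun l (_ : Unit) => cm p0 (G l) g v) ()
  intro z
  unfold slice condE
  apply avg_left (fun l x' => F l (mix ((g : ℕ) + 1) (Function.update x g
    (Function.update z p0 u)) x')) (fun l (_ : Unit) => cm p0 (G l) g v) ()
  intro x'
  exact h1 _

theorem sqrt_le_amgm {a t : ℝ} (ha : 0 ≤ a) (ht : 0 < t) : Real.sqrt a ≤ (a / t + t) / 2 := by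
  have h1 := Real.sq_sqrt ha
  have h2 : a / t + t - 2 * Real.sqrt a = (Real.sqrt a - t) ^ 2 / t := by
    field_simp
    nlinarith
  have h3 : 0 ≤ (Real.sqrt a - t) ^ 2 / t := by positivity
  linarith

variable {S : Type*} [Fintype S] [Nonempty S] {L : Type*} [Fintype L]

/-- The `A`-side squared distance. -/
noncomputable def dA (p0 : P) (F G : L → S → (Fin k → P → Bool) → ℝ) (g : Fin k) (s : S)
    (x : Fin k → P → Bool) : ℝ :=
  ∑ l, cm p0 (G l s) g false * (Real.sqrt (margAt p0 (slice (F l s) g x) false) -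
    Real.sqrt (margAt p0 (slice (F l s) g x) true)) ^ 2

/-- The `B`-side squared distance. -/
noncomputable def dB (p0 : P) (F G : L → S → (Fin k → P → Bool) → ℝ) (g : Fin k) (s : S)
    (x : Fin k → P → Bool) : ℝ :=
  ∑ l, margAt p0 (slice (F l s) g x) false * (Real.sqrt (cm p0 (G l s) g false) -
    Real.sqrt (cm p0 (G l s) g true)) ^ 2

theorem sum_dA_le (p0 : P) (T : Fin k → P → Equiv.Perm S)
    (F G : L → S → (Fin k → P → Bool) → ℝ)
    (hF : ∀ l s x, F l s x = 0 ∨ F l s x = 1) (hG : ∀ l s y, G l s y = 0 ∨ G l s y = 1)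
    (hFG : ∀ s x y, ∑ l, F l s x * G l s y = 1)
    (hTF : ∀ g i l s x, F l (T g i s) x =
      F l s (Function.update x g (fun q => x g (Equiv.swap p0 i q))))
    (hTG : ∀ g i l s y, y g p0 = false → G l (T g i s) y = G l s y) :
    ∑ g : Fin k, 𝔼 s, 𝔼 x, dA p0 F G g s x ≤ 8 * Real.log (Fintype.card L) / Fintype.card P := by
  have hF0 : ∀ l s x, 0 ≤ F l s x := fun l s x => by rcases hF l s x with h | h <;> simp [h]
  have hG0 : ∀ l s x, 0 ≤ G l s x := fun l s x => by rcases hG l s x with h | h <;> simp [h]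
  have hG1 : ∀ l s x, G l s x ≤ 1 := fun l s x => by rcases hG l s x with h | h <;> simp [h]
  have hI := info_bound p0 T F G hF hG0 hG1 hFG hTF hTG
  calc (∑ g : Fin k, 𝔼 s, 𝔼 x, dA p0 F G g s x)
      ≤ ∑ g : Fin k, 4 * 𝔼 s, ∑ l, cm p0 (G l s) g false *
          (𝔼 x, Ent (margAt p0 (slice (F l s) g x))) := by
        apply Finset.sum_le_sum
        intro g _
        rw [Finset.mul_expect]
        apply expect_mono
        intro s
        unfold dA
        rw [expect_sum, Finset.mul_sum]
        apply Finset.sum_le_sum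
        intro l _
        rw [← Finset.mul_expect]
        have h1 : (𝔼 x, (Real.sqrt (margAt p0 (slice (F l s) g x) false) -
            Real.sqrt (margAt p0 (slice (F l s) g x) true)) ^ 2)
            ≤ 4 * 𝔼 x, Ent (margAt p0 (slice (F l s) g x)) := by
          rw [Finset.mul_expect]
          apply expect_mono
          intro x
          have := Ent_bool_lower (margAt p0 (slice (F l s) g x))
            (margAt_nonneg _ _ (slice_nonneg _ (hF0 l s) g x))
          linarith
        have h2 := cm_nonneg p0 (G l s) (hG0 l s) g false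
        nlinarith
    _ = 4 * ∑ g : Fin k, 𝔼 s, ∑ l, cm p0 (G l s) g false *
          (𝔼 x, Ent (margAt p0 (slice (F l s) g x))) := by rw [Finset.mul_sum]
    _ ≤ 4 * (2 * Real.log (Fintype.card L) / Fintype.card P) := by linarith
    _ = 8 * Real.log (Fintype.card L) / Fintype.card P := by ring

theorem sum_dB_le (p0 : P) (T : Fin k → P → Equiv.Perm S)
    (F G : L → S → (Fin k → P → Bool) → ℝ)
    (hF : ∀ l s x, F l s x = 0 ∨ F l s x = 1) (hG : ∀ l s y, G l s y = 0 ∨ G l s y = 1)
    (hFG : ∀ s x y, ∑ l, F l s x * G l s y = 1)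
    (hTG : ∀ g i l s y, G l (T g i s) y =
      G l s (Function.update y g (fun q => y g (Equiv.swap p0 i q))))
    (hTF : ∀ g i l s x, x g p0 = false → F l (T g i s) x = F l s x) :
    ∑ g : Fin k, 𝔼 s, 𝔼 x, dB p0 F G g s x ≤ 8 * Real.log (Fintype.card L) / Fintype.card P := by
  have hF0 : ∀ l s x, 0 ≤ F l s x := fun l s x => by rcases hF l s x with h | h <;> simp [h]
  have hG0 : ∀ l s x, 0 ≤ G l s x := fun l s x => by rcases hG l s x with h | h <;> simp [h]
  have hF1 : ∀ l s x, F l s x ≤ 1 := fun l s x => by rcases hF l s x with h | h <;> simp [h]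
  have hI := info_bound p0 T G F hG hF0 hF1 (fun s x y => by
    rw [← hFG s y x]
    apply Finset.sum_congr rfl
    intro l _
    ring) hTG hTF
  calc (∑ g : Fin k, 𝔼 s, 𝔼 x, dB p0 F G g s x)
      ≤ ∑ g : Fin k, 4 * 𝔼 s, ∑ l, cm p0 (F l s) g false *
          (𝔼 x, Ent (margAt p0 (slice (G l s) g x))) := by
        apply Finset.sum_le_sum
        intro g _
        rw [Finset.mul_expect]
        apply expect_mono
        intro s
        unfold dB
        rw [expect_sum, Finset.mul_sum]
        apply Finset.sum_le_sum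
        intro l _
        rw [← Finset.expect_mul, expect_margAt_slice]
        have h1 := Ent_bool_lower (cm p0 (G l s) g) (cm_nonneg p0 (G l s) (hG0 l s) g)
        have h3 := Ent_cm_le p0 (G l s) (hG0 l s) g
        have h2 := cm_nonneg p0 (F l s) (hF0 l s) g false
        nlinarith
    _ = 4 * ∑ g : Fin k, 𝔼 s, ∑ l, cm p0 (F l s) g false *
          (𝔼 x, Ent (margAt p0 (slice (G l s) g x))) := by rw [Finset.mul_sum]
    _ ≤ 4 * (2 * Real.log (Fintype.card L) / Fintype.card P) := by linarith
    _ = 8 * Real.log (Fintype.card L) / Fintype.card P := by ring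

theorem sum_sqrt_le (D : Fin k → S → (Fin k → P → Bool) → ℝ) (hD : ∀ g s x, 0 ≤ D g s x)
    (t : ℝ) (ht : 0 < t) (h : ∑ g : Fin k, 𝔼 s, 𝔼 x, D g s x ≤ k * t ^ 2) :
    ∑ g : Fin k, 𝔼 s, 𝔼 x, Real.sqrt (D g s x) ≤ k * t := by
  have h1 : ∑ g : Fin k, (𝔼 s, 𝔼 x, Real.sqrt (D g s x)) ≤
      ∑ g : Fin k, (𝔼 s, 𝔼 x, (D g s x / t + t) / 2) := by
    apply Finset.sum_le_sum
    intro g _
    apply expect_mono
    intro s
    apply expect_mono
    intro x
    exact sqrt_le_amgm (hD g s x) ht
  have h2 : ∑ g : Fin k, (𝔼 s, 𝔼 x, (D g s x / t + t) / 2)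
      = ((∑ g : Fin k, 𝔼 s, 𝔼 x, D g s x) / t + k * t) / 2 := by
    have : ∀ g : Fin k, (𝔼 s, 𝔼 x, (D g s x / t + t) / 2)
        = ((𝔼 s, 𝔼 x, D g s x) / t + t) / 2 := by
      intro g
      simp only [← Finset.expect_div, Finset.expect_add_distrib, Fintype.expect_const]
    simp only [this]
    rw [← Finset.sum_div, Finset.sum_add_distrib, ← Finset.sum_div]
    simp
  rw [h2] at h1
  have h3 : (∑ g : Fin k, 𝔼 s, 𝔼 x, D g s x) / t ≤ k * t := by
    rw [div_le_iff₀ ht]
    nlinarith
  linarith

/-- Under low communication the planted bits of Alice stay almost uniform. -/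
theorem comb (p0 : P) (T T' : Fin k → P → Equiv.Perm S)
    (F G : L → S → (Fin k → P → Bool) → ℝ)
    (hF : ∀ l s x, F l s x = 0 ∨ F l s x = 1) (hG : ∀ l s y, G l s y = 0 ∨ G l s y = 1)
    (hFG : ∀ s x y, ∑ l, F l s x * G l s y = 1)
    (hTF : ∀ g i l s x, F l (T g i s) x =
      F l s (Function.update x g (fun q => x g (Equiv.swap p0 i q))))
    (hTG : ∀ g i l s y, y g p0 = false → G l (T g i s) y = G l s y)
    (hTG' : ∀ g i l s y, G l (T' g i s) y =
      G l s (Function.update y g (fun q => y g (Equiv.swap p0 i q))))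
    (hTF' : ∀ g i l s x, x g p0 = false → F l (T' g i s) x = F l s x)
    (t : ℝ) (ht : 0 < t)
    (hL : 8 * Real.log (Fintype.card L) / Fintype.card P ≤ k * t ^ 2) :
    (𝔼 s, ∑ l, (𝔼 y, G l s y) * Ent (FU p0 (F l s))) ≤ 2 * Real.log 2 * (k * t) := by
  have hF0 : ∀ l s x, 0 ≤ F l s x := fun l s x => by rcases hF l s x with h | h <;> simp [h]
  have hG0 : ∀ l s x, 0 ≤ G l s x := fun l s x => by rcases hG l s x with h | h <;> simp [h]
  have hα : ∀ l s g x b, 0 ≤ margAt p0 (slice (F l s) g x) b := fun l s g x b =>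
    margAt_nonneg _ _ (slice_nonneg _ (hF0 l s) g x) b
  have hβ : ∀ l s g b, 0 ≤ cm p0 (G l s) g b := fun l s g b => cm_nonneg p0 _ (hG0 l s) g b
  have hdA0 : ∀ g s x, 0 ≤ dA p0 F G g s x := fun g s x =>
    Finset.sum_nonneg fun l _ => mul_nonneg (hβ l s g false) (sq_nonneg _)
  have hdB0 : ∀ g s x, 0 ≤ dB p0 F G g s x := fun g s x =>
    Finset.sum_nonneg fun l _ => mul_nonneg (hα l s g x false) (sq_nonneg _)
  have key : ∀ s, ∑ l, (𝔼 y, G l s y) * Ent (FU p0 (F l s)) ≤
      Real.log 2 * ∑ g : Fin k, 𝔼 x, (Real.sqrt (dA p0 F G g s x) +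
        Real.sqrt (dB p0 F G g s x)) := by
    intro s
    calc ∑ l, (𝔼 y, G l s y) * Ent (FU p0 (F l s))
        ≤ ∑ l, (𝔼 y, G l s y) * ∑ g : Fin k, 𝔼 x, Ent (margAt p0 (slice (F l s) g x)) := by
          apply Finset.sum_le_sum
          intro l _
          exact mul_le_mul_of_nonneg_left (Ent_FU_le p0 (F l s) (hF0 l s))
            (expect_nonneg' (hG0 l s))
      _ = ∑ g : Fin k, 𝔼 x, ∑ l, (𝔼 y, G l s y) * Ent (margAt p0 (slice (F l s) g x)) := by
          simp only [expect_sum, ← Finset.mul_expect, Finset.mul_sum]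
          rw [Finset.sum_comm]
      _ ≤ ∑ g : Fin k, 𝔼 x, Real.log 2 * (Real.sqrt (dA p0 F G g s x) +
            Real.sqrt (dB p0 F G g s x)) := by
          apply Finset.sum_le_sum
          intro g _
          apply expect_mono
          intro x
          have hcp := (cut_paste (fun l b => margAt p0 (slice (F l s) g x) b)
            (fun l b => cm p0 (G l s) g b) (fun l b => hα l s g x b) (fun l b => hβ l s g b)
            (fun u v => sum_slice_cm p0 (fun l => F l s) (fun l => G l s) (hFG s) g x u v)).2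
          have hlog : 0 < Real.log 2 := Real.log_pos one_lt_two
          calc ∑ l, (𝔼 y, G l s y) * Ent (margAt p0 (slice (F l s) g x))
              ≤ ∑ l, Real.log 2 * ((𝔼 b, cm p0 (G l s) g b) *
                  |margAt p0 (slice (F l s) g x) false - margAt p0 (slice (F l s) g x) true|
                    / 2) := by
                apply Finset.sum_le_sum
                intro l _
                rw [expect_cm]
                have h1 := Ent_bool_upper (margAt p0 (slice (F l s) g x))
                  (fun b => hα l s g x b)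
                have h2 := expect_nonneg' (hG0 l s)
                have h3 := mul_le_mul_of_nonneg_left h1 h2
                refine h3.trans (le_of_eq ?_)
                ring
            _ = Real.log 2 * ∑ l, ((𝔼 b, cm p0 (G l s) g b) *
                  |margAt p0 (slice (F l s) g x) false - margAt p0 (slice (F l s) g x) true|
                    / 2) := by rw [Finset.mul_sum]
            _ ≤ Real.log 2 * (Real.sqrt (dA p0 F G g s x) +
                  Real.sqrt (dB p0 F G g s x)) := by
                apply mul_le_mul_of_nonneg_left _ hlog.le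
                exact hcp
      _ = Real.log 2 * ∑ g : Fin k, 𝔼 x, (Real.sqrt (dA p0 F G g s x) +
            Real.sqrt (dB p0 F G g s x)) := by
          rw [Finset.mul_sum]
          apply Finset.sum_congr rfl
          intro g _
          rw [Finset.mul_expect]
  have hA := sum_sqrt_le (dA p0 F G) hdA0 t ht
    ((sum_dA_le p0 T F G hF hG hFG hTF hTG).trans hL)
  have hB := sum_sqrt_le (dB p0 F G) hdB0 t ht
    ((sum_dB_le p0 T' F G hF hG hFG hTG' hTF').trans hL)
  have hlog : 0 < Real.log 2 := Real.log_pos one_lt_two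
  calc (𝔼 s, ∑ l, (𝔼 y, G l s y) * Ent (FU p0 (F l s)))
      ≤ 𝔼 s, Real.log 2 * ∑ g : Fin k, 𝔼 x, (Real.sqrt (dA p0 F G g s x) +
        Real.sqrt (dB p0 F G g s x)) := expect_mono key
    _ = Real.log 2 * (∑ g : Fin k, (𝔼 s, 𝔼 x, Real.sqrt (dA p0 F G g s x)) +
          ∑ g : Fin k, 𝔼 s, 𝔼 x, Real.sqrt (dB p0 F G g s x)) := by
        rw [← Finset.mul_expect, expect_sum, ← Finset.sum_add_distrib]
        congr 1
        apply Finset.sum_congr rfl
        intro g _
        rw [← Finset.expect_add_distrib]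
        apply Finset.expect_congr rfl
        intro s _
        rw [Finset.expect_add_distrib]
    _ ≤ Real.log 2 * (k * t + k * t) := by
        apply mul_le_mul_of_nonneg_left _ hlog.le
        linarith
    _ = 2 * Real.log 2 * (k * t) := by ring

end plant

end Pool.Agent.H76.SIJ
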