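import Mathlib

/-!
The entropy functional `Ent f = E f log f - E f log E f` on a finite uniform probability space.
-/

open Finset
open scoped BigOperators

namespace Pool.Agent.H76.SIJ

/-- Entropy functional with respect to the uniform probability measure on a finite type. -/
noncomputable def Ent {ι : Type*} [Fintype ι] (f : ι → ℝ) : ℝ :=
  (𝔼 i, f i * Real.log (f i)) - (𝔼 i, f i) * Real.log (𝔼 i, f i)

section basic

variable {ι κ : Type*} [Fintype ι] [Fintype κ]

theorem expect_nonneg' {f : ι → ℝ} (h : ∀ i, 0 ≤ f i) : 0 ≤ 𝔼 i, f i := by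
  rw [Fintype.expect_eq_sum_div_card]
  exact div_nonneg (Finset.sum_nonneg fun i _ => h i) (Nat.cast_nonneg _)

theorem expect_mono {f g : ι → ℝ} (h : ∀ i, f i ≤ g i) : (𝔼 i, f i) ≤ 𝔼 i, g i := by
  rw [Fintype.expect_eq_sum_div_card, Fintype.expect_eq_sum_div_card]
  exact div_le_div_of_nonneg_right (Finset.sum_le_sum fun i _ => h i) (Nat.cast_nonneg _)

theorem eq_zero_of_expect_eq_zero [Nonempty ι] {f : ι → ℝ} (h : ∀ i, 0 ≤ f i)
    (h0 : (𝔼 i, f i) = 0) (i : ι) : f i = 0 := by
  rw [Fintype.expect_eq_sum_div_card] at h0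
  have hc : (Fintype.card ι : ℝ) ≠ 0 := by
    exact_mod_cast Fintype.card_ne_zero
  have : ∑ i, f i = 0 := by
    rcases div_eq_zero_iff.1 h0 with h1 | h1
    · exact h1
    · exact absurd h1 hc
  exact (Finset.sum_eq_zero_iff_of_nonneg fun i _ => h i).1 this i (Finset.mem_univ i)

theorem expect_comm' (f : ι → κ → ℝ) : (𝔼 i, 𝔼 j, f i j) = 𝔼 j, 𝔼 i, f i j :=
  Finset.expect_comm _ _ _

theorem expect_sum (s : Finset κ) (f : ι → κ → ℝ) :
    (𝔼 i, ∑ j ∈ s, f i j) = ∑ j ∈ s, 𝔼 i, f i j := by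
  simpa using Finset.expect_sum_comm (Finset.univ : Finset ι) s f

theorem expect_equiv' (e : ι ≃ κ) (f : κ → ℝ) : (𝔼 i, f (e i)) = 𝔼 j, f j :=
  Fintype.expect_equiv e _ _ (fun _ => rfl)

theorem Ent_equiv (e : ι ≃ κ) (f : κ → ℝ) : Ent (fun i => f (e i)) = Ent f := by
  unfold Ent
  rw [expect_equiv' e (fun j => f j * Real.log (f j)), expect_equiv' e f]

/-- `x log (x/y) ≥ x - y` in the form used below. -/
theorem tangent {x y : ℝ} (hx : 0 ≤ x) (hy : 0 < y) :
    x - y ≤ x * Real.log x - x * Real.log y := by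
  rcases hx.eq_or_lt with rfl | hx
  · simp; linarith
  · have := Real.log_le_sub_one_of_pos (x := y / x) (by positivity)
    rw [Real.log_div hy.ne' hx.ne'] at this
    have h2 := mul_le_mul_of_nonneg_left this hx.le
    have h3 : x * (y / x - 1) = y - x := by field_simp
    rw [h3] at h2
    nlinarith

/-- Joint convexity of `(a,b) ↦ a log (a/b)` (log-sum inequality), finite form. -/
theorem logsum [Nonempty ι] (a b : ι → ℝ) (ha : ∀ i, 0 ≤ a i) (hb : ∀ i, 0 ≤ b i)
    (hab : ∀ i, b i = 0 → a i = 0) :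
    (𝔼 i, a i) * Real.log (𝔼 i, a i) - (𝔼 i, a i) * Real.log (𝔼 i, b i) ≤
      𝔼 i, (a i * Real.log (a i) - a i * Real.log (b i)) := by
  set A := 𝔼 i, a i with hA
  set B := 𝔼 i, b i with hB
  rcases (expect_nonneg' ha).eq_or_lt with h0 | hApos
  · have h0' : ∀ i, a i = 0 := eq_zero_of_expect_eq_zero ha h0.symm
    have : A = 0 := h0.symm
    simp [this, h0']
  · have hApos : 0 < A := hApos
    have hBpos : 0 < B := by
      rcases (expect_nonneg' hb).eq_or_lt with h0 | h
      · exfalso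
        have h0' : ∀ i, b i = 0 := eq_zero_of_expect_eq_zero hb h0.symm
        have : A = 0 := by
          rw [hA]
          simp [fun i => hab i (h0' i)]
        linarith
      · exact h
    have key : ∀ i, (a i * (Real.log A - Real.log B) + (a i - b i * (A / B))) ≤
        a i * Real.log (a i) - a i * Real.log (b i) := by
      intro i
      rcases (hb i).eq_or_lt with hbi | hbi
      · have hai := hab i hbi.symm
        simp [hai, ← hbi]
      · have h := tangent (ha i) (y := b i * (A / B)) (by positivity)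
        rw [Real.log_mul hbi.ne' (by positivity), Real.log_div hApos.ne' hBpos.ne'] at h
        nlinarith
    have hsum := expect_mono key
    rw [Finset.expect_add_distrib, Finset.expect_sub_distrib, ← Finset.expect_mul,
      ← Finset.expect_mul, ← hA, ← hB] at hsum
    have : A - B * (A / B) = 0 := by field_simp; ring
    rw [this] at hsum
    linarith

/-- `Ent` is convex. -/
theorem Ent_expect_le [Nonempty ι] [Nonempty κ] (ψ : κ → ι → ℝ) (h : ∀ w i, 0 ≤ ψ w i) :
    Ent (fun i => 𝔼 w, ψ w i) ≤ 𝔼 w, Ent (ψ w) := by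
  have h1 : ∀ i, (𝔼 w, ψ w i) * Real.log (𝔼 w, ψ w i)
      - (𝔼 w, ψ w i) * Real.log (𝔼 w, 𝔼 j, ψ w j) ≤
      𝔼 w, (ψ w i * Real.log (ψ w i) - ψ w i * Real.log (𝔼 j, ψ w j)) := by
    intro i
    apply logsum (fun w => ψ w i) (fun w => 𝔼 j, ψ w j) (fun w => h w i)
      (fun w => expect_nonneg' (h w))
    intro w hw
    exact eq_zero_of_expect_eq_zero (h w) hw i
  have h2 := expect_mono h1
  have e1 : (𝔼 i, ((𝔼 w, ψ w i) * Real.log (𝔼 w, ψ w i)
      - (𝔼 w, ψ w i) * Real.log (𝔼 w, 𝔼 j, ψ w j))) = Ent (fun i => 𝔼 w, ψ w i) := by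
    unfold Ent
    rw [Finset.expect_sub_distrib, ← Finset.expect_mul, expect_comm' (fun i w => ψ w i)]
  have e2 : (𝔼 i, 𝔼 w, (ψ w i * Real.log (ψ w i) - ψ w i * Real.log (𝔼 j, ψ w j)))
      = 𝔼 w, Ent (ψ w) := by
    rw [expect_comm' (fun i w => (ψ w i * Real.log (ψ w i) - ψ w i * Real.log (𝔼 j, ψ w j)))]
    apply Finset.expect_congr rfl
    intro w _
    unfold Ent
    rw [Finset.expect_sub_distrib, ← Finset.expect_mul]
  rw [e1, e2] at h2
  exact h2

theorem Ent_nonneg [Nonempty ι] (f : ι → ℝ) (h : ∀ i, 0 ≤ f i) : 0 ≤ Ent f := by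
  have := logsum f (fun _ => 1) h (fun _ => zero_le_one) (by intro i hi; norm_num at hi)
  simp only [Real.log_one, mul_zero, sub_zero, Fintype.expect_const] at this
  unfold Ent
  linarith

/-- Scaling. -/
theorem Ent_mul (f : ι → ℝ) (c : ℝ) (hc : 0 < c) (hf : ∀ i, 0 ≤ f i) [Nonempty ι] :
    Ent (fun i => c * f i) = c * Ent f := by
  unfold Ent
  have h1 : ∀ i, c * f i * Real.log (c * f i) = (c * Real.log c) * f i
      + c * (f i * Real.log (f i)) := by
    intro i
    rcases (hf i).eq_or_lt with h | h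
    · simp [← h]
    · rw [Real.log_mul hc.ne' h.ne']; ring
  have h2 : (𝔼 i, c * f i) = c * 𝔼 i, f i := by rw [Finset.mul_expect]
  have h3 : (𝔼 i, c * f i * Real.log (c * f i)) = (c * Real.log c) * (𝔼 i, f i)
      + c * (𝔼 i, f i * Real.log (f i)) := by
    rw [Finset.expect_congr rfl (fun i _ => h1 i), Finset.expect_add_distrib, Finset.mul_expect,
      Finset.mul_expect]
  rw [h2, h3]
  rcases (expect_nonneg' hf).eq_or_lt with h | h
  · simp [← h]
  · rw [Real.log_mul hc.ne' h.ne']; ring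

end basic

section pi

variable {ι X : Type*} [Fintype ι] [DecidableEq ι] [Fintype X] [Nonempty X]

/-- Overwriting one coordinate by an independent one does not change the average. -/
theorem expect_update (g : ι) (Φ : (ι → X) → ℝ) :
    (𝔼 x : ι → X, 𝔼 z : X, Φ (Function.update x g z)) = 𝔼 x : ι → X, Φ x := by
  classical
  let e := Equiv.funSplitAt g X
  have h1 : ∀ x : ι → X, ∀ z : X, Function.update x g z = e.symm (z, (e x).2) := by
    intro x z
    apply e.injective
    rw [Equiv.apply_symm_apply]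
    ext1
    · simp [e]
    · funext j
      simp [e, j.2]
  have h2 : (𝔼 x : ι → X, 𝔼 z : X, Φ (Function.update x g z))
      = 𝔼 p : X × ({j // j ≠ g} → X), 𝔼 z : X, Φ (e.symm (z, p.2)) := by
    rw [← expect_equiv' e]
    apply Finset.expect_congr rfl
    intro x _
    apply Finset.expect_congr rfl
    intro z _
    rw [h1]
  have h3 : (𝔼 x : ι → X, Φ x) = 𝔼 p : X × ({j // j ≠ g} → X), Φ (e.symm p) := by
    rw [← expect_equiv' e]
    apply Finset.expect_congr rfl
    intro x _
    rw [Equiv.symm_apply_apply]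
  rw [h2, h3]
  have h4 : ∀ Ψ : X × ({j // j ≠ g} → X) → ℝ, (𝔼 p, Ψ p) = 𝔼 a, 𝔼 b, Ψ (a, b) := by
    intro Ψ
    have := Finset.expect_product (Finset.univ : Finset X)
      (Finset.univ : Finset ({j // j ≠ g} → X)) Ψ
    rw [Finset.univ_product_univ] at this
    exact this
  rw [h4, h4]
  rw [expect_comm' (fun (z : X) (b : {j // j ≠ g} → X) => Φ (e.symm (z, b)))]
  simp only [Fintype.expect_const]

end pi

end Pool.Agent.H76.SIJ
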