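import Pool.Agent.H76.SIJ.GhdMain
import Pool.Agent.H76.SIJ.Ent

/-!
The Gap-Hamming type anti-concentration lemma.
-/

open Finset
open scoped BigOperators

namespace Pool.Agent.H76.SIJ

/-- Anti-concentration with an arbitrary probability `p`; the guess `o` may depend on `v`. -/
theorem ghd_lemma_general (p : ℝ) (hp : 0 < p) (hp1 : p ≤ 1) :
    ∃ η c : ℝ, 0 < η ∧ 0 < c ∧ ∃ k0 : ℕ, ∀ k : ℕ, k0 ≤ k →
    ∀ f g : (Fin k → Bool) → ℝ, (∀ u, 0 ≤ f u) → (∀ v, 0 ≤ g v) →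
      (𝔼 u, f u) = 1 → (𝔼 v, g v) = 1 → Ent f ≤ η * k → Ent g ≤ η * k →
      ∀ o : (Fin k → Bool) → ℝ,
      (𝔼 u, 𝔼 v, f u * g v *
        (if |(∑ i, (if (u i && v i) then (1:ℝ) else 0)) - o v| ≤ c * Real.sqrt k
          then (1:ℝ) else 0)) ≤ p := by
  obtain ⟨η, c, h1, h2, k0, h⟩ := Ghd.ghd_general p hp hp1
  refine ⟨η, c, h1, h2, k0, fun k hk f g hf hg hf1 hg1 hEf hEg o => ?_⟩
  unfold Ent at hEf hEg
  rw [hf1, Real.log_one, mul_zero, sub_zero] at hEf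
  rw [hg1, Real.log_one, mul_zero, sub_zero] at hEg
  exact h k hk f g hf hg hf1 hg1 hEf hEg o

end Pool.Agent.H76.SIJ
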