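import Pool.Agent.H76.SIJ.Defs2

/-!
Deterministic protocols partition the inputs into rectangles; Yao averaging.
-/

open Finset
open scoped BigOperators

namespace Pool.Agent.H76.SIJ

theorem exists_rect {X Y R : Type} (p : Protocol X Y R) :
    ∃ (L : Type) (_ : Fintype L) (F : L → X → ℝ) (G : L → Y → ℝ) (o : L → R),
      Fintype.card L ≤ 2 ^ p.cost ∧ (∀ l x, F l x = 0 ∨ F l x = 1) ∧
      (∀ l y, G l y = 0 ∨ G l y = 1) ∧
      ∀ (h : R → ℝ) (x : X) (y : Y), ∑ l, F l x * G l y * h (o l) = h (p.run x y) := by
  induction p with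
  | output r =>
    refine ⟨Unit, inferInstance, fun _ _ => 1, fun _ _ => 1, fun _ => r, ?_, ?_, ?_, ?_⟩
    · simp [Protocol.cost]
    · intro l x; right; rfl
    · intro l x; right; rfl
    · intro h x y
      simp [Protocol.run]
  | alice f p0 p1 ih0 ih1 =>
    obtain ⟨L0, i0, F0, G0, o0, hc0, hF0, hG0, hr0⟩ := ih0
    obtain ⟨L1, i1, F1, G1, o1, hc1, hF1, hG1, hr1⟩ := ih1
    refine ⟨L0 ⊕ L1, inferInstance,
      fun l x => Sum.elim (fun l0 => if f x then 0 else F0 l0 x)
        (fun l1 => if f x then F1 l1 x else 0) l,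
      fun l y => Sum.elim (fun l0 => G0 l0 y) (fun l1 => G1 l1 y) l,
      fun l => Sum.elim o0 o1 l, ?_, ?_, ?_, ?_⟩
    · rw [Fintype.card_sum]
      simp only [Protocol.cost]
      rw [pow_succ]
      have h0 : 2 ^ p0.cost ≤ 2 ^ max p0.cost p1.cost :=
        Nat.pow_le_pow_right (by norm_num) (le_max_left _ _)
      have h1 : 2 ^ p1.cost ≤ 2 ^ max p0.cost p1.cost :=
        Nat.pow_le_pow_right (by norm_num) (le_max_right _ _)
      omega
    · rintro (l | l) x
      · by_cases hx : f x = true
        · left; simp [hx]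
        · simpa [hx] using hF0 l x
      · by_cases hx : f x = true
        · simpa [hx] using hF1 l x
        · left; simp [hx]
    · rintro (l | l) y
      · simpa using hG0 l y
      · simpa using hG1 l y
    · intro h x y
      rw [Fintype.sum_sum_type]
      simp only [Sum.elim_inl, Sum.elim_inr]
      by_cases hx : f x = true
      · simp only [hx, if_true, Protocol.run]
        rw [← hr1 h x y]
        simp
      · have hx' : f x = false := by simpa using hx
        simp only [hx', Bool.false_eq_true, if_false, Protocol.run]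
        rw [← hr0 h x y]
        simp
  | bob f p0 p1 ih0 ih1 =>
    obtain ⟨L0, i0, F0, G0, o0, hc0, hF0, hG0, hr0⟩ := ih0
    obtain ⟨L1, i1, F1, G1, o1, hc1, hF1, hG1, hr1⟩ := ih1
    refine ⟨L0 ⊕ L1, inferInstance,
      fun l x => Sum.elim (fun l0 => F0 l0 x) (fun l1 => F1 l1 x) l,
      fun l y => Sum.elim (fun l0 => if f y then 0 else G0 l0 y)
        (fun l1 => if f y then G1 l1 y else 0) l,
      fun l => Sum.elim o0 o1 l, ?_, ?_, ?_, ?_⟩
    · rw [Fintype.card_sum]
      simp only [Protocol.cost]
      rw [pow_succ]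
      have h0 : 2 ^ p0.cost ≤ 2 ^ max p0.cost p1.cost :=
        Nat.pow_le_pow_right (by norm_num) (le_max_left _ _)
      have h1 : 2 ^ p1.cost ≤ 2 ^ max p0.cost p1.cost :=
        Nat.pow_le_pow_right (by norm_num) (le_max_right _ _)
      omega
    · rintro (l | l) x
      · simpa using hF0 l x
      · simpa using hF1 l x
    · rintro (l | l) y
      · by_cases hy : f y = true
        · left; simp [hy]
        · simpa [hy] using hG0 l y
      · by_cases hy : f y = true
        · simpa [hy] using hG1 l y
        · left; simp [hy]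
    · intro h x y
      rw [Fintype.sum_sum_type]
      simp only [Sum.elim_inl, Sum.elim_inr]
      by_cases hy : f y = true
      · simp only [hy, if_true, Protocol.run]
        rw [← hr1 h x y]
        simp
      · have hy' : f y = false := by simpa using hy
        simp only [hy', Bool.false_eq_true, if_false, Protocol.run]
        rw [← hr0 h x y]
        simp

open Classical in
/-- Yao averaging. -/
theorem yao {Z Ω : Type} [Fintype Ω] [Nonempty Ω] (P : PMF Z) (good : Ω → Set Z) (δ θ : ℝ)
    (hθ : 0 ≤ θ) (h : ∀ ω, ENNReal.ofReal (1 - δ) ≤ P.toOuterMeasure (good ω))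
    (hw : ∀ z ∈ P.support, (𝔼 ω, (if z ∈ good ω then (1 : ℝ) else 0)) ≤ θ) : 1 - δ ≤ θ := by
  have hc : (0 : ℝ) < Fintype.card Ω := by exact_mod_cast Fintype.card_pos
  have h1 : ∑ ω : Ω, ENNReal.ofReal (1 - δ) ≤ ∑ ω : Ω, P.toOuterMeasure (good ω) :=
    Finset.sum_le_sum fun ω _ => h ω
  have h2 : ∑ ω : Ω, P.toOuterMeasure (good ω) ≤ ENNReal.ofReal (Fintype.card Ω * θ) := by
    calc ∑ ω : Ω, P.toOuterMeasure (good ω)
        = ∑ ω : Ω, ∑' z, (good ω).indicator P z := by
          simp only [PMF.toOuterMeasure_apply]
      _ = ∑' z, ∑ ω : Ω, (good ω).indicator P z := by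
          rw [Summable.tsum_finsetSum]
          intro i _
          exact ENNReal.summable
      _ ≤ ∑' z, P z * ENNReal.ofReal (Fintype.card Ω * θ) := by
          apply ENNReal.tsum_le_tsum
          intro z
          have e1 : ∑ ω : Ω, (good ω).indicator P z
              = P z * ((Finset.univ.filter fun ω => z ∈ good ω).card : ENNReal) := by
            simp only [Set.indicator_apply]
            rw [← Finset.sum_filter, Finset.sum_const, nsmul_eq_mul, mul_comm]
          rw [e1]
          by_cases hz : z ∈ P.support
          · apply mul_le_mul_right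
            have h3 := hw z hz
            rw [Fintype.expect_eq_sum_div_card, Finset.sum_boole, div_le_iff₀ hc] at h3
            have h4 : (((Finset.univ.filter fun ω => z ∈ good ω).card : ℕ) : ENNReal)
                = ENNReal.ofReal (((Finset.univ.filter fun ω => z ∈ good ω).card : ℕ) : ℝ) := by
              rw [ENNReal.ofReal_natCast]
            rw [h4]
            apply ENNReal.ofReal_le_ofReal
            linarith
          · have : P z = 0 := by
              rwa [PMF.mem_support_iff, not_not] at hz
            simp [this]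
      _ = ENNReal.ofReal (Fintype.card Ω * θ) := by
          rw [ENNReal.tsum_mul_right, P.tsum_coe, one_mul]
  have h3 := h1.trans h2
  rw [Finset.sum_const, Finset.card_univ, nsmul_eq_mul] at h3
  rw [← ENNReal.ofReal_natCast, ← ENNReal.ofReal_mul (by positivity)] at h3
  rw [ENNReal.ofReal_le_ofReal_iff (by positivity)] at h3
  exact le_of_mul_le_mul_left h3 hc

end Pool.Agent.H76.SIJ
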