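import Pool.Agent.H76.SIJ.Comb
import Pool.Agent.H76.SIJ.Rect
import Pool.Agent.H76.SIJ.Ghd

/-!
The lower bound for the block problem.
-/

open Finset
open scoped BigOperators

namespace Pool.Agent.H76.SIJ

/-- Alice's content of the positions of a block. -/
def aval {h : ℕ} (z : Option (Fin h) → Bool) : Pos h → Bool
  | none => z none
  | some (Sum.inl i) => z (some i)
  | some (Sum.inr _) => false

/-- Bob's content of the positions of a block. -/
def bval {h : ℕ} (z : Option (Fin h) → Bool) : Pos h → Bool
  | none => z none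
  | some (Sum.inl _) => false
  | some (Sum.inr i) => z (some i)

/-- The transposition of the planted position and a position of Alice. -/
def tauA {h : ℕ} (i : Option (Fin h)) : Equiv.Perm (Pos h) := Equiv.swap none (i.map Sum.inl)

/-- The transposition of the planted position and a position of Bob. -/
def tauB {h : ℕ} (i : Option (Fin h)) : Equiv.Perm (Pos h) := Equiv.swap none (i.map Sum.inr)

theorem aval_tauA {h : ℕ} (z : Option (Fin h) → Bool) (i : Option (Fin h)) (q : Pos h) :
    aval z (tauA i q) = aval (fun r => z (Equiv.swap none i r)) q := by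
  unfold tauA
  rcases i with _ | i
  · simp
  · rcases q with _ | (j | j)
    · simp [aval]
    · by_cases hj : j = i
      · subst hj; simp [aval]
      · rw [Equiv.swap_apply_of_ne_of_ne (by simp) (by simpa using hj)]
        simp only [aval]
        rw [Equiv.swap_apply_of_ne_of_ne (by simp) (by simpa using hj)]
    · rw [Equiv.swap_apply_of_ne_of_ne (by simp) (by simp)]
      simp [aval]

theorem bval_tauB {h : ℕ} (z : Option (Fin h) → Bool) (i : Option (Fin h)) (q : Pos h) :
    bval z (tauB i q) = bval (fun r => z (Equiv.swap none i r)) q := by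
  unfold tauB
  rcases i with _ | i
  · simp
  · rcases q with _ | (j | j)
    · simp [bval]
    · rw [Equiv.swap_apply_of_ne_of_ne (by simp) (by simp)]
      simp [bval]
    · by_cases hj : j = i
      · subst hj; simp [bval]
      · rw [Equiv.swap_apply_of_ne_of_ne (by simp) (by simpa using hj)]
        simp only [bval]
        rw [Equiv.swap_apply_of_ne_of_ne (by simp) (by simpa using hj)]

theorem bval_tauA {h : ℕ} (z : Option (Fin h) → Bool) (hz : z none = false)
    (i : Option (Fin h)) (q : Pos h) : bval z (tauA i q) = bval z q := by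
  unfold tauA
  rcases i with _ | i
  · simp
  · rcases q with _ | (j | j)
    · simp [bval, hz]
    · by_cases hj : j = i
      · subst hj; simp [bval, hz]
      · rw [Equiv.swap_apply_of_ne_of_ne (by simp) (by simpa using hj)]
    · rw [Equiv.swap_apply_of_ne_of_ne (by simp) (by simp)]

theorem aval_tauB {h : ℕ} (z : Option (Fin h) → Bool) (hz : z none = false)
    (i : Option (Fin h)) (q : Pos h) : aval z (tauB i q) = aval z q := by
  unfold tauB
  rcases i with _ | i
  · simp
  · rcases q with _ | (j | j)
    · simp [aval, hz]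
    · rw [Equiv.swap_apply_of_ne_of_ne (by simp) (by simp)]
    · by_cases hj : j = i
      · subst hj; simp [aval, hz]
      · rw [Equiv.swap_apply_of_ne_of_ne (by simp) (by simpa using hj)]

section blocks

variable {k h : ℕ}

/-- Alice's input. -/
def aliceIn (s : Fin k → Equiv.Perm (Pos h)) (x : Fin k → Option (Fin h) → Bool) : Blk k h :=
  fun g q => aval (x g) ((s g).symm q)

/-- Bob's input. -/
def bobIn (s : Fin k → Equiv.Perm (Pos h)) (y : Fin k → Option (Fin h) → Bool) : Blk k h :=
  fun g q => bval (y g) ((s g).symm q)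

/-- Multiplication of the permutation of the block `g` by `τ`. -/
def mulAt (g : Fin k) (τ : Equiv.Perm (Pos h)) : Equiv.Perm (Fin k → Equiv.Perm (Pos h)) where
  toFun s := Function.update s g (s g * τ)
  invFun s := Function.update s g (s g * τ⁻¹)
  left_inv s := by simp
  right_inv s := by simp

theorem mulAt_apply (g : Fin k) (τ : Equiv.Perm (Pos h)) (s : Fin k → Equiv.Perm (Pos h)) :
    mulAt g τ s = Function.update s g (s g * τ) := rfl

theorem mul_symm_apply (a b : Equiv.Perm (Pos h)) (q : Pos h) :
    (a * b).symm q = b.symm (a.symm q) := rfl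

theorem aliceIn_mulAt_A (g : Fin k) (i : Option (Fin h)) (s : Fin k → Equiv.Perm (Pos h))
    (x : Fin k → Option (Fin h) → Bool) :
    aliceIn (mulAt g (tauA i) s) x =
      aliceIn s (Function.update x g (fun q => x g (Equiv.swap none i q))) := by
  funext g' q
  unfold aliceIn
  rw [mulAt_apply]
  by_cases hg : g' = g
  · subst hg
    rw [Function.update_self, Function.update_self, mul_symm_apply]
    have : (tauA i).symm = (tauA i : Equiv.Perm (Pos h)) := by
      unfold tauA; exact Equiv.symm_swap _ _
    rw [this, aval_tauA]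
  · rw [Function.update_of_ne hg, Function.update_of_ne hg]

theorem bobIn_mulAt_B (g : Fin k) (i : Option (Fin h)) (s : Fin k → Equiv.Perm (Pos h))
    (x : Fin k → Option (Fin h) → Bool) :
    bobIn (mulAt g (tauB i) s) x =
      bobIn s (Function.update x g (fun q => x g (Equiv.swap none i q))) := by
  funext g' q
  unfold bobIn
  rw [mulAt_apply]
  by_cases hg : g' = g
  · subst hg
    rw [Function.update_self, Function.update_self, mul_symm_apply]
    have : (tauB i).symm = (tauB i : Equiv.Perm (Pos h)) := by
      unfold tauB; exact Equiv.symm_swap _ _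
    rw [this, bval_tauB]
  · rw [Function.update_of_ne hg, Function.update_of_ne hg]

theorem bobIn_mulAt_A (g : Fin k) (i : Option (Fin h)) (s : Fin k → Equiv.Perm (Pos h))
    (y : Fin k → Option (Fin h) → Bool) (hy : y g none = false) :
    bobIn (mulAt g (tauA i) s) y = bobIn s y := by
  funext g' q
  unfold bobIn
  rw [mulAt_apply]
  by_cases hg : g' = g
  · subst hg
    rw [Function.update_self, mul_symm_apply]
    have : (tauA i).symm = (tauA i : Equiv.Perm (Pos h)) := by
      unfold tauA; exact Equiv.symm_swap _ _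
    rw [this, bval_tauA _ hy]
  · rw [Function.update_of_ne hg]

theorem aliceIn_mulAt_B (g : Fin k) (i : Option (Fin h)) (s : Fin k → Equiv.Perm (Pos h))
    (x : Fin k → Option (Fin h) → Bool) (hx : x g none = false) :
    aliceIn (mulAt g (tauB i) s) x = aliceIn s x := by
  funext g' q
  unfold aliceIn
  rw [mulAt_apply]
  by_cases hg : g' = g
  · subst hg
    rw [Function.update_self, mul_symm_apply]
    have : (tauB i).symm = (tauB i : Equiv.Perm (Pos h)) := by
      unfold tauB; exact Equiv.symm_swap _ _
    rw [this, aval_tauB _ hx]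
  · rw [Function.update_of_ne hg]

theorem inter_iff (z w : Option (Fin h) → Bool) (σ : Equiv.Perm (Pos h)) :
    (∃ q : Pos h, aval z (σ.symm q) = true ∧ bval w (σ.symm q) = true) ↔
      (z none = true ∧ w none = true) := by
  constructor
  · rintro ⟨q, h1, h2⟩
    rcases hq : σ.symm q with _ | (j | j)
    · rw [hq] at h1 h2
      exact ⟨h1, h2⟩
    · rw [hq] at h2
      simp [bval] at h2
    · rw [hq] at h1
      simp [aval] at h1
  · rintro ⟨h1, h2⟩
    refine ⟨σ none, ?_, ?_⟩
    · rw [Equiv.symm_apply_apply]; exact h1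
    · rw [Equiv.symm_apply_apply]; exact h2

theorem intCount_eq (s : Fin k → Equiv.Perm (Pos h)) (x y : Fin k → Option (Fin h) → Bool) :
    (intCount (aliceIn s x) (bobIn s y) : ℝ)
      = ∑ i, (if (x i none && y i none) then (1:ℝ) else 0) := by
  unfold intCount
  rw [Finset.sum_boole]
  congr 2
  ext g
  rw [Finset.mem_filter, Finset.mem_filter, Bool.and_eq_true]
  exact and_congr_right fun _ => inter_iff (x g) (y g) (s g)

/-- Averages against functions of the planted bits. -/
theorem expect_planted (F : (Fin k → Option (Fin h) → Bool) → ℝ) (Θ : (Fin k → Bool) → ℝ) :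
    (𝔼 x, F x * Θ (fun g => x g none)) = 𝔼 u, FU none F u * Θ u := by
  rw [← expect_plant' (none : Option (Fin h)) (fun x => F x * Θ (fun g => x g none))]
  apply Finset.expect_congr rfl
  intro u _
  unfold FU
  rw [Finset.expect_mul]
  apply Finset.expect_congr rfl
  intro x _
  have : (fun g => plant (none : Option (Fin h)) x u g none) = u := by
    funext g
    simp [plant]
  rw [this]

end blocks

/-- Combination of the entropy bounds with the anti-concentration lemma: one rectangle. -/
theorem one_rect {k : ℕ} (hk : 0 < k) {η c p : ℝ} (hη : 0 < η) (hp : 0 ≤ p)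
    (H : ∀ f g : (Fin k → Bool) → ℝ, (∀ u, 0 ≤ f u) → (∀ v, 0 ≤ g v) →
      (𝔼 u, f u) = 1 → (𝔼 v, g v) = 1 → Ent f ≤ η * k → Ent g ≤ η * k →
      ∀ o : (Fin k → Bool) → ℝ,
      (𝔼 u, 𝔼 v, f u * g v *
        (if |(∑ i, (if (u i && v i) then (1:ℝ) else 0)) - o v| ≤ c * Real.sqrt k
          then (1:ℝ) else 0)) ≤ p)
    (f g : (Fin k → Bool) → ℝ) (hf : ∀ u, 0 ≤ f u) (hg : ∀ v, 0 ≤ g v)
    (o : (Fin k → Bool) → ℝ) :
    (𝔼 u, 𝔼 v, f u * g v *
        (if |(∑ i, (if (u i && v i) then (1:ℝ) else 0)) - o v| ≤ c * Real.sqrt k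
          then (1:ℝ) else 0))
      ≤ p * ((𝔼 u, f u) * (𝔼 v, g v)) +
        ((𝔼 v, g v) * Ent f + (𝔼 u, f u) * Ent g) / (η * k) := by
  have hk' : (0 : ℝ) < k := by exact_mod_cast hk
  have hηk : 0 < η * k := by positivity
  set a := 𝔼 u, f u with ha
  set b := 𝔼 v, g v with hb
  have hEf := Ent_nonneg f hf
  have hEg := Ent_nonneg g hg
  have ha0 : 0 ≤ a := expect_nonneg' hf
  have hb0 : 0 ≤ b := expect_nonneg' hg
  have hRHS : 0 ≤ p * (a * b) + (b * Ent f + a * Ent g) / (η * k) := by positivity
  rcases ha0.eq_or_lt with h | hapos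
  · have hz := eq_zero_of_expect_eq_zero hf (show (𝔼 u, f u) = 0 from h.symm)
    have : (𝔼 u, 𝔼 v, f u * g v *
        (if |(∑ i, (if (u i && v i) then (1:ℝ) else 0)) - o v| ≤ c * Real.sqrt k
          then (1:ℝ) else 0)) = 0 := by
      simp [hz]
    rw [this]
    exact hRHS
  rcases hb0.eq_or_lt with h | hbpos
  · have hz := eq_zero_of_expect_eq_zero hg (show (𝔼 u, g u) = 0 from h.symm)
    have : (𝔼 u, 𝔼 v, f u * g v *
        (if |(∑ i, (if (u i && v i) then (1:ℝ) else 0)) - o v| ≤ c * Real.sqrt k
          then (1:ℝ) else 0)) = 0 := by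
      simp [hz]
    rw [this]
    exact hRHS
  -- trivial bound
  have htriv : (𝔼 u, 𝔼 v, f u * g v *
        (if |(∑ i, (if (u i && v i) then (1:ℝ) else 0)) - o v| ≤ c * Real.sqrt k
          then (1:ℝ) else 0)) ≤ a * b := by
    rw [ha, Finset.expect_mul]
    apply expect_mono
    intro u
    rw [hb, Finset.mul_expect]
    apply expect_mono
    intro v
    have h0 : 0 ≤ f u * g v := mul_nonneg (hf u) (hg v)
    split_ifs <;> linarith
  by_cases h1 : Ent f ≤ a * (η * k)
  · by_cases h2 : Ent g ≤ b * (η * k)
    · have hH := H (fun u => a⁻¹ * f u) (fun v => b⁻¹ * g v)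
        (fun u => mul_nonneg (by positivity) (hf u)) (fun v => mul_nonneg (by positivity) (hg v))
        (by rw [← Finset.mul_expect, ← ha]; field_simp)
        (by rw [← Finset.mul_expect, ← hb]; field_simp)
        (by
          rw [Ent_mul f a⁻¹ (by positivity) hf]
          rw [inv_mul_le_iff₀ hapos]
          exact h1)
        (by
          rw [Ent_mul g b⁻¹ (by positivity) hg]
          rw [inv_mul_le_iff₀ hbpos]
          exact h2) o
      have e : (𝔼 u, 𝔼 v, (a⁻¹ * f u) * (b⁻¹ * g v) *
        (if |(∑ i, (if (u i && v i) then (1:ℝ) else 0)) - o v| ≤ c * Real.sqrt k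
          then (1:ℝ) else 0)) = (a * b)⁻¹ * (𝔼 u, 𝔼 v, f u * g v *
        (if |(∑ i, (if (u i && v i) then (1:ℝ) else 0)) - o v| ≤ c * Real.sqrt k
          then (1:ℝ) else 0)) := by
        rw [Finset.mul_expect]
        apply Finset.expect_congr rfl
        intro u _
        rw [Finset.mul_expect]
        apply Finset.expect_congr rfl
        intro v _
        rw [mul_inv]
        ring
      rw [e, inv_mul_le_iff₀ (by positivity)] at hH
      have h3 : 0 ≤ (b * Ent f + a * Ent g) / (η * k) := by positivity
      linarith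
    · push Not at h2
      have h3 : a * b ≤ (b * Ent f + a * Ent g) / (η * k) := by
        rw [le_div_iff₀ hηk]
        have : a * (b * (η * k)) ≤ a * Ent g := mul_le_mul_of_nonneg_left h2.le ha0
        have h4 : 0 ≤ b * Ent f := by positivity
        nlinarith
      have h5 : 0 ≤ p * (a * b) := by positivity
      linarith
  · push Not at h1
    have h3 : a * b ≤ (b * Ent f + a * Ent g) / (η * k) := by
      rw [le_div_iff₀ hηk]
      have : b * (a * (η * k)) ≤ b * Ent f := mul_le_mul_of_nonneg_left h1.le hb0
      have h4 : 0 ≤ a * Ent g := by positivity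
      nlinarith
    have h5 : 0 ≤ p * (a * b) := by positivity
    linarith

/-- Distributional lower bound for deterministic protocols. -/
theorem core_det (p : ℝ) (hp : 0 < p) (hp1 : p ≤ 1) :
    ∃ c0 c1 : ℝ, 0 < c0 ∧ 0 < c1 ∧ ∃ k0 : ℕ, ∀ k : ℕ, k0 ≤ k → ∀ h : ℕ,
      ∀ pr : Protocol (Blk k h) (Blk k h) (Blk k h → ℝ), (pr.cost : ℝ) < c0 * k * (h + 1) →
      (𝔼 s : Fin k → Equiv.Perm (Pos h), 𝔼 x : Fin k → Option (Fin h) → Bool,
        𝔼 y : Fin k → Option (Fin h) → Bool,
        (if |pr.run (aliceIn s x) (bobIn s y) (bobIn s y) -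
            (intCount (aliceIn s x) (bobIn s y) : ℝ)|
          ≤ c1 * Real.sqrt k then (1:ℝ) else 0)) ≤ 2 * p := by
  obtain ⟨η, c, hη, hc, k0, H⟩ := ghd_lemma_general p hp hp1
  set t : ℝ := η * p / 4 with ht
  have htpos : 0 < t := by positivity
  refine ⟨t ^ 2 / 8, c, by positivity, hc, max k0 1, ?_⟩
  intro k hk h pr hcost
  have hk0 : k0 ≤ k := le_trans (le_max_left _ _) hk
  have hk1 : 0 < k := lt_of_lt_of_le Nat.one_pos (le_trans (le_max_right _ _) hk)
  have hk' : (0 : ℝ) < k := by exact_mod_cast hk1
  obtain ⟨L, iL, FA, GB, o, hcard, hFA, hGB, hrun⟩ := exists_rect pr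
  set F : L → (Fin k → Equiv.Perm (Pos h)) → (Fin k → Option (Fin h) → Bool) → ℝ :=
    fun l s x => FA l (aliceIn s x) with hFdef
  set G : L → (Fin k → Equiv.Perm (Pos h)) → (Fin k → Option (Fin h) → Bool) → ℝ :=
    fun l s y => GB l (bobIn s y) with hGdef
  have hF : ∀ l s x, F l s x = 0 ∨ F l s x = 1 := fun l s x => hFA l _
  have hG : ∀ l s x, G l s x = 0 ∨ G l s x = 1 := fun l s x => hGB l _
  have hF0 : ∀ l s x, 0 ≤ F l s x := fun l s x => by rcases hF l s x with h | h <;> simp [h]
  have hG0 : ∀ l s x, 0 ≤ G l s x := fun l s x => by rcases hG l s x with h | h <;> simp [h]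
  have hFG : ∀ s x y, ∑ l, F l s x * G l s y = 1 := by
    intro s x y
    have := hrun (fun _ => 1) (aliceIn s x) (bobIn s y)
    simpa using this
  have hGF : ∀ s x y, ∑ l, G l s x * F l s y = 1 := by
    intro s x y
    rw [← hFG s y x]
    apply Finset.sum_congr rfl
    intro l _
    ring
  have hTF : ∀ g i l s x, F l (mulAt g (tauA i) s) x =
      F l s (Function.update x g (fun q => x g (Equiv.swap none i q))) := by
    intro g i l s x
    simp only [hFdef]
    rw [aliceIn_mulAt_A]
  have hTG : ∀ g i l s y, y g none = false → G l (mulAt g (tauA i) s) y = G l s y := by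
    intro g i l s y hy
    simp only [hGdef]
    rw [bobIn_mulAt_A g i s y hy]
  have hTG' : ∀ g i l s x, G l (mulAt g (tauB i) s) x =
      G l s (Function.update x g (fun q => x g (Equiv.swap none i q))) := by
    intro g i l s x
    simp only [hGdef]
    rw [bobIn_mulAt_B]
  have hTF' : ∀ g i l s y, y g none = false → F l (mulAt g (tauB i) s) y = F l s y := by
    intro g i l s y hy
    simp only [hFdef]
    rw [aliceIn_mulAt_B g i s y hy]
  have hcardP : (Fintype.card (Option (Fin h)) : ℝ) = h + 1 := by simp
  have hLlog : Real.log (Fintype.card L) ≤ pr.cost * Real.log 2 := by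
    rw [← Real.log_pow]
    have hLne : Nonempty L := by
      by_contra hne
      rw [not_nonempty_iff] at hne
      have := hFG (fun _ => 1) (fun _ _ => false) (fun _ _ => false)
      simp at this
    apply Real.log_le_log
    · exact_mod_cast Fintype.card_pos
    · exact_mod_cast hcard
  have hL : 8 * Real.log (Fintype.card L) / Fintype.card (Option (Fin h)) ≤ k * t ^ 2 := by
    rw [hcardP, div_le_iff₀ (by positivity)]
    have hlog2 : Real.log 2 ≤ 1 := by
      have := Real.log_two_lt_d9
      linarith
    have hlog2' : 0 < Real.log 2 := Real.log_pos one_lt_two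
    have hc0 : (0 : ℝ) ≤ pr.cost := Nat.cast_nonneg _
    have : Real.log (Fintype.card L) ≤ pr.cost := by nlinarith
    nlinarith
  have hA := comb (none : Option (Fin h)) (fun g i => mulAt g (tauA i))
    (fun g i => mulAt g (tauB i)) F G hF hG hFG hTF hTG hTG' hTF' t htpos hL
  have hB := comb (none : Option (Fin h)) (fun g i => mulAt g (tauB i))
    (fun g i => mulAt g (tauA i)) G F hG hF hGF hTG' hTF' hTF hTG t htpos hL
  set I : ℝ → (Fin k → Bool) → (Fin k → Bool) → ℝ := fun o u v =>
    (if |(∑ i, (if (u i && v i) then (1:ℝ) else 0)) - o| ≤ c * Real.sqrt k then (1:ℝ) else 0)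
    with hI
  -- the best guess of Bob given his planted bits
  have hbest : ∀ (s : Fin k → Equiv.Perm (Pos h)) (l : L), ∃ ob : (Fin k → Bool) → ℝ,
      ∀ (y : Fin k → Option (Fin h) → Bool) (v : Fin k → Bool),
        (𝔼 u, FU none (F l s) u * I (o l (bobIn s y)) u v) ≤
          𝔼 u, FU none (F l s) u * I (ob v) u v := by
    intro s l
    have hmax : ∀ v : Fin k → Bool, ∃ y0 : Fin k → Option (Fin h) → Bool,
        ∀ y : Fin k → Option (Fin h) → Bool,
        (𝔼 u, FU none (F l s) u * I (o l (bobIn s y)) u v) ≤
          𝔼 u, FU none (F l s) u * I (o l (bobIn s y0)) u v := by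
      intro v
      exact Finite.exists_max (fun y : Fin k → Option (Fin h) → Bool =>
        𝔼 u, FU none (F l s) u * I (o l (bobIn s y)) u v)
    choose y0 hy0 using hmax
    exact ⟨fun v => o l (bobIn s (y0 v)), fun y v => hy0 v y⟩
  choose ob hob using hbest
  -- bound the success probability
  have hsucc : ∀ s : Fin k → Equiv.Perm (Pos h),
      (𝔼 x : Fin k → Option (Fin h) → Bool, 𝔼 y : Fin k → Option (Fin h) → Bool,
        (if |pr.run (aliceIn s x) (bobIn s y) (bobIn s y) -
            (intCount (aliceIn s x) (bobIn s y) : ℝ)|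
          ≤ c * Real.sqrt k then (1:ℝ) else 0))
      ≤ ∑ l, 𝔼 u, 𝔼 v, FU none (F l s) u * FU none (G l s) v * I (ob s l v) u v := by
    intro s
    have h1 : ∀ x y : Fin k → Option (Fin h) → Bool,
        (if |pr.run (aliceIn s x) (bobIn s y) (bobIn s y) -
            (intCount (aliceIn s x) (bobIn s y) : ℝ)|
          ≤ c * Real.sqrt k then (1:ℝ) else 0)
        = ∑ l, F l s x * (G l s y *
            I (o l (bobIn s y)) (fun g => x g none) (fun g => y g none)) := by
      intro x y
      have := hrun (fun r => if |r (bobIn s y) - (intCount (aliceIn s x) (bobIn s y) : ℝ)|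
          ≤ c * Real.sqrt k then (1:ℝ) else 0) (aliceIn s x) (bobIn s y)
      rw [← this]
      apply Finset.sum_congr rfl
      intro l _
      simp only [hI, hFdef, hGdef]
      rw [intCount_eq, abs_sub_comm, mul_assoc]
    simp only [h1]
    simp only [expect_sum]
    apply Finset.sum_le_sum
    intro l _
    rw [expect_comm' (fun (x y : Fin k → Option (Fin h) → Bool) => F l s x * (G l s y *
            I (o l (bobIn s y)) (fun g => x g none) (fun g => y g none)))]
    have h2 : ∀ y : Fin k → Option (Fin h) → Bool,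
        (𝔼 x, F l s x * (G l s y *
          I (o l (bobIn s y)) (fun g => x g none) (fun g => y g none)))
        = G l s y * (𝔼 u, FU none (F l s) u *
          I (o l (bobIn s y)) u (fun g => y g none)) := by
      intro y
      rw [← expect_planted (F l s) (fun u => I (o l (bobIn s y)) u (fun g => y g none)),
        Finset.mul_expect]
      apply Finset.expect_congr rfl
      intro x _
      ring
    simp only [h2]
    calc (𝔼 y : Fin k → Option (Fin h) → Bool, G l s y * (𝔼 u, FU none (F l s) u *
          I (o l (bobIn s y)) u (fun g => y g none)))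
        ≤ 𝔼 y : Fin k → Option (Fin h) → Bool, G l s y * (fun v => 𝔼 u, FU none (F l s) u *
          I (ob s l v) u v) (fun g => y g none) := by
          apply expect_mono
          intro y
          exact mul_le_mul_of_nonneg_left (hob s l y (fun g => y g none)) (hG0 l s y)
      _ = 𝔼 v, FU none (G l s) v * (fun v => 𝔼 u, FU none (F l s) u *
          I (ob s l v) u v) v :=
          expect_planted (G l s) (fun v => 𝔼 u, FU none (F l s) u * I (ob s l v) u v)
      _ = 𝔼 u, 𝔼 v, FU none (F l s) u * FU none (G l s) v * I (ob s l v) u v := by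
          rw [expect_comm' (fun (u v : Fin k → Bool) =>
            FU none (F l s) u * FU none (G l s) v * I (ob s l v) u v)]
          apply Finset.expect_congr rfl
          intro v _
          simp only
          rw [Finset.mul_expect]
          apply Finset.expect_congr rfl
          intro u _
          ring
  refine le_trans (expect_mono hsucc) ?_
  calc (𝔼 s, ∑ l, 𝔼 u, 𝔼 v, FU none (F l s) u * FU none (G l s) v * I (ob s l v) u v)
      ≤ 𝔼 s, ∑ l, (p * ((𝔼 x, F l s x) * (𝔼 y, G l s y)) +
        ((𝔼 y, G l s y) * Ent (FU none (F l s)) + (𝔼 x, F l s x) * Ent (FU none (G l s)))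
          / (η * k)) := by
        apply expect_mono
        intro s
        apply Finset.sum_le_sum
        intro l _
        have := one_rect hk1 hη hp.le (H k hk0) (FU none (F l s)) (FU none (G l s))
          (FU_nonneg _ _ (hF0 l s)) (FU_nonneg _ _ (hG0 l s)) (ob s l)
        rw [expect_FU, expect_FU] at this
        exact this
    _ = p * (𝔼 s : Fin k → Equiv.Perm (Pos h), ∑ l, (𝔼 x, F l s x) * (𝔼 y, G l s y)) +
        ((𝔼 s, ∑ l, (𝔼 y, G l s y) * Ent (FU none (F l s))) +
          (𝔼 s, ∑ l, (𝔼 x, F l s x) * Ent (FU none (G l s)))) / (η * k) := by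
        rw [Finset.mul_expect, ← Finset.expect_add_distrib, Finset.expect_div,
          ← Finset.expect_add_distrib]
        apply Finset.expect_congr rfl
        intro s _
        rw [Finset.sum_add_distrib, Finset.mul_sum, ← Finset.sum_div, Finset.sum_add_distrib]
    _ ≤ p * 1 + (2 * Real.log 2 * (k * t) + 2 * Real.log 2 * (k * t)) / (η * k) := by
        have h1 : (𝔼 s : Fin k → Equiv.Perm (Pos h),
            ∑ l, (𝔼 x, F l s x) * (𝔼 y, G l s y)) = 1 := by
          have h2 : ∀ s, ∑ l, (𝔼 x, F l s x) * (𝔼 y, G l s y) = 1 := by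
            intro s
            apply avg_left (fun l x => F l s x) (fun l (_ : Unit) => 𝔼 y, G l s y) ()
            intro x
            apply avg_right (fun l (_ : Unit) => F l s x) (fun l y => G l s y) ()
            intro y
            exact hFG s x y
          simp only [h2, Fintype.expect_const]
        rw [h1]
        have hηk : 0 < η * k := by positivity
        gcongr
    _ ≤ 2 * p := by
        have hlog2 : Real.log 2 ≤ 1 := by
          have := Real.log_two_lt_d9
          linarith
        have h1 : (2 * Real.log 2 * (k * t) + 2 * Real.log 2 * (k * t)) / (η * k)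
            = Real.log 2 * p := by
          rw [ht]
          field_simp
          ring
        rw [h1]
        nlinarith

/-- The lower bound for the block problem, for every error probability below `1`. -/
theorem coreLower (δ : ℝ) (hδ : δ < 1) : CoreLower δ := by
  obtain ⟨c0, c1, hc0, hc1, k0, H⟩ := core_det (min 1 ((1 - δ) / 4))
    (lt_min one_pos (by linarith)) (min_le_left _ _)
  refine ⟨c0, c1, hc0, hc1, k0, ?_⟩
  intro k hk h C P hcost hP
  by_contra hlt
  push Not at hlt
  set Ω := (Fin k → Equiv.Perm (Pos h)) × (Fin k → Option (Fin h) → Bool) ×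
    (Fin k → Option (Fin h) → Bool)
  have hy := yao (Ω := Ω) P
    (fun ω => {p | |p.run (aliceIn ω.1 ω.2.1) (bobIn ω.1 ω.2.2) (bobIn ω.1 ω.2.2) -
      (intCount (aliceIn ω.1 ω.2.1) (bobIn ω.1 ω.2.2) : ℝ)| ≤ c1 * Real.sqrt k}) δ
    (2 * min 1 ((1 - δ) / 4)) (by
      have : 0 < min 1 ((1 - δ) / 4) := lt_min one_pos (by linarith)
      linarith) (fun ω => hP _ _) ?_
  · have h1 : min 1 ((1 - δ) / 4) ≤ (1 - δ) / 4 := min_le_right _ _
    linarith
  · intro pr hpr
    have h1 : (pr.cost : ℝ) < c0 * k * (h + 1) :=
      lt_of_le_of_lt (by exact_mod_cast hcost pr hpr) hlt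
    have h2 := H k hk h pr h1
    refine le_trans (le_of_eq ?_) h2
    rw [expect_prod]
    apply Finset.expect_congr rfl
    intro s _
    rw [expect_prod]
    apply Finset.expect_congr rfl
    intro x _
    apply Finset.expect_congr rfl
    intro y _
    congr

end Pool.Agent.H76.SIJ
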