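import Pool.Agent.H76.SIJ.Info

/-!
Binary inequalities and the cut-and-paste argument.
-/

open Finset
open scoped BigOperators

namespace Pool.Agent.H76.SIJ

theorem hell {x y : ℝ} (hx : 0 ≤ x) (hy : 0 < y) :
    (x - y) + (Real.sqrt x - Real.sqrt y) ^ 2 ≤ x * Real.log x - x * Real.log y := by
  rcases hx.eq_or_lt with rfl | hx
  · simp [Real.sq_sqrt hy.le]
  · have hsx : 0 < Real.sqrt x := Real.sqrt_pos.2 hx
    have hsy : 0 < Real.sqrt y := Real.sqrt_pos.2 hy
    have h := Real.log_le_sub_one_of_pos (x := Real.sqrt y / Real.sqrt x) (by positivity)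
    rw [Real.log_div hsy.ne' hsx.ne', Real.log_sqrt hy.le, Real.log_sqrt hx.le] at h
    have h2 := mul_le_mul_of_nonneg_left h hx.le
    have h3 : x * (Real.sqrt y / Real.sqrt x - 1) = Real.sqrt x * Real.sqrt y - x := by
      have : x = Real.sqrt x * Real.sqrt x := (Real.mul_self_sqrt hx.le).symm
      field_simp
      nlinarith [this]
    rw [h3] at h2
    have e1 : (Real.sqrt x - Real.sqrt y) ^ 2 = x + y - 2 * (Real.sqrt x * Real.sqrt y) := by
      have a1 := Real.sq_sqrt hx.le
      have a2 := Real.sq_sqrt hy.le
      nlinarith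
    rw [e1]
    nlinarith

theorem Ent_bool_lower (f : Bool → ℝ) (hf : ∀ b, 0 ≤ f b) :
    (Real.sqrt (f false) - Real.sqrt (f true)) ^ 2 / 4 ≤ Ent f := by
  unfold Ent
  rw [expect_bool, expect_bool]
  have h0 := hf false
  have h1 := hf true
  set a := f false
  set b := f true
  set m := (b + a) / 2 with hm
  rcases (show 0 ≤ m by positivity).eq_or_lt with h | hmpos
  · have ha : a = 0 := by linarith
    have hb : b = 0 := by linarith
    simp [ha, hb, ← h]
  · have t1 := hell h0 hmpos
    have t2 := hell h1 hmpos
    have e1 : a * Real.log m + b * Real.log m = 2 * (m * Real.log m) := by rw [hm]; ring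
    have e2 : a - m + (b - m) = 0 := by rw [hm]; ring
    have e3 : (Real.sqrt a - Real.sqrt b) ^ 2 ≤
        2 * ((Real.sqrt a - Real.sqrt m) ^ 2 + (Real.sqrt b - Real.sqrt m) ^ 2) := by
      nlinarith [sq_nonneg (Real.sqrt a + Real.sqrt b - 2 * Real.sqrt m)]
    linarith

theorem Ent_bool_upper (f : Bool → ℝ) (hf : ∀ b, 0 ≤ f b) :
    Ent f ≤ Real.log 2 * (|f false - f true| / 2) := by
  -- `(p, q)` with `p ≤ q`
  have base : ∀ c : ℝ, 0 ≤ c → ∀ e : Bool,
      Ent (fun b => if b = e then 2 * c else 0) = Real.log 2 * c := by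
    intro c hc e
    unfold Ent
    rw [expect_bool, expect_bool]
    rcases hc.eq_or_lt with h | h
    · cases e <;> simp [← h]
    · cases e
      · simp
        rw [Real.log_mul two_ne_zero h.ne']
        ring
      · simp
        rw [Real.log_mul two_ne_zero h.ne']
        ring
  have main : ∀ e : Bool, f (!e) ≤ f e → Ent f ≤ Real.log 2 * ((f e - f (!e)) / 2) := by
    intro e hle
    have hc : 0 ≤ f e - f (!e) := by linarith
    have h := Ent_expect_le (κ := Bool) (ι := Bool)
      (fun w b => if w then 2 * f (!e) else (if b = e then 2 * (f e - f (!e)) else 0))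
      (by
        intro w b
        have := hf (!e)
        cases w
        · by_cases hb : b = e <;> simp [hb, hc, hle]
        · simp [this])
    have e1 : (fun b => 𝔼 w : Bool, (if w then 2 * f (!e) else
        (if b = e then 2 * (f e - f (!e)) else 0))) = f := by
      funext b
      rw [expect_bool]
      cases b <;> cases e <;> simp <;> ring
    rw [e1, expect_bool] at h
    simp only [if_true, Bool.false_eq_true, if_false] at h
    rw [base _ hc e] at h
    have e2 : Ent (fun _ : Bool => 2 * f (!e)) = 0 := by
      unfold Ent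
      simp
    rw [e2] at h
    linarith
  rcases le_total (f false) (f true) with h | h
  · have := main true (by simpa using h)
    rw [abs_of_nonpos (by linarith)]
    simp only [Bool.not_true] at this
    convert this using 2
    ring
  · have := main false (by simpa using h)
    rw [abs_of_nonneg (by linarith)]
    simpa using this

section cut

variable {L : Type*} [Fintype L]

/-- Euclidean distance of two vectors indexed by a finite type. -/
noncomputable def dd (p q : L → ℝ) : ℝ := Real.sqrt (∑ l, (p l - q l) ^ 2)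

theorem dd_nonneg (p q : L → ℝ) : 0 ≤ dd p q := Real.sqrt_nonneg _

theorem dd_symm (p q : L → ℝ) : dd p q = dd q p := by
  unfold dd
  congr 1
  apply Finset.sum_congr rfl
  intro l _
  ring

theorem dd_triangle (p q r : L → ℝ) : dd p r ≤ dd p q + dd q r := by
  have h := dist_triangle (WithLp.toLp 2 p : EuclideanSpace ℝ L) (WithLp.toLp 2 q)
    (WithLp.toLp 2 r)
  rw [EuclideanSpace.dist_eq, EuclideanSpace.dist_eq, EuclideanSpace.dist_eq] at h
  simpa [dd, Real.dist_eq, sq_abs] using h

theorem l1_le (p q : L → ℝ) (hp0 : ∀ l, 0 ≤ p l) (hq0 : ∀ l, 0 ≤ q l)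
    (hp : ∑ l, p l ^ 2 = 1) (hq : ∑ l, q l ^ 2 = 1) :
    ∑ l, |p l ^ 2 - q l ^ 2| ≤ 2 * dd p q := by
  have h1 : ∑ l, |p l ^ 2 - q l ^ 2| = ∑ l, |p l - q l| * (p l + q l) := by
    apply Finset.sum_congr rfl
    intro l _
    have : p l ^ 2 - q l ^ 2 = (p l - q l) * (p l + q l) := by ring
    rw [this, abs_mul, abs_of_nonneg (add_nonneg (hp0 l) (hq0 l))]
  rw [h1]
  have h2 := Real.sum_mul_le_sqrt_mul_sqrt (Finset.univ : Finset L)
    (fun l => |p l - q l|) (fun l => p l + q l)
  refine h2.trans ?_
  have h3 : ∑ l, (p l + q l) ^ 2 ≤ 4 := by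
    have : ∀ l ∈ (Finset.univ : Finset L), (p l + q l) ^ 2 ≤ 2 * p l ^ 2 + 2 * q l ^ 2 := by
      intro l _
      nlinarith [sq_nonneg (p l - q l)]
    have := Finset.sum_le_sum this
    rw [Finset.sum_add_distrib, ← Finset.mul_sum, ← Finset.mul_sum, hp, hq] at this
    linarith
  have h4 : Real.sqrt (∑ l, (p l + q l) ^ 2) ≤ 2 := by
    rw [show (2 : ℝ) = Real.sqrt 4 by
      rw [show (4 : ℝ) = 2 ^ 2 by norm_num]; simp]
    exact Real.sqrt_le_sqrt h3
  have h5 : Real.sqrt (∑ l, |p l - q l| ^ 2) = dd p q := by
    unfold dd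
    simp [sq_abs]
  rw [h5]
  nlinarith [dd_nonneg p q]

/-- Cut and paste. -/
theorem cut_paste (α β : L → Bool → ℝ) (hα : ∀ l b, 0 ≤ α l b) (hβ : ∀ l b, 0 ≤ β l b)
    (h1 : ∀ u v, ∑ l, α l u * β l v = 1) :
    ∑ l, |α l false * β l false - α l true * β l true| ≤
      2 * (Real.sqrt (∑ l, β l false * (Real.sqrt (α l false) - Real.sqrt (α l true)) ^ 2) +
        Real.sqrt (∑ l, α l false * (Real.sqrt (β l false) - Real.sqrt (β l true)) ^ 2)) ∧
    ∑ l, (𝔼 b, β l b) * |α l false - α l true| / 2 ≤
      (Real.sqrt (∑ l, β l false * (Real.sqrt (α l false) - Real.sqrt (α l true)) ^ 2) +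
        Real.sqrt (∑ l, α l false * (Real.sqrt (β l false) - Real.sqrt (β l true)) ^ 2)) := by
  set p : Bool → Bool → L → ℝ := fun u v l => Real.sqrt (α l u) * Real.sqrt (β l v) with hp
  have hp0 : ∀ u v l, 0 ≤ p u v l := fun u v l => by positivity
  have hpsq : ∀ u v l, p u v l ^ 2 = α l u * β l v := by
    intro u v l
    simp only [hp]
    rw [mul_pow, Real.sq_sqrt (hα l u), Real.sq_sqrt (hβ l v)]
  have hpn : ∀ u v, ∑ l, p u v l ^ 2 = 1 := by
    intro u v
    simp only [hpsq]
    exact h1 u v
  have dA : Real.sqrt (∑ l, β l false * (Real.sqrt (α l false) - Real.sqrt (α l true)) ^ 2)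
      = dd (p false false) (p true false) := by
    unfold dd
    congr 1
    apply Finset.sum_congr rfl
    intro l _
    simp only [hp]
    have : Real.sqrt (α l false) * Real.sqrt (β l false) -
      Real.sqrt (α l true) * Real.sqrt (β l false)
      = Real.sqrt (β l false) * (Real.sqrt (α l false) - Real.sqrt (α l true)) := by ring
    rw [this, mul_pow, Real.sq_sqrt (hβ l false)]
  have dB : Real.sqrt (∑ l, α l false * (Real.sqrt (β l false) - Real.sqrt (β l true)) ^ 2)
      = dd (p false false) (p false true) := by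
    unfold dd
    congr 1
    apply Finset.sum_congr rfl
    intro l _
    simp only [hp]
    have : Real.sqrt (α l false) * Real.sqrt (β l false) -
      Real.sqrt (α l false) * Real.sqrt (β l true)
      = Real.sqrt (α l false) * (Real.sqrt (β l false) - Real.sqrt (β l true)) := by ring
    rw [this, mul_pow, Real.sq_sqrt (hα l false)]
  have hcut : dd (p false false) (p true true) = dd (p false true) (p true false) := by
    unfold dd
    congr 1
    have e : ∀ a b c d : Bool, ∑ l, (p a b l - p c d l) ^ 2
        = 2 - 2 * ∑ l, p a b l * p c d l := by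
      intro a b c d
      have : ∀ l ∈ (Finset.univ : Finset L), (p a b l - p c d l) ^ 2
          = p a b l ^ 2 + p c d l ^ 2 - 2 * (p a b l * p c d l) := by
        intro l _
        ring
      rw [Finset.sum_congr rfl this, Finset.sum_sub_distrib, Finset.sum_add_distrib, hpn, hpn,
        ← Finset.mul_sum]
      norm_num
    rw [e, e]
    congr 2
    apply Finset.sum_congr rfl
    intro l _
    simp only [hp]
    ring
  rw [dA, dB]
  have t0 : dd (p false false) (p true true) ≤
      dd (p false false) (p true false) + dd (p false false) (p false true) := by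
    rw [hcut]
    have := dd_triangle (p false true) (p false false) (p true false)
    rw [dd_symm (p false true) (p false false)] at this
    linarith
  constructor
  · have := l1_le (p false false) (p true true) (hp0 _ _) (hp0 _ _) (hpn _ _) (hpn _ _)
    simp only [hpsq] at this
    linarith
  · have a1 := l1_le (p false false) (p true false) (hp0 _ _) (hp0 _ _) (hpn _ _) (hpn _ _)
    have a2 := l1_le (p false true) (p true true) (hp0 _ _) (hp0 _ _) (hpn _ _) (hpn _ _)
    simp only [hpsq] at a1 a2
    have a3 := dd_triangle (p false true) (p false false) (p true true)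
    rw [dd_symm (p false true) (p false false)] at a3
    have e1 : ∑ l, (𝔼 b, β l b) * |α l false - α l true| / 2 =
        (∑ l, |α l false * β l false - α l true * β l false| +
          ∑ l, |α l false * β l true - α l true * β l true|) / 4 := by
      rw [← Finset.sum_add_distrib, Finset.sum_div]
      apply Finset.sum_congr rfl
      intro l _
      rw [expect_bool, ← sub_mul, ← sub_mul, abs_mul, abs_mul, abs_of_nonneg (hβ l false),
        abs_of_nonneg (hβ l true)]
      ring
    rw [e1]
    linarith

end cut

end Pool.Agent.H76.SIJ
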