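import Pool.Agent.H76.SIJ.Core

/-!
The lower bound for set disjointness in the form needed for large `ε`.
-/

open Finset
open scoped BigOperators

namespace Pool.Agent.H76.SIJ

theorem cm_one {P : Type*} [Fintype P] [DecidableEq P] (p0 : P)
    (F : (Fin 1 → P → Bool) → ℝ) (b : Bool) :
    cm p0 F 0 b = 𝔼 z : P → Bool, F (fun _ => Function.update z p0 b) := by
  unfold cm margAt
  apply Finset.expect_congr rfl
  intro z _
  have : ∀ x : Fin 1 → P → Bool, Function.update x 0 (Function.update z p0 b)
      = fun _ => Function.update z p0 b := by
    intro x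
    funext i
    have : i = 0 := Subsingleton.elim _ _
    subst this
    simp
  simp only [this, Fintype.expect_const]

theorem disj_det (t : ℝ) (ht : 0 < t) (h : ℕ)
    (pr : Protocol (Pos h → Bool) (Pos h → Bool) ((Pos h → Bool) → ℝ))
    (hcost : (pr.cost : ℝ) < t ^ 2 / 8 * (h + 1)) :
    (𝔼 s : Fin 1 → Equiv.Perm (Pos h), 𝔼 b : Bool, 𝔼 z : Option (Fin h) → Bool,
      𝔼 w : Option (Fin h) → Bool,
      (if (0 < pr.run (aliceIn s (fun _ => Function.update z none b) 0)
        (bobIn s (fun _ => Function.update w none true) 0)
        (bobIn s (fun _ => Function.update w none true) 0) ↔ b = true) then (1:ℝ) else 0))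
      ≤ (1 + 8 * t) / 2 := by
  obtain ⟨L, iL, FA, GB, o, hcard, hFA, hGB, hrun⟩ := exists_rect pr
  set F : L → (Fin 1 → Equiv.Perm (Pos h)) → (Fin 1 → Option (Fin h) → Bool) → ℝ :=
    fun l s x => FA l (aliceIn s x 0) with hFdef
  set G : L → (Fin 1 → Equiv.Perm (Pos h)) → (Fin 1 → Option (Fin h) → Bool) → ℝ :=
    fun l s y => GB l (bobIn s y 0) with hGdef
  have hF : ∀ l s x, F l s x = 0 ∨ F l s x = 1 := fun l s x => hFA l _
  have hG : ∀ l s x, G l s x = 0 ∨ G l s x = 1 := fun l s x => hGB l _
  have hF0 : ∀ l s x, 0 ≤ F l s x := fun l s x => by rcases hF l s x with h | h <;> simp [h]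
  have hG0 : ∀ l s x, 0 ≤ G l s x := fun l s x => by rcases hG l s x with h | h <;> simp [h]
  have hFG : ∀ s x y, ∑ l, F l s x * G l s y = 1 := by
    intro s x y
    have := hrun (fun _ => 1) (aliceIn s x 0) (bobIn s y 0)
    simpa using this
  have hTF : ∀ g i l s x, F l (mulAt g (tauA i) s) x =
      F l s (Function.update x g (fun q => x g (Equiv.swap none i q))) := by
    intro g i l s x
    simp only [hFdef]
    rw [aliceIn_mulAt_A]
  have hTG : ∀ g i l s y, y g none = false → G l (mulAt g (tauA i) s) y = G l s y := by
    intro g i l s y hy
    simp only [hGdef]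
    rw [bobIn_mulAt_A g i s y hy]
  have hTG' : ∀ g i l s x, G l (mulAt g (tauB i) s) x =
      G l s (Function.update x g (fun q => x g (Equiv.swap none i q))) := by
    intro g i l s x
    simp only [hGdef]
    rw [bobIn_mulAt_B]
  have hTF' : ∀ g i l s y, y g none = false → F l (mulAt g (tauB i) s) y = F l s y := by
    intro g i l s y hy
    simp only [hFdef]
    rw [aliceIn_mulAt_B g i s y hy]
  have hcardP : (Fintype.card (Option (Fin h)) : ℝ) = h + 1 := by simp
  have hLlog : Real.log (Fintype.card L) ≤ pr.cost * Real.log 2 := by
    rw [← Real.log_pow]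
    have hLne : Nonempty L := by
      by_contra hne
      rw [not_nonempty_iff] at hne
      have := hFG (fun _ => 1) (fun _ _ => false) (fun _ _ => false)
      simp at this
    apply Real.log_le_log
    · exact_mod_cast Fintype.card_pos
    · exact_mod_cast hcard
  have hL : 8 * Real.log (Fintype.card L) / Fintype.card (Option (Fin h)) ≤
      ((1 : ℕ) : ℝ) * t ^ 2 := by
    rw [hcardP, div_le_iff₀ (by positivity)]
    have hlog2 : Real.log 2 ≤ 1 := by
      have := Real.log_two_lt_d9
      linarith
    have hlog2' : 0 < Real.log 2 := Real.log_pos one_lt_two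
    have hc0 : (0 : ℝ) ≤ pr.cost := Nat.cast_nonneg _
    have : Real.log (Fintype.card L) ≤ pr.cost := by nlinarith
    push_cast
    nlinarith
  have hα : ∀ l s g x b, 0 ≤ margAt none (slice (F l s) g x) b := fun l s g x b =>
    margAt_nonneg _ _ (slice_nonneg _ (hF0 l s) g x) b
  have hβ : ∀ l s g b, 0 ≤ cm none (G l s) g b := fun l s g b =>
    cm_nonneg none _ (hG0 l s) g b
  have hdA0 : ∀ g s x, 0 ≤ dA none F G g s x := fun g s x =>
    Finset.sum_nonneg fun l _ => mul_nonneg (hβ l s g false) (sq_nonneg _)
  have hdB0 : ∀ g s x, 0 ≤ dB none F G g s x := fun g s x =>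
    Finset.sum_nonneg fun l _ => mul_nonneg (hα l s g x false) (sq_nonneg _)
  have hA := sum_sqrt_le (dA none F G) hdA0 t ht
    ((sum_dA_le none (fun g i => mulAt g (tauA i)) F G hF hG hFG hTF hTG).trans hL)
  have hB := sum_sqrt_le (dB none F G) hdB0 t ht
    ((sum_dB_le none (fun g i => mulAt g (tauB i)) F G hF hG hFG hTG' hTF').trans hL)
  simp only [Fin.sum_univ_one, Nat.cast_one, one_mul] at hA hB
  -- total variation bound
  have hTV : (𝔼 s : Fin 1 → Equiv.Perm (Pos h), ∑ l,
      cm none (G l s) 0 true * |cm none (F l s) 0 false - cm none (F l s) 0 true|) ≤ 8 * t := by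
    calc (𝔼 s : Fin 1 → Equiv.Perm (Pos h), ∑ l,
          cm none (G l s) 0 true * |cm none (F l s) 0 false - cm none (F l s) 0 true|)
        ≤ 𝔼 s : Fin 1 → Equiv.Perm (Pos h), 𝔼 x : Fin 1 → Option (Fin h) → Bool,
            4 * (Real.sqrt (dA none F G 0 s x) + Real.sqrt (dB none F G 0 s x)) := by
          apply expect_mono
          intro s
          have h1 : ∀ x : Fin 1 → Option (Fin h) → Bool, ∑ l, cm none (G l s) 0 true *
              |margAt none (slice (F l s) 0 x) false - margAt none (slice (F l s) 0 x) true| ≤
              4 * (Real.sqrt (dA none F G 0 s x) + Real.sqrt (dB none F G 0 s x)) := by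
            intro x
            have h2 := (cut_paste (fun l b => margAt none (slice (F l s) 0 x) b)
              (fun l b => cm none (G l s) 0 b) (fun l b => hα l s 0 x b)
              (fun l b => hβ l s 0 b)
              (fun u v => sum_slice_cm none (fun l => F l s) (fun l => G l s) (hFG s) 0 x u v)).2
            have h3 : ∑ l, cm none (G l s) 0 true *
              |margAt none (slice (F l s) 0 x) false - margAt none (slice (F l s) 0 x) true| ≤
              4 * ∑ l, (𝔼 b, cm none (G l s) 0 b) *
              |margAt none (slice (F l s) 0 x) false - margAt none (slice (F l s) 0 x) true|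
                / 2 := by
              rw [Finset.mul_sum]
              apply Finset.sum_le_sum
              intro l _
              rw [expect_bool]
              have a1 := hβ l s 0 true
              have a2 := hβ l s 0 false
              have a3 := abs_nonneg (margAt none (slice (F l s) 0 x) false -
                margAt none (slice (F l s) 0 x) true)
              nlinarith [mul_nonneg a2 a3]
            refine h3.trans ?_
            have h4 : (0 : ℝ) ≤ 4 := by norm_num
            exact mul_le_mul_of_nonneg_left h2 h4
          refine le_trans ?_ (expect_mono h1)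
          rw [expect_sum]
          apply Finset.sum_le_sum
          intro l _
          rw [← Finset.mul_expect]
          apply mul_le_mul_of_nonneg_left _ (hβ l s 0 true)
          rw [← expect_margAt_slice none (F l s) 0 false, ← expect_margAt_slice none (F l s) 0 true,
            ← Finset.expect_sub_distrib]
          exact Finset.abs_expect_le _ _
      _ = 4 * ((𝔼 s : Fin 1 → Equiv.Perm (Pos h), 𝔼 x : Fin 1 → Option (Fin h) → Bool,
            Real.sqrt (dA none F G 0 s x)) +
            𝔼 s : Fin 1 → Equiv.Perm (Pos h), 𝔼 x : Fin 1 → Option (Fin h) → Bool,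
            Real.sqrt (dB none F G 0 s x)) := by
          simp only [← Finset.mul_expect, Finset.expect_add_distrib]
      _ ≤ 8 * t := by linarith
  -- the success probability
  have hsucc : ∀ (s : Fin 1 → Equiv.Perm (Pos h)) (b : Bool),
      (𝔼 z : Option (Fin h) → Bool, 𝔼 w : Option (Fin h) → Bool,
      (if (0 < pr.run (aliceIn s (fun _ => Function.update z none b) 0)
        (bobIn s (fun _ => Function.update w none true) 0)
        (bobIn s (fun _ => Function.update w none true) 0) ↔ b = true) then (1:ℝ) else 0))
      = ∑ l, 𝔼 w : Option (Fin h) → Bool, cm none (F l s) 0 b *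
          G l s (fun _ => Function.update w none true) *
        (if (0 < o l (bobIn s (fun _ => Function.update w none true) 0) ↔ b = true)
          then (1:ℝ) else 0) := by
    intro s b
    have h1 : ∀ z w : Option (Fin h) → Bool,
        (if (0 < pr.run (aliceIn s (fun _ => Function.update z none b) 0)
        (bobIn s (fun _ => Function.update w none true) 0)
        (bobIn s (fun _ => Function.update w none true) 0) ↔ b = true) then (1:ℝ) else 0)
        = ∑ l, F l s (fun _ => Function.update z none b) *
          G l s (fun _ => Function.update w none true) *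
          (if (0 < o l (bobIn s (fun _ => Function.update w none true) 0) ↔ b = true)
            then (1:ℝ) else 0) := by
      intro z w
      have := hrun (fun r => if (0 < r (bobIn s (fun _ => Function.update w none true) 0)
        ↔ b = true) then (1:ℝ) else 0)
        (aliceIn s (fun _ => Function.update z none b) 0)
        (bobIn s (fun _ => Function.update w none true) 0)
      rw [← this]
    simp only [h1, expect_sum]
    apply Finset.sum_congr rfl
    intro l _
    rw [cm_one]
    rw [expect_comm' (fun (z w : Option (Fin h) → Bool) =>
          F l s (fun _ => Function.update z none b) *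
          G l s (fun _ => Function.update w none true) *
          (if (0 < o l (bobIn s (fun _ => Function.update w none true) 0) ↔ b = true)
            then (1:ℝ) else 0))]
    apply Finset.expect_congr rfl
    intro w _
    rw [Finset.expect_mul, Finset.expect_mul]
  simp only [hsucc]
  have hone : ∀ (s : Fin 1 → Equiv.Perm (Pos h)),
      ∑ l, cm none (F l s) 0 false * cm none (G l s) 0 true = 1 := by
    intro s
    have h1 := sum_slice_cm none (fun l => F l s) (fun l => G l s) (hFG s) 0
    have h2 : (𝔼 x : Fin 1 → Option (Fin h) → Bool,
      ∑ l, margAt none (slice (F l s) 0 x) false * cm none (G l s) 0 true) = 1 := by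
      simp only [h1, Fintype.expect_const]
    rw [expect_sum] at h2
    rw [← h2]
    apply Finset.sum_congr rfl
    intro l _
    rw [← Finset.expect_mul, expect_margAt_slice]
  calc (𝔼 s : Fin 1 → Equiv.Perm (Pos h), 𝔼 b : Bool,
        ∑ l, 𝔼 w : Option (Fin h) → Bool, cm none (F l s) 0 b *
          G l s (fun _ => Function.update w none true) *
        (if (0 < o l (bobIn s (fun _ => Function.update w none true) 0) ↔ b = true)
          then (1:ℝ) else 0))
      ≤ 𝔼 s : Fin 1 → Equiv.Perm (Pos h), (1 + ∑ l, cm none (G l s) 0 true *
          |cm none (F l s) 0 false - cm none (F l s) 0 true|) / 2 := by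
        apply expect_mono
        intro s
        rw [expect_bool]
        apply div_le_div_of_nonneg_right _ (by norm_num)
        have e1 : (1 : ℝ) + ∑ l, cm none (G l s) 0 true *
            |cm none (F l s) 0 false - cm none (F l s) 0 true| =
            ∑ l, 𝔼 w : Option (Fin h) → Bool,
              (cm none (F l s) 0 false + |cm none (F l s) 0 false - cm none (F l s) 0 true|) *
              G l s (fun _ => Function.update w none true) := by
          rw [← hone s, ← Finset.sum_add_distrib]
          apply Finset.sum_congr rfl
          intro l _
          rw [← Finset.mul_expect, cm_one none (G l s) true]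
          ring
        rw [e1, ← Finset.sum_add_distrib]
        apply Finset.sum_le_sum
        intro l _
        rw [← Finset.expect_add_distrib]
        apply expect_mono
        intro w
        simp only [Bool.false_eq_true, iff_false, iff_true]
        have a0 : 0 ≤ G l s (fun _ => Function.update w none true) := hG0 l s _
        have a1 := neg_abs_le (cm none (F l s) 0 false - cm none (F l s) 0 true)
        have a2 := abs_nonneg (cm none (F l s) 0 false - cm none (F l s) 0 true)
        by_cases ho : 0 < o l (bobIn s (fun _ => Function.update w none true) 0)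
        · simp only [ho, not_true_eq_false, if_true, if_false]
          nlinarith
        · simp only [ho, not_false_eq_true, if_true, if_false]
          nlinarith
    _ = (1 + 𝔼 s : Fin 1 → Equiv.Perm (Pos h), ∑ l, cm none (G l s) 0 true *
          |cm none (F l s) 0 false - cm none (F l s) 0 true|) / 2 := by
        rw [← Finset.expect_div, Finset.expect_add_distrib, Fintype.expect_const]
    _ ≤ (1 + 8 * t) / 2 := by linarith

/-- The lower bound for set disjointness for every error probability below `1/2`. -/
theorem disjLower (δ : ℝ) (hδ : δ < 1 / 2) : DisjLower δ := by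
  set t : ℝ := min 1 ((1 - 2 * δ) / 16) with ht
  have htpos : 0 < t := lt_min one_pos (by linarith)
  have ht2 : t ≤ (1 - 2 * δ) / 16 := min_le_right _ _
  refine ⟨t ^ 2 / 8, by positivity, ?_⟩
  intro h C P hcost hP
  by_contra hlt
  push Not at hlt
  set Ω := (Fin 1 → Equiv.Perm (Pos h)) × Bool × (Option (Fin h) → Bool) ×
    (Option (Fin h) → Bool)
  have hy := yao (Ω := Ω) P
    (fun ω => {p | 0 < p.run (aliceIn ω.1 (fun _ => Function.update ω.2.2.1 none ω.2.1) 0)
        (bobIn ω.1 (fun _ => Function.update ω.2.2.2 none true) 0)
        (bobIn ω.1 (fun _ => Function.update ω.2.2.2 none true) 0) ↔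
      ∃ i, aliceIn ω.1 (fun _ => Function.update ω.2.2.1 none ω.2.1) 0 i = true ∧
        bobIn ω.1 (fun _ => Function.update ω.2.2.2 none true) 0 i = true}) δ
    ((1 + 8 * t) / 2) (by linarith) (fun ω => hP _ _) ?_
  · linarith
  · intro pr hpr
    have h1 : (pr.cost : ℝ) < t ^ 2 / 8 * (h + 1) :=
      lt_of_le_of_lt (by exact_mod_cast hcost pr hpr) hlt
    have h2 := disj_det t htpos h pr h1
    refine le_trans (le_of_eq ?_) h2
    rw [expect_prod]
    apply Finset.expect_congr rfl
    intro s _
    rw [expect_prod]
    apply Finset.expect_congr rfl
    intro b _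
    rw [expect_prod]
    apply Finset.expect_congr rfl
    intro z _
    apply Finset.expect_congr rfl
    intro w _
    have h3 : (∃ i, aliceIn s (fun _ => Function.update z none b) 0 i = true ∧
        bobIn s (fun _ => Function.update w none true) 0 i = true) ↔ b = true := by
      have := inter_iff (Function.update z none b) (Function.update w none true) (s 0)
      simpa [aliceIn, bobIn] using this
    have h4 : (pr ∈ {p : Protocol (Pos h → Bool) (Pos h → Bool) ((Pos h → Bool) → ℝ) |
        0 < p.run (aliceIn s (fun _ => Function.update z none b) 0)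
        (bobIn s (fun _ => Function.update w none true) 0)
        (bobIn s (fun _ => Function.update w none true) 0) ↔
      ∃ i, aliceIn s (fun _ => Function.update z none b) 0 i = true ∧
        bobIn s (fun _ => Function.update w none true) 0 i = true}) ↔
      (0 < pr.run (aliceIn s (fun _ => Function.update z none b) 0)
        (bobIn s (fun _ => Function.update w none true) 0)
        (bobIn s (fun _ => Function.update w none true) 0) ↔ b = true) := by
      rw [← h3]
      exact Iff.rfl
    by_cases h5 : (0 < pr.run (aliceIn s (fun _ => Function.update z none b) 0)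
        (bobIn s (fun _ => Function.update w none true) 0)
        (bobIn s (fun _ => Function.update w none true) 0) ↔ b = true)
    · rw [if_pos (h4.2 h5), if_pos h5]
    · rw [if_neg (fun h => h5 (h4.1 h)), if_neg h5]

end Pool.Agent.H76.SIJ
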