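import Pool.Agent.H76.SIJ.GhdSB

/-!
Anti-concentration of the inner product of two independent vectors of almost full entropy.
-/

open Finset Matrix
open scoped BigOperators

namespace Pool.Agent.H76.SIJ.Ghd

/-- the real 0-1 vector of a Boolean vector -/
def rv {k : ℕ} (v : Fin k → Bool) : Fin k → ℝ := fun j => if v j then 1 else 0

lemma rv_sq {k : ℕ} (v : Fin k → Bool) (j : Fin k) : rv v j ^ 2 ≤ 1 := by
  unfold rv; split_ifs <;> norm_num

/-- sums over Boolean vectors as sums over subsets -/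
lemma sum_bool {k : ℕ} (F : (Fin k → Bool) → ℝ) :
    ∑ u, F u = ∑ T ∈ (Finset.univ : Finset (Fin k)).powerset, F (fun j => decide (j ∈ T)) := by
  refine Finset.sum_nbij' (fun u => Finset.univ.filter (fun j => u j = true))
    (fun T => fun j => decide (j ∈ T)) ?_ ?_ ?_ ?_ ?_
  · intro u _; simp
  · intro T _; simp
  · intro u _; ext j; simp
  · intro T _; ext j; simp
  · intro u _
    congr 1
    ext j; simp

lemma gauss_bool {ι : Type*} [Fintype ι] [LinearOrder ι] {k : ℕ}
    (w y : ι → Fin k → ℝ) (t : ι → ℝ) (D : ℝ) (hD : 0 ≤ D)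
    (hw : ∀ j, ∑ i, w i j ^ 2 ≤ 1)
    (hy : ∀ i i' : ι, i' < i → y i ⬝ᵥ w i' = 0)
    (hyD : ∀ i : ι, D ≤ 2 * (y i ⬝ᵥ w i) - y i ⬝ᵥ y i) :
    ∑ u : Fin k → Bool, Real.exp (-∑ i, (t i + rv u ⬝ᵥ w i) ^ 2) ≤
      2 ^ k * (((1 + D / 2) ^ Fintype.card ι)⁻¹) ^ (1 / 4 : ℝ) := by
  have h := gauss_bound w y t D hD hw hy hyD
  rw [sum_bool]
  refine le_trans (le_of_eq ?_) h
  refine Finset.sum_congr rfl fun T _ => ?_
  congr 2
  refine Finset.sum_congr rfl fun i _ => ?_
  congr 2
  unfold rv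
  simp only [dotProduct, decide_eq_true_eq, ite_mul, one_mul, zero_mul]
  rw [← Finset.sum_filter]
  congr 1
  ext j; simp

/-- Entropy transfer. -/
lemma transfer {Ω : Type*} [Fintype Ω] [Nonempty Ω] (f : Ω → ℝ) (hf : ∀ u, 0 ≤ f u)
    (hf1 : 𝔼 u, f u = 1) {E s : ℝ} (hE : 𝔼 u, f u * Real.log (f u) ≤ E)
    (A : Finset Ω) (hA : (A.card : ℝ) * Real.exp s ≤ Fintype.card Ω) (_hs : 0 ≤ s) :
    s * (∑ u ∈ A, f u) ≤ (E + 1) * Fintype.card Ω := by
  classical
  have hN : (0 : ℝ) < Fintype.card Ω := by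
    exact_mod_cast Fintype.card_pos
  rw [Fintype.expect_eq_sum_div_card, div_eq_iff hN.ne', one_mul] at hf1
  rw [Fintype.expect_eq_sum_div_card, div_le_iff₀ hN] at hE
  have young : ∀ (x z : ℝ), 0 ≤ x → x * z ≤ x * Real.log x - x + Real.exp z := by
    intro x z hx
    rcases hx.eq_or_lt with rfl | hx
    · simp [(Real.exp_pos z).le]
    · have h1 := Real.add_one_le_exp (z - Real.log x)
      have h2 : x * Real.exp (z - Real.log x) = Real.exp z := by
        rw [Real.exp_sub, Real.exp_log hx]; field_simp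
      nlinarith [mul_le_mul_of_nonneg_left h1 hx.le]
  have h1 : ∑ u, f u * (if u ∈ A then s else 0) ≤
      ∑ u, (f u * Real.log (f u) - f u + Real.exp (if u ∈ A then s else 0)) :=
    Finset.sum_le_sum fun u _ => young _ _ (hf u)
  have h2 : ∑ u, f u * (if u ∈ A then s else 0) = s * ∑ u ∈ A, f u := by
    simp only [mul_ite, mul_zero]
    rw [← Finset.sum_filter, Finset.filter_mem_eq_inter, Finset.univ_inter, Finset.mul_sum]
    exact Finset.sum_congr rfl fun u _ => mul_comm _ _
  have h3 : ∑ u, Real.exp (if u ∈ A then s else 0) ≤ Fintype.card Ω + A.card * Real.exp s := by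
    have : ∀ u, Real.exp (if u ∈ A then s else 0) ≤ 1 + (if u ∈ A then Real.exp s else 0) := by
      intro u
      split_ifs
      · linarith [Real.exp_pos s]
      · simp
    refine (Finset.sum_le_sum fun u _ => this u).trans ?_
    rw [Finset.sum_add_distrib, ← Finset.sum_filter, Finset.filter_mem_eq_inter,
      Finset.univ_inter]
    simp
  rw [h2, Finset.sum_add_distrib, Finset.sum_sub_distrib, hf1] at h1
  nlinarith

/-- `V` is far from the span of the family `v`. -/
def Far {k n : ℕ} (v : Fin n → Fin k → Bool) (V : Fin k → Bool) : Prop :=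
  ∃ y : Fin k → ℝ, (∀ i, y ⬝ᵥ rv (v i) = 0) ∧ (k : ℝ) / 32 ≤ 2 * (y ⬝ᵥ rv V) - y ⬝ᵥ y

lemma exp_third : Real.exp (1 / 3) ≤ 3 / 2 := by
  have h1 : Real.exp (1 / 3) ^ 3 = Real.exp 1 := by
    rw [← Real.exp_nat_mul]; congr 1; norm_num
  have h2 : Real.exp 1 < 2.7182818286 := Real.exp_one_lt_d9
  have h3 : Real.exp (1 / 3) ^ 3 ≤ (3 / 2 : ℝ) ^ 3 := by
    rw [h1]; norm_num; linarith
  exact le_of_pow_le_pow_left₀ (by norm_num) (by norm_num) h3

open Classical in
lemma not_far_card {k n : ℕ} (hn : 4 * n ≤ k) (v : Fin n → Fin k → Bool) :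
    ((Finset.univ.filter fun V => ¬ Far v V).card : ℝ) * Real.exp (k / 32) ≤ 2 ^ k := by
  set E : Submodule ℝ (EuclideanSpace ℝ (Fin k)) :=
    Submodule.span ℝ (Set.range fun i : Fin n => (WithLp.toLp 2 (rv (v i)) : EuclideanSpace ℝ (Fin k)))
    with hE
  have hEdim : Module.finrank ℝ E ≤ n := by
    have := finrank_range_le_card (R := ℝ)
      (fun i : Fin n => (WithLp.toLp 2 (rv (v i)) : EuclideanSpace ℝ (Fin k)))
    rw [Fintype.card_fin] at this
    exact this
  have hsum : Module.finrank ℝ E + Module.finrank ℝ Eᗮ = k := by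
    have := Submodule.finrank_add_finrank_orthogonal E
    rwa [finrank_euclideanSpace_fin] at this
  set N := Module.finrank ℝ Eᗮ with hN
  have hNk : 3 * k ≤ 4 * N := by omega
  let b := stdOrthonormalBasis ℝ Eᗮ
  let w : Fin N → Fin k → ℝ := fun l => WithLp.ofLp ((b l : Eᗮ) : EuclideanSpace ℝ (Fin k))
  have hinner : ∀ x z : EuclideanSpace ℝ (Fin k), inner ℝ x z = WithLp.ofLp x ⬝ᵥ WithLp.ofLp z := by
    intro x z
    rw [PiLp.inner_apply]
    simp only [dotProduct]
    exact Finset.sum_congr rfl fun i _ => by simp [mul_comm]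
  have hb : Orthonormal ℝ (fun l => ((b l : Eᗮ) : EuclideanSpace ℝ (Fin k))) := by
    have := b.orthonormal
    exact this.comp_linearIsometry Eᗮ.subtypeₗᵢ
  have hww : ∀ l l', w l ⬝ᵥ w l' = if l = l' then 1 else 0 := by
    intro l l'
    rw [← hinner]
    exact (orthonormal_iff_ite.1 hb) l l'
  have hwv : ∀ l i, w l ⬝ᵥ rv (v i) = 0 := by
    intro l i
    have h1 : (WithLp.toLp 2 (rv (v i)) : EuclideanSpace ℝ (Fin k)) ∈ E :=
      Submodule.subset_span ⟨i, rfl⟩
    have h2 := (Submodule.mem_orthogonal' E _).1 (b l).2 _ h1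
    rw [hinner] at h2
    exact h2
  have hcol : ∀ j, ∑ l, w l j ^ 2 ≤ 1 := by
    intro j
    have h1 := hb.sum_inner_products_le (x := EuclideanSpace.single j (1 : ℝ))
      (s := Finset.univ)
    rw [PiLp.norm_single] at h1
    refine le_trans (le_of_eq ?_) (h1.trans (by norm_num))
    refine Finset.sum_congr rfl fun l _ => ?_
    rw [hinner]
    simp [w, dotProduct]
  have hg := gauss_bool w w (fun _ => 0) 1 zero_le_one hcol
    (fun i i' h => by rw [hww]; simp [h.ne'])
    (fun i => by rw [hww]; norm_num)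
  -- a vector which is not far has small projection
  have hnf : ∀ V, ¬ Far v V → ∑ l, (rv V ⬝ᵥ w l) ^ 2 ≤ k / 32 := by
    intro V hV
    by_contra hcon
    push Not at hcon
    apply hV
    refine ⟨∑ l, (rv V ⬝ᵥ w l) • w l, ?_, ?_⟩
    · intro i
      rw [sum_dotProduct]
      refine Finset.sum_eq_zero fun l _ => ?_
      rw [smul_dotProduct, hwv, smul_zero]
    · have e1 : (∑ l, (rv V ⬝ᵥ w l) • w l) ⬝ᵥ rv V = ∑ l, (rv V ⬝ᵥ w l) ^ 2 := by
        rw [sum_dotProduct]
        refine Finset.sum_congr rfl fun l _ => ?_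
        rw [smul_dotProduct, smul_eq_mul, dotProduct_comm (w l), sq]
      have e2 : (∑ l, (rv V ⬝ᵥ w l) • w l) ⬝ᵥ (∑ l, (rv V ⬝ᵥ w l) • w l)
          = ∑ l, (rv V ⬝ᵥ w l) ^ 2 := by
        rw [sum_dotProduct]
        refine Finset.sum_congr rfl fun l _ => ?_
        rw [smul_dotProduct, dotProduct_sum, smul_eq_mul, sq]
        congr 1
        rw [Finset.sum_eq_single l]
        · rw [dotProduct_smul, hww]; simp
        · intro l' _ hl'
          rw [dotProduct_smul, hww]; simp [hl'.symm]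
        · simp
      rw [e1, e2]
      linarith
  -- Markov
  have h1 : ((Finset.univ.filter fun V => ¬ Far v V).card : ℝ) * Real.exp (-((k : ℝ) / 32)) ≤
      ∑ u : Fin k → Bool, Real.exp (-∑ i, ((0 : ℝ) + rv u ⬝ᵥ w i) ^ 2) := by
    rw [← nsmul_eq_mul, ← Finset.sum_const]
    refine (Finset.sum_le_sum (fun V hV => ?_)).trans
      (Finset.sum_le_sum_of_subset_of_nonneg (Finset.filter_subset _ _)
        (fun _ _ _ => (Real.exp_pos _).le))
    apply Real.exp_le_exp.2
    simp only [zero_add]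
    have := hnf V (Finset.mem_filter.1 hV).2
    linarith
  have h2 := h1.trans hg
  rw [Fintype.card_fin] at h2
  -- numerics
  have h3 : ((((1 : ℝ) + 1 / 2) ^ N)⁻¹) ^ (1 / 4 : ℝ) ≤ Real.exp (-(k : ℝ) / 16) := by
    have h4 : (((1 : ℝ) + 1 / 2) ^ N)⁻¹ ≤ Real.exp (-(N : ℝ) / 3) := by
      have h5 : Real.exp ((N : ℝ) / 3) ≤ ((1 : ℝ) + 1 / 2) ^ N := by
        have : Real.exp ((N : ℝ) / 3) = Real.exp (1 / 3) ^ N := by
          rw [← Real.exp_nat_mul]; congr 1; ring
        rw [this]
        refine pow_le_pow_left₀ (Real.exp_pos _).le ?_ N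
        refine exp_third.trans (by norm_num)
      have h6 : Real.exp (-(N : ℝ) / 3) = (Real.exp ((N : ℝ) / 3))⁻¹ := by
        rw [← Real.exp_neg]; congr 1; ring
      rw [h6]
      exact inv_anti₀ (Real.exp_pos _) h5
    refine (Real.rpow_le_rpow (by positivity) h4 (by norm_num)).trans ?_
    rw [← Real.exp_mul]
    apply Real.exp_le_exp.2
    have : (3 : ℝ) * k ≤ 4 * N := by exact_mod_cast hNk
    linarith
  have h4 : ((Finset.univ.filter fun V => ¬ Far v V).card : ℝ) * Real.exp (-((k : ℝ) / 32)) ≤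
      2 ^ k * Real.exp (-(k : ℝ) / 16) :=
    h2.trans (mul_le_mul_of_nonneg_left h3 (by positivity))
  have h5 := mul_le_mul_of_nonneg_right h4 (Real.exp_pos ((k : ℝ) / 16)).le
  rw [mul_assoc, ← Real.exp_add, mul_assoc, ← Real.exp_add] at h5
  have e1 : -((k : ℝ) / 32) + (k : ℝ) / 16 = k / 32 := by ring
  have e2 : -(k : ℝ) / 16 + (k : ℝ) / 16 = 0 := by ring
  rw [e1, e2, Real.exp_zero, mul_one] at h5
  exact h5

/-- closeness of the inner product to `o v` -/
def Close {k : ℕ} (c : ℝ) (o : (Fin k → Bool) → ℝ) (u v : Fin k → Bool) : Prop :=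
  |rv u ⬝ᵥ rv v - o v| ≤ c * Real.sqrt k

open Classical in
/-- the number of `u` that are close to all `v i`, `i ∈ I`. -/
lemma close_card {k m : ℕ} (hm : 0 < m) {K c : ℝ} {o : (Fin k → Bool) → ℝ} (_hc : 0 ≤ c)
    (hcm : c ^ 2 * k ≤ m) (hK : Real.exp (4 * K) ≤ (k : ℝ) / 64 / m)
    (v : Fin m → Fin k → Bool) (y : Fin m → Fin k → ℝ)
    (hy : ∀ i i' : Fin m, i' < i → y i ⬝ᵥ rv (v i') = 0)
    (hyD : ∀ i : Fin m, (k : ℝ) / 32 ≤ 2 * (y i ⬝ᵥ rv (v i)) - y i ⬝ᵥ y i)
    (I : Finset (Fin m)) :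
    ((Finset.univ.filter fun u : Fin k → Bool => ∀ i ∈ I, Close c o u (v i)).card : ℝ) ≤
      2 ^ k * Real.exp (-(K - 1) * I.card) := by
  have hm0 : (0 : ℝ) < m := by exact_mod_cast hm
  set s : ℝ := (Real.sqrt m)⁻¹ with hs
  have hs2 : s ^ 2 = (m : ℝ)⁻¹ := by
    rw [hs, inv_pow, Real.sq_sqrt hm0.le]
  have hs0 : 0 < s := by positivity
  have hg := gauss_bool (ι := I) (k := k) (fun i => s • rv (v i)) (fun i => s • y i)
    (fun i => -s * o (v i)) ((k : ℝ) / 32 / m) (by positivity)
    (by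
      intro j
      calc ∑ i : I, (s • rv (v i)) j ^ 2 ≤ ∑ i : I, (m : ℝ)⁻¹ := by
            refine Finset.sum_le_sum fun i _ => ?_
            rw [Pi.smul_apply, smul_eq_mul, mul_pow, hs2]
            have := rv_sq (v i) j
            have h0 : (0 : ℝ) ≤ (m : ℝ)⁻¹ := by positivity
            nlinarith
        _ = (I.card : ℝ) * (m : ℝ)⁻¹ := by simp
        _ ≤ 1 := by
            have : (I.card : ℝ) ≤ m := by
              exact_mod_cast (Finset.card_le_univ I).trans (by simp)
            rw [← div_eq_mul_inv, div_le_one hm0]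
            exact this)
    (by
      intro i i' h
      rw [smul_dotProduct, dotProduct_smul, hy i i' h, smul_zero, smul_zero])
    (by
      intro i
      rw [smul_dotProduct, dotProduct_smul, smul_dotProduct, dotProduct_smul]
      simp only [smul_eq_mul]
      have h1 := mul_le_mul_of_nonneg_left (hyD i) (by positivity : (0 : ℝ) ≤ (m : ℝ)⁻¹)
      rw [← hs2] at h1
      have h2 : (k : ℝ) / 32 / m = s ^ 2 * (k / 32) := by
        rw [hs2]; ring
      rw [h2]
      refine h1.trans (le_of_eq ?_)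
      ring)
  rw [Fintype.card_coe] at hg
  have h1 : ((Finset.univ.filter fun u : Fin k → Bool => ∀ i ∈ I, Close c o u (v i)).card : ℝ) *
      Real.exp (-(I.card : ℝ)) ≤
      ∑ u : Fin k → Bool, Real.exp (-∑ i : I, (-s * o (v i) + rv u ⬝ᵥ (s • rv (v i))) ^ 2) := by
    rw [← nsmul_eq_mul, ← Finset.sum_const]
    refine (Finset.sum_le_sum (fun u hu => ?_)).trans
      (Finset.sum_le_sum_of_subset_of_nonneg (Finset.filter_subset _ _)
        (fun _ _ _ => (Real.exp_pos _).le))
    apply Real.exp_le_exp.2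
    apply neg_le_neg
    have hu2 := (Finset.mem_filter.1 hu).2
    calc ∑ i : I, (-s * o (v i) + rv u ⬝ᵥ (s • rv (v i))) ^ 2 ≤ ∑ i : I, (1 : ℝ) := by
          refine Finset.sum_le_sum fun i _ => ?_
          rw [dotProduct_smul, smul_eq_mul]
          have h3 : -s * o (v i) + s * (rv u ⬝ᵥ rv (v i)) = s * (rv u ⬝ᵥ rv (v i) - o (v i)) := by ring
          rw [h3, mul_pow, hs2]
          have h4 : (rv u ⬝ᵥ rv (v i) - o (v i)) ^ 2 ≤ c ^ 2 * k := by
            have h5 := hu2 i i.2
            unfold Close at h5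
            have h6 := pow_le_pow_left₀ (abs_nonneg _) h5 2
            rw [sq_abs, mul_pow, Real.sq_sqrt (Nat.cast_nonneg k)] at h6
            exact h6
          calc (m : ℝ)⁻¹ * (rv u ⬝ᵥ rv (v i) - o (v i)) ^ 2 ≤ (m : ℝ)⁻¹ * m :=
                mul_le_mul_of_nonneg_left (h4.trans hcm) (by positivity)
            _ = 1 := by field_simp
      _ = I.card := by simp
  have h2 := h1.trans hg
  have h3 : (((1 + (k : ℝ) / 32 / m / 2) ^ I.card)⁻¹) ^ (1 / 4 : ℝ)
      ≤ Real.exp (-K * I.card) := by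
    have h4 : ((1 + (k : ℝ) / 32 / m / 2) ^ I.card)⁻¹ ≤ Real.exp (-(4 * K) * I.card) := by
      have h5 : Real.exp ((4 * K) * I.card) ≤ (1 + (k : ℝ) / 32 / m / 2) ^ I.card := by
        have : Real.exp ((4 * K) * I.card) = Real.exp (4 * K) ^ I.card := by
          rw [← Real.exp_nat_mul]; congr 1; ring
        rw [this]
        refine pow_le_pow_left₀ (Real.exp_pos _).le ?_ _
        refine hK.trans ?_
        have : (k : ℝ) / 32 / m / 2 = k / 64 / m := by ring
        rw [this]; linarith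
      have h6 : Real.exp (-(4 * K) * I.card) = (Real.exp ((4 * K) * I.card))⁻¹ := by
        rw [← Real.exp_neg]; congr 1; ring
      rw [h6]
      exact inv_anti₀ (Real.exp_pos _) h5
    refine (Real.rpow_le_rpow (by positivity) h4 (by norm_num)).trans ?_
    rw [← Real.exp_mul]
    apply Real.exp_le_exp.2
    linarith
  have h4 := h2.trans (mul_le_mul_of_nonneg_left h3 (by positivity))
  have h5 := mul_le_mul_of_nonneg_right h4 (Real.exp_pos (I.card : ℝ)).le
  rw [mul_assoc, ← Real.exp_add, mul_assoc, ← Real.exp_add] at h5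
  have e1 : -(I.card : ℝ) + I.card = 0 := by ring
  have e2 : -K * (I.card : ℝ) + I.card = -(K - 1) * I.card := by ring
  rw [e1, e2, Real.exp_zero, mul_one] at h5
  exact h5

open Classical in
/-- sequential selection of far vectors -/
lemma select {k : ℕ} (hk : 0 < k) (g H : (Fin k → Bool) → ℝ) (hg : ∀ v, 0 ≤ g v)
    (hg1 : 𝔼 v, g v = 1) {E : ℝ} (hE : 𝔼 v, g v * Real.log (g v) ≤ E)
    (hH1 : ∀ v, H v ≤ 1) {p : ℝ} (hp0 : 0 ≤ p) (hp : p < 𝔼 v, g v * H v)
    (hEk : E + 1 ≤ (p / 4) * (k / 32)) (n : ℕ) (hn : 4 * n ≤ k) :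
    ∃ (v : Fin n → Fin k → Bool) (y : Fin n → Fin k → ℝ),
      (∀ i i' : Fin n, i' < i → y i ⬝ᵥ rv (v i') = 0) ∧
      (∀ i : Fin n, (k : ℝ) / 32 ≤ 2 * (y i ⬝ᵥ rv (v i)) - y i ⬝ᵥ y i) ∧
      (∀ i : Fin n, 3 / 4 * p ≤ H (v i)) := by
  induction n with
  | zero => exact ⟨fun i => i.elim0, fun i => i.elim0, fun i => i.elim0, fun i => i.elim0,
      fun i => i.elim0⟩
  | succ n ih =>
    obtain ⟨v, y, h1, h2, h3⟩ := ih (by omega)
    have hkr : (0 : ℝ) < k := by exact_mod_cast hk
    have hcard : (Fintype.card (Fin k → Bool) : ℝ) = 2 ^ k := by simp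
    have hnf := not_far_card (n := n) (by omega : 4 * n ≤ k) v
    have htr := transfer g hg hg1 hE (Finset.univ.filter fun V => ¬ Far v V)
      (s := (k : ℝ) / 32) (by rw [hcard]; exact hnf) (by positivity)
    rw [hcard] at htr
    have hN : (0 : ℝ) < 2 ^ k := by positivity
    have hsmall : ∑ V ∈ Finset.univ.filter (fun V => ¬ Far v V), g V ≤ (p / 4) * 2 ^ k := by
      have h5 : (k : ℝ) / 32 * ∑ V ∈ Finset.univ.filter (fun V => ¬ Far v V), g V
          ≤ (k : ℝ) / 32 * ((p / 4) * 2 ^ k) := by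
        refine htr.trans ?_
        have := mul_le_mul_of_nonneg_right hEk hN.le
        linarith
      exact le_of_mul_le_mul_left h5 (by positivity)
    obtain ⟨V, hVfar, hVH⟩ : ∃ V, Far v V ∧ 3 / 4 * p ≤ H V := by
      by_contra hcon
      push Not at hcon
      rw [Fintype.expect_eq_sum_div_card, hcard, lt_div_iff₀ hN] at hp
      rw [Fintype.expect_eq_sum_div_card, hcard, div_eq_iff hN.ne', one_mul] at hg1
      have hsplit := Finset.sum_filter_add_sum_filter_not (Finset.univ : Finset (Fin k → Bool))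
        (fun V => ¬ Far v V) (fun V => g V * H V)
      have hA : ∑ V ∈ Finset.univ.filter (fun V => ¬ Far v V), g V * H V ≤ (p / 4) * 2 ^ k := by
        refine le_trans (Finset.sum_le_sum fun V _ => ?_) hsmall
        have := hg V
        have := hH1 V
        nlinarith
      have hB : ∑ V ∈ Finset.univ.filter (fun V => ¬ ¬ Far v V), g V * H V
          ≤ 3 / 4 * p * 2 ^ k := by
        calc ∑ V ∈ Finset.univ.filter (fun V => ¬ ¬ Far v V), g V * H V
            ≤ ∑ V ∈ Finset.univ.filter (fun V => ¬ ¬ Far v V), 3 / 4 * p * g V := by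
              refine Finset.sum_le_sum fun V hV => ?_
              have h6 := hcon V (not_not.1 (Finset.mem_filter.1 hV).2)
              have := hg V
              nlinarith
          _ ≤ ∑ V, 3 / 4 * p * g V := by
              refine Finset.sum_le_sum_of_subset_of_nonneg (Finset.filter_subset _ _) ?_
              intro V _ _
              have := hg V
              positivity
          _ = 3 / 4 * p * 2 ^ k := by rw [← Finset.mul_sum, hg1]
      linarith
    obtain ⟨Y, hY1, hY2⟩ := hVfar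
    refine ⟨Fin.snoc v V, Fin.snoc y Y, ?_, ?_, ?_⟩
    · intro i
      refine Fin.lastCases ?_ (fun i => ?_) i
      · intro i' hi'
        rw [Fin.snoc_last]
        have hne : i' ≠ Fin.last n := hi'.ne
        obtain ⟨i'', rfl⟩ := Fin.exists_castSucc_eq.2 hne
        rw [Fin.snoc_castSucc]
        exact hY1 i''
      · intro i' hi'
        have hne : i' ≠ Fin.last n := by
          intro h
          rw [h] at hi'
          exact absurd hi' (not_lt.2 (Fin.le_last _))
        obtain ⟨i'', rfl⟩ := Fin.exists_castSucc_eq.2 hne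
        rw [Fin.snoc_castSucc, Fin.snoc_castSucc]
        exact h1 i i'' (by simpa using hi')
    · intro i
      refine Fin.lastCases ?_ (fun i => ?_) i
      · rw [Fin.snoc_last, Fin.snoc_last]; exact hY2
      · rw [Fin.snoc_castSucc, Fin.snoc_castSucc]; exact h2 i
    · intro i
      refine Fin.lastCases ?_ (fun i => ?_) i
      · rw [Fin.snoc_last]; exact hVH
      · rw [Fin.snoc_castSucc]; exact h3 i

open Classical in
/-- few `u` are close to many of the selected vectors -/
lemma many_close_card {k m : ℕ} (hm : 0 < m) {p c : ℝ} {o : (Fin k → Bool) → ℝ} (hp : 0 < p)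
    (hc : 0 ≤ c)
    (hcm : c ^ 2 * k ≤ m) (hK : Real.exp (4 * (1 + 4 / p)) ≤ (k : ℝ) / 64 / m)
    (v : Fin m → Fin k → Bool) (y : Fin m → Fin k → ℝ)
    (hy : ∀ i i' : Fin m, i' < i → y i ⬝ᵥ rv (v i') = 0)
    (hyD : ∀ i : Fin m, (k : ℝ) / 32 ≤ 2 * (y i ⬝ᵥ rv (v i)) - y i ⬝ᵥ y i) :
    ((Finset.univ.filter fun u : Fin k → Bool =>
      p / 2 * m ≤ ((Finset.univ.filter fun i => Close c o u (v i)).card : ℝ)).card : ℝ)
      * Real.exp m ≤ 2 ^ k := by
  set A := Finset.univ.filter fun u : Fin k → Bool =>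
      p / 2 * m ≤ ((Finset.univ.filter fun i => Close c o u (v i)).card : ℝ) with hA
  set J := (Finset.univ : Finset (Finset (Fin m))).filter
    (fun I => p / 2 * m ≤ (I.card : ℝ)) with hJ
  have hsub : A ⊆ J.biUnion fun I =>
      Finset.univ.filter fun u : Fin k → Bool => ∀ i ∈ I, Close c o u (v i) := by
    intro u hu
    rw [hA, Finset.mem_filter] at hu
    rw [Finset.mem_biUnion]
    refine ⟨Finset.univ.filter fun i => Close c o u (v i), ?_, ?_⟩
    · rw [hJ, Finset.mem_filter]
      exact ⟨Finset.mem_univ _, hu.2⟩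
    · simp
  have h1 : (A.card : ℝ) ≤ ∑ I ∈ J, ((Finset.univ.filter fun u : Fin k → Bool =>
      ∀ i ∈ I, Close c o u (v i)).card : ℝ) := by
    have := (Finset.card_le_card hsub).trans Finset.card_biUnion_le
    exact_mod_cast this
  have h2 : ∀ I ∈ J, ((Finset.univ.filter fun u : Fin k → Bool =>
      ∀ i ∈ I, Close c o u (v i)).card : ℝ) ≤ 2 ^ k * Real.exp (-2 * m) := by
    intro I hI
    have h3 := close_card hm hc hcm hK (o := o) v y hy hyD I
    refine h3.trans (mul_le_mul_of_nonneg_left (Real.exp_le_exp.2 ?_) (by positivity))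
    have h4 : p / 2 * m ≤ (I.card : ℝ) := (Finset.mem_filter.1 hI).2
    have h5 : (0 : ℝ) ≤ 4 / p := by positivity
    have h6 := mul_le_mul_of_nonneg_left h4 h5
    have h7 : 4 / p * (p / 2 * m) = 2 * m := by field_simp; ring
    rw [h7] at h6
    have h8 : (1 + 4 / p - 1) = 4 / p := by ring
    rw [h8]
    linarith
  have h3 : (A.card : ℝ) ≤ 2 ^ m * (2 ^ k * Real.exp (-2 * m)) := by
    refine h1.trans ((Finset.sum_le_sum h2).trans ?_)
    rw [Finset.sum_const, nsmul_eq_mul]
    refine mul_le_mul_of_nonneg_right ?_ (by positivity)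
    have : J.card ≤ 2 ^ m := by
      refine (Finset.card_le_univ J).trans ?_
      simp
    exact_mod_cast this
  have h4 : (2 : ℝ) ^ m ≤ Real.exp m := by
    have : Real.exp (m : ℝ) = Real.exp 1 ^ m := by
      rw [← Real.exp_nat_mul]; congr 1; ring
    rw [this]
    refine pow_le_pow_left₀ (by norm_num) ?_ m
    have := Real.add_one_le_exp (1 : ℝ)
    linarith
  have hE0 := Real.exp_pos (m : ℝ)
  calc (A.card : ℝ) * Real.exp m ≤ (2 ^ m * (2 ^ k * Real.exp (-2 * m))) * Real.exp m :=
        mul_le_mul_of_nonneg_right h3 hE0.le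
    _ ≤ (Real.exp m * (2 ^ k * Real.exp (-2 * m))) * Real.exp m :=
        mul_le_mul_of_nonneg_right (mul_le_mul_of_nonneg_right h4 (by positivity)) hE0.le
    _ = 2 ^ k * (Real.exp m * Real.exp (-2 * m) * Real.exp m) := by ring
    _ = 2 ^ k := by
        rw [← Real.exp_add, ← Real.exp_add]
        have : (m : ℝ) + -2 * m + m = 0 := by ring
        rw [this, Real.exp_zero, mul_one]

open Classical in
/-- **Anti-concentration.** For every `p > 0` there are `η, c > 0` such that two independent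
vectors of entropy deficiency at most `η k` have inner product in a given interval of length
`2 c √k` with probability at most `p`. -/
theorem ghd_general (p : ℝ) (hp : 0 < p) (hp1 : p ≤ 1) : ∃ η c : ℝ, 0 < η ∧ 0 < c ∧ ∃ k0 : ℕ,
    ∀ k : ℕ, k0 ≤ k → ∀ f g : (Fin k → Bool) → ℝ, (∀ u, 0 ≤ f u) → (∀ v, 0 ≤ g v) →
      (𝔼 u, f u) = 1 → (𝔼 v, g v) = 1 → (𝔼 u, f u * Real.log (f u)) ≤ η * k →
      (𝔼 v, g v * Real.log (g v)) ≤ η * k → ∀ o : (Fin k → Bool) → ℝ,
      (𝔼 u, 𝔼 v, f u * g v *
        (if |(∑ i, (if (u i && v i) then (1 : ℝ) else 0)) - o v| ≤ c * Real.sqrt k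
          then (1 : ℝ) else 0)) ≤ p := by
  set β : ℝ := Real.exp (-(4 * (1 + 4 / p))) / 128 with hβ
  have hβ0 : 0 < β := by positivity
  have hβ1 : β ≤ 1 / 128 := by
    have : Real.exp (-(4 * (1 + 4 / p))) ≤ 1 := by
      rw [Real.exp_le_one_iff]
      have : 0 < 4 / p := by positivity
      linarith
    rw [hβ]; linarith
  refine ⟨p * β / 8, Real.sqrt β, by positivity, Real.sqrt_pos.2 hβ0,
    ⌈9 / (p * β)⌉₊ + 1, ?_⟩
  intro k hk f g hf hg hf1 hg1 hfE hgE o
  have hk9 : 9 / (p * β) ≤ k := by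
    have h1 : (⌈9 / (p * β)⌉₊ : ℝ) ≤ k := by
      have : ⌈9 / (p * β)⌉₊ ≤ k := by omega
      exact_mod_cast this
    exact (Nat.le_ceil _).trans h1
  have hpβ : 0 < p * β := by positivity
  have hk9' : 9 ≤ p * β * k := by
    rw [div_le_iff₀ hpβ] at hk9
    linarith
  have hkpos : 0 < k := by omega
  have hkr : (0 : ℝ) < k := by exact_mod_cast hkpos
  have hβk : 9 ≤ β * k := by
    have : p * (β * k) ≤ 1 * (β * k) := mul_le_mul_of_nonneg_right hp1 (by positivity)
    linarith
  set m := ⌈β * k⌉₊ with hm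
  have hm1 : β * k ≤ m := Nat.le_ceil _
  have hm2 : (m : ℝ) ≤ 2 * (β * k) := by
    have := Nat.ceil_lt_add_one (by positivity : (0 : ℝ) ≤ β * k)
    rw [← hm] at this
    linarith
  have hm0 : 0 < m := by
    have : (0 : ℝ) < m := by linarith
    exact_mod_cast this
  have hm4 : 4 * m ≤ k := by
    have h1 : β * k ≤ 1 / 128 * k := mul_le_mul_of_nonneg_right hβ1 hkr.le
    have : (4 : ℝ) * m ≤ k := by linarith
    exact_mod_cast this
  by_contra hcon
  push Not at hcon
  have hcard : (Fintype.card (Fin k → Bool) : ℝ) = 2 ^ k := by simp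
  have hN : (0 : ℝ) < 2 ^ k := by positivity
  -- the averaged closeness
  set c := Real.sqrt β with hc
  set H : (Fin k → Bool) → ℝ := fun v => 𝔼 u, f u * (if Close c o u v then 1 else 0) with hH
  have hinner : ∀ u v : Fin k → Bool, (∑ i, (if (u i && v i) then (1 : ℝ) else 0))
      = rv u ⬝ᵥ rv v := by
    intro u v
    unfold rv
    simp only [dotProduct]
    refine Finset.sum_congr rfl fun i _ => ?_
    cases u i <;> cases v i <;> simp
  have hswap : (𝔼 u, 𝔼 v, f u * g v *
        (if |(∑ i, (if (u i && v i) then (1 : ℝ) else 0)) - o v| ≤ c * Real.sqrt k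
          then (1 : ℝ) else 0)) = 𝔼 v, g v * H v := by
    rw [Finset.expect_comm]
    refine Finset.expect_congr rfl fun v _ => ?_
    rw [hH]
    simp only
    rw [Finset.mul_expect]
    refine Finset.expect_congr rfl fun u _ => ?_
    rw [hinner]
    unfold Close
    ring
  have hpH : p < 𝔼 v, g v * H v := by
    rw [← hswap]; exact hcon
  have hH1 : ∀ v, H v ≤ 1 := by
    intro v
    rw [← hf1, hH]
    refine Finset.expect_le_expect fun u _ => ?_
    have := hf u
    split_ifs <;> simp [this]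
  have hEk : p * β / 8 * k + 1 ≤ (p / 4) * (k / 32) := by
    have h1 : p * β / 8 * k ≤ p * (1 / 128) / 8 * k := by
      have : p * β ≤ p * (1 / 128) := mul_le_mul_of_nonneg_left hβ1 hp.le
      nlinarith
    have h2 : 9 * 128 ≤ p * k := by
      have : p * β * k ≤ p * (1 / 128) * k := by
        have : p * β ≤ p * (1 / 128) := mul_le_mul_of_nonneg_left hβ1 hp.le
        nlinarith
      linarith
    linarith
  obtain ⟨v, y, h1, h2, h3⟩ := select hkpos g H hg hg1 hgE hH1 hp.le hpH hEk m hm4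
  have hcm : c ^ 2 * k ≤ m := by
    rw [hc, Real.sq_sqrt hβ0.le]; exact hm1
  have hK : Real.exp (4 * (1 + 4 / p)) ≤ (k : ℝ) / 64 / m := by
    have hm0r : (0 : ℝ) < m := by exact_mod_cast hm0
    rw [le_div_iff₀ hm0r]
    have h4 : Real.exp (4 * (1 + 4 / p)) * β = 1 / 128 := by
      rw [hβ, ← mul_div_assoc, ← Real.exp_add]
      simp
    have h5 := Real.exp_pos (4 * (1 + 4 / p))
    have h6 : Real.exp (4 * (1 + 4 / p)) * m ≤ Real.exp (4 * (1 + 4 / p)) * (2 * (β * k)) :=
      mul_le_mul_of_nonneg_left hm2 h5.le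
    have h7 : Real.exp (4 * (1 + 4 / p)) * (2 * (β * k))
        = 2 * k * (Real.exp (4 * (1 + 4 / p)) * β) := by ring
    rw [h7, h4] at h6
    linarith
  have hA := many_close_card hm0 (o := o) hp (Real.sqrt_nonneg β) hcm hK v y h1 h2
  set A := Finset.univ.filter fun u : Fin k → Bool =>
      p / 2 * m ≤ ((Finset.univ.filter fun i => Close c o u (v i)).card : ℝ) with hAdef
  have htr := transfer f hf hf1 hfE A (s := (m : ℝ)) (by rw [hcard]; exact hA) (by positivity)
  rw [hcard] at htr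
  -- average over the family
  have hsum : ∑ i, H (v i) = 𝔼 u, f u * ((Finset.univ.filter fun i => Close c o u (v i)).card : ℝ) := by
    rw [hH]
    simp only
    rw [← Finset.expect_sum_comm]
    refine Finset.expect_congr rfl fun u _ => ?_
    rw [← Finset.mul_sum]
    congr 1
    simp
  have hlow : 3 / 4 * p * m ≤ ∑ i, H (v i) := by
    calc 3 / 4 * p * m = ∑ _i : Fin m, 3 / 4 * p := by simp [mul_comm]
      _ ≤ _ := Finset.sum_le_sum fun i _ => h3 i
  rw [hsum, Fintype.expect_eq_sum_div_card, hcard, le_div_iff₀ hN] at hlow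
  rw [Fintype.expect_eq_sum_div_card, hcard, div_eq_iff hN.ne', one_mul] at hf1
  have hup : ∑ u, f u * ((Finset.univ.filter fun i => Close c o u (v i)).card : ℝ)
      ≤ m * ∑ u ∈ A, f u + p / 2 * m * 2 ^ k := by
    have h4 : ∀ u, f u * ((Finset.univ.filter fun i => Close c o u (v i)).card : ℝ) ≤
        m * (if u ∈ A then f u else 0) + p / 2 * m * f u := by
      intro u
      have hfu := hf u
      have hcm' : ((Finset.univ.filter fun i => Close c o u (v i)).card : ℝ) ≤ m := by
        have := Finset.card_le_univ (Finset.univ.filter fun i : Fin m => Close c o u (v i))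
        rw [Fintype.card_fin] at this
        exact_mod_cast this
      by_cases hu : u ∈ A
      · rw [if_pos hu]
        have : 0 ≤ p / 2 * m * f u := by positivity
        nlinarith
      · rw [if_neg hu]
        have : ((Finset.univ.filter fun i => Close c o u (v i)).card : ℝ) ≤ p / 2 * m := by
          by_contra hlt
          push Not at hlt
          exact hu (by rw [hAdef, Finset.mem_filter]; exact ⟨Finset.mem_univ _, hlt.le⟩)
        nlinarith
    refine (Finset.sum_le_sum fun u _ => h4 u).trans (le_of_eq ?_)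
    rw [Finset.sum_add_distrib, ← Finset.mul_sum, ← Finset.mul_sum, hf1, ← Finset.sum_filter,
      Finset.filter_mem_eq_inter, Finset.univ_inter]
  have h5 : p / 4 * m * 2 ^ k ≤ (p * β / 8 * k + 1) * 2 ^ k := by linarith
  have h6 : p / 4 * m ≤ p * β / 8 * k + 1 := le_of_mul_le_mul_right h5 hN
  have h7 : p / 4 * (β * k) ≤ p / 4 * m := mul_le_mul_of_nonneg_left hm1 (by positivity)
  linarith

end Pool.Agent.H76.SIJ.Ghd
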