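import Mathlib

/-!
Small ball estimate for Rademacher type sums, by a determinant potential.
-/

open Finset Matrix

namespace Pool.Agent.H76.SIJ.Ghd

section

variable {ι : Type*} [Fintype ι] [DecidableEq ι]

/-- quadratic form of the inverse matrix -/
noncomputable def Q (B : Matrix ι ι ℝ) (x : ι → ℝ) : ℝ := x ⬝ᵥ (B⁻¹ *ᵥ x)

omit [DecidableEq ι] in
lemma posSemidef_vmv (p : ι → ℝ) : (vecMulVec p p).PosSemidef := by
  have := posSemidef_vecMulVec_self_star p
  rwa [star_trivial] at this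

lemma det_add_vmv {B : Matrix ι ι ℝ} (hB : B.PosDef) (c : ℝ) (p : ι → ℝ) :
    (B + c • vecMulVec p p).det = B.det * (1 + c * Q B p) := by
  have hu : IsUnit B.det := (Matrix.isUnit_iff_isUnit_det B).1 hB.isUnit
  have h := det_add_replicateCol_mul_replicateRow (ι := Unit) hu (c • p) p
  have e1 : replicateCol Unit (c • p) * replicateRow Unit p = c • vecMulVec p p := by
    ext i j
    simp [Matrix.mul_apply, vecMulVec_apply, mul_assoc]
  rw [e1] at h
  rw [h]
  congr 1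
  rw [det_unique, Matrix.add_apply, Matrix.one_apply_eq]
  congr 1
  unfold Q
  simp only [Matrix.mul_apply, replicateRow_apply, replicateCol_apply, dotProduct, mulVec,
    Pi.smul_apply, smul_eq_mul]
  rw [Finset.mul_sum]
  rw [Finset.sum_congr rfl (fun x _ => Finset.sum_mul _ _ _)]
  rw [Finset.sum_comm]
  refine Finset.sum_congr rfl fun i _ => ?_
  rw [Finset.mul_sum, Finset.mul_sum]
  refine Finset.sum_congr rfl fun j _ => ?_
  ring

lemma posDef_add_vmv {B : Matrix ι ι ℝ} (hB : B.PosDef) {c : ℝ} (hc : 0 ≤ c) (p : ι → ℝ) :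
    (B + c • vecMulVec p p).PosDef :=
  hB.add_posSemidef ((posSemidef_vmv p).smul hc)

lemma inv_symm {B : Matrix ι ι ℝ} (hB : B.PosDef) (x y : ι → ℝ) :
    x ⬝ᵥ (B⁻¹ *ᵥ y) = y ⬝ᵥ (B⁻¹ *ᵥ x) := by
  have h1 : (B⁻¹)ᵀ = B⁻¹ := by
    have := hB.inv.isHermitian
    rwa [Matrix.IsHermitian, conjTranspose_eq_transpose_of_trivial] at this
  rw [dotProduct_mulVec, ← mulVec_transpose, h1, dotProduct_comm]

lemma Q_nonneg {B : Matrix ι ι ℝ} (hB : B.PosDef) (x : ι → ℝ) : 0 ≤ Q B x := by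
  have := hB.inv.posSemidef.dotProduct_mulVec_nonneg x
  rwa [star_trivial] at this

lemma Q_add_vmv {B : Matrix ι ι ℝ} (hB : B.PosDef) {c : ℝ} (hc : 0 ≤ c) (p x : ι → ℝ) :
    Q (B + c • vecMulVec p p) x = Q B x - c * (p ⬝ᵥ (B⁻¹ *ᵥ x)) ^ 2 / (1 + c * Q B p) := by
  set B' := B + c • vecMulVec p p with hB'
  have hPD : B'.PosDef := posDef_add_vmv hB hc p
  have hu : IsUnit B.det := (Matrix.isUnit_iff_isUnit_det B).1 hB.isUnit
  have hu' : IsUnit B'.det := (Matrix.isUnit_iff_isUnit_det B').1 hPD.isUnit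
  have hq := Q_nonneg hB p
  have hpos : 0 < 1 + c * Q B p := by positivity
  set s : ℝ := c * (p ⬝ᵥ (B⁻¹ *ᵥ x)) / (1 + c * Q B p) with hs
  set z : ι → ℝ := B⁻¹ *ᵥ x - s • (B⁻¹ *ᵥ p) with hz
  have hz1 : B' *ᵥ z = x := by
    rw [hB', add_mulVec, hz, mulVec_sub, mulVec_smul, mulVec_mulVec, mulVec_mulVec,
      Matrix.mul_nonsing_inv _ hu, one_mulVec, one_mulVec, smul_mulVec]
    have e : vecMulVec p p *ᵥ (B⁻¹ *ᵥ x - s • (B⁻¹ *ᵥ p))
        = (p ⬝ᵥ (B⁻¹ *ᵥ x) - s * Q B p) • p := by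
      ext i
      rw [vecMulVec_mulVec]
      simp only [Pi.smul_apply, MulOpposite.smul_eq_mul_unop, MulOpposite.unop_op, smul_eq_mul]
      rw [dotProduct_sub, dotProduct_smul, smul_eq_mul]
      unfold Q
      ring
    rw [e]
    have hs2 : s * (1 + c * Q B p) = c * (p ⬝ᵥ (B⁻¹ *ᵥ x)) := by
      rw [hs]; field_simp
    ext i
    simp only [Pi.add_apply, Pi.sub_apply, Pi.smul_apply, smul_eq_mul]
    linear_combination (-(p i)) * hs2
  have hz2 : B'⁻¹ *ᵥ x = z := by
    rw [← hz1, mulVec_mulVec, Matrix.nonsing_inv_mul _ hu', one_mulVec]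
  unfold Q
  rw [hz2, hz, dotProduct_sub, dotProduct_smul, smul_eq_mul, inv_symm hB x p, hs]
  unfold Q
  ring

lemma Q_sub {B : Matrix ι ι ℝ} (hB : B.PosDef) (s : ℝ) (p y : ι → ℝ) :
    Q B (y + s • p) = Q B y + 2 * s * (p ⬝ᵥ (B⁻¹ *ᵥ y)) + s ^ 2 * Q B p := by
  unfold Q
  rw [mulVec_add, mulVec_smul, dotProduct_add, add_dotProduct, add_dotProduct,
    dotProduct_smul, dotProduct_smul, smul_dotProduct, smul_dotProduct, inv_symm hB y p]
  simp only [smul_eq_mul]
  ring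

/-- one averaging step -/
lemma step {B : Matrix ι ι ℝ} (hB : B.PosDef) (p x : ι → ℝ) (hp : Q B p ≤ 1) :
    Real.exp (-Q B x) + Real.exp (-Q B (x + p)) ≤
      2 * (Real.exp (-(Q B p) / 4) *
        Real.exp (-Q (B + (1 / (2 - Q B p)) • vecMulVec p p) (x + (1 / 2 : ℝ) • p))) := by
  set q := Q B p with hq
  have hq0 : 0 ≤ q := Q_nonneg hB p
  have h2q : 0 < 2 - q := by linarith
  set y : ι → ℝ := x + (1 / 2 : ℝ) • p with hy
  set L : ℝ := p ⬝ᵥ (B⁻¹ *ᵥ y) with hL
  have e1 : Q B x = Q B y - L + q / 4 := by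
    have : x = y + (-(1 / 2) : ℝ) • p := by
      rw [hy]; ext i; simp
    rw [this, Q_sub hB, ← hL, ← hq]
    ring
  have e2 : Q B (x + p) = Q B y + L + q / 4 := by
    have : x + p = y + ((1 / 2) : ℝ) • p := by
      rw [hy]; ext i; simp; ring
    rw [this, Q_sub hB, ← hL, ← hq]
    ring
  have e3 : Q (B + (1 / (2 - q)) • vecMulVec p p) y = Q B y - L ^ 2 / 2 := by
    rw [Q_add_vmv hB (by positivity) p y, ← hL, ← hq]
    have : 1 + 1 / (2 - q) * q = 2 / (2 - q) := by field_simp; ring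
    rw [this]
    field_simp
  rw [e1, e2, e3]
  have hc := Real.cosh_le_exp_half_sq L
  rw [Real.cosh_eq] at hc
  have h1 : Real.exp (-(Q B y - L + q / 4)) = Real.exp (-Q B y - q / 4) * Real.exp L := by
    rw [← Real.exp_add]; congr 1; ring
  have h2 : Real.exp (-(Q B y + L + q / 4)) = Real.exp (-Q B y - q / 4) * Real.exp (-L) := by
    rw [← Real.exp_add]; congr 1; ring
  have h3 : Real.exp (-q / 4) * Real.exp (-(Q B y - L ^ 2 / 2))
      = Real.exp (-Q B y - q / 4) * Real.exp (L ^ 2 / 2) := by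
    rw [← Real.exp_add, ← Real.exp_add]; congr 1; ring
  rw [h1, h2, h3]
  have hpos := Real.exp_pos (-Q B y - q / 4)
  nlinarith [mul_le_mul_of_nonneg_left hc hpos.le]

lemma exp_quarter {q : ℝ} (h0 : 0 ≤ q) (h1 : q ≤ 1) :
    Real.exp (-q / 4) ≤ ((2 - q) / 2) ^ (1 / 4 : ℝ) := by
  have h2 : Real.exp (-q) ≤ (2 - q) / 2 := by
    have h3 : 1 + q ≤ Real.exp q := by linarith [Real.add_one_le_exp q]
    have h4 : Real.exp (-q) * Real.exp q = 1 := by
      rw [← Real.exp_add]; simp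
    have h5 : 1 ≤ (2 - q) / 2 * Real.exp q := by nlinarith
    have h6 := Real.exp_pos q
    nlinarith
  have h3 : Real.exp (-q / 4) = (Real.exp (-q)) ^ (1 / 4 : ℝ) := by
    rw [← Real.exp_mul]; congr 1; ring
  rw [h3]
  exact Real.rpow_le_rpow (Real.exp_pos _).le h2 (by norm_num)

lemma posDef_sum {κ : Type*} {B : Matrix ι ι ℝ} (hB : B.PosDef) {c : ℝ} (hc : 0 ≤ c)
    (S : Finset κ) (p : κ → ι → ℝ) :
    (B + c • ∑ j ∈ S, vecMulVec (p j) (p j)).PosDef := by
  refine hB.add_posSemidef (PosSemidef.smul ?_ hc)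
  exact posSemidef_sum _ fun j _ => posSemidef_vmv (p j)

/-- **Small ball estimate.** -/
theorem small_ball {κ : Type*} [DecidableEq κ] (p : κ → ι → ℝ) (S : Finset κ) :
    ∀ (B : Matrix ι ι ℝ), B.PosDef → (∀ j ∈ S, Q B (p j) ≤ 1) → ∀ r : ι → ℝ,
      ∑ T ∈ S.powerset, Real.exp (-Q B (r + ∑ j ∈ T, p j)) ≤
        2 ^ S.card * (B.det / (B + (1 / 2 : ℝ) • ∑ j ∈ S, vecMulVec (p j) (p j)).det)
          ^ (1 / 4 : ℝ) := by
  induction S using Finset.induction_on with
  | empty =>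
    intro B hB _ r
    have hd : B.det ≠ 0 := hB.det_pos.ne'
    simp only [powerset_empty, sum_singleton, sum_empty, add_zero, smul_zero, card_empty, pow_zero,
      one_mul, div_self hd, Real.one_rpow]
    rw [Real.exp_le_one_iff]
    linarith [Q_nonneg hB r]
  | insert a S ha ih =>
    intro B hB hS r
    have hq1 : Q B (p a) ≤ 1 := hS a (mem_insert_self _ _)
    have hq0 : 0 ≤ Q B (p a) := Q_nonneg hB _
    set q := Q B (p a) with hq
    have h2q : 0 < 2 - q := by linarith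
    set B' := B + (1 / (2 - q)) • vecMulVec (p a) (p a) with hB'
    have hPD : B'.PosDef := posDef_add_vmv hB (by positivity) _
    rw [Finset.sum_powerset_insert ha, ← Finset.sum_add_distrib]
    have key : ∀ T ∈ S.powerset,
        Real.exp (-Q B (r + ∑ j ∈ T, p j)) + Real.exp (-Q B (r + ∑ j ∈ insert a T, p j))
          ≤ 2 * (Real.exp (-q / 4) *
            Real.exp (-Q B' ((r + (1 / 2 : ℝ) • p a) + ∑ j ∈ T, p j))) := by
      intro T hT
      have haT : a ∉ T := fun h => ha (Finset.mem_powerset.1 hT h)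
      rw [Finset.sum_insert haT]
      have := step hB (p a) (r + ∑ j ∈ T, p j) hq1
      rw [← hq] at this
      rw [← hB'] at this
      have e1 : r + ∑ j ∈ T, p j + p a = r + (p a + ∑ j ∈ T, p j) := by
        abel
      have e2 : r + ∑ j ∈ T, p j + (1 / 2 : ℝ) • p a
          = r + (1 / 2 : ℝ) • p a + ∑ j ∈ T, p j := by abel
      rw [e1, e2] at this
      exact this
    refine (Finset.sum_le_sum key).trans ?_
    rw [← Finset.mul_sum, ← Finset.mul_sum]
    have hih := ih B' hPD (by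
      intro j hj
      have h1 := Q_add_vmv hB (c := 1 / (2 - q)) (by positivity) (p a) (p j)
      rw [← hB'] at h1
      have h2 : 0 ≤ 1 / (2 - q) * (p a ⬝ᵥ (B⁻¹ *ᵥ p j)) ^ 2 / (1 + 1 / (2 - q) * Q B (p a)) := by
        rw [← hq]; positivity
      have h3 := hS j (mem_insert_of_mem hj)
      linarith) (r + (1 / 2 : ℝ) • p a)
    have hdet' : B'.det = B.det * (2 / (2 - q)) := by
      rw [hB', det_add_vmv hB, ← hq]
      congr 1
      field_simp; ring
    set X := B + (1 / 2 : ℝ) • ∑ j ∈ insert a S, vecMulVec (p j) (p j) with hX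
    set Y := B' + (1 / 2 : ℝ) • ∑ j ∈ S, vecMulVec (p j) (p j) with hY
    have hXPD : X.PosDef := posDef_sum hB (by norm_num) _ _
    have hYPD : Y.PosDef := posDef_sum hPD (by norm_num) _ _
    have hYX : Y = X + (1 / (2 - q) - 1 / 2) • vecMulVec (p a) (p a) := by
      rw [hY, hX, hB', Finset.sum_insert ha, sub_smul, smul_add]
      abel
    have hcc : 0 ≤ 1 / (2 - q) - 1 / 2 := by
      rw [sub_nonneg]
      exact one_div_le_one_div_of_le h2q (by linarith)
    have hdetYX : X.det ≤ Y.det := by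
      rw [hYX, det_add_vmv hXPD]
      have h5 : 0 ≤ (1 / (2 - q) - 1 / 2) * Q X (p a) := mul_nonneg hcc (Q_nonneg hXPD _)
      nlinarith [hXPD.det_pos]
    have hA : (0 : ℝ) ≤ 2 ^ (insert a S).card := by positivity
    have hXp := hXPD.det_pos
    have hYp := hYPD.det_pos
    have hBp := hB.det_pos
    have hBp' := hPD.det_pos
    have hr : ((2 - q) / 2) ^ (1 / 4 : ℝ) * (B'.det / Y.det) ^ (1 / 4 : ℝ)
        ≤ (B.det / X.det) ^ (1 / 4 : ℝ) := by
      rw [← Real.mul_rpow (by positivity) (by positivity)]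
      refine Real.rpow_le_rpow (by positivity) ?_ (by norm_num)
      have e : (2 - q) / 2 * (B'.det / Y.det) = B.det / Y.det := by
        rw [hdet']; field_simp
      rw [e]
      exact div_le_div_of_nonneg_left hBp.le hXp hdetYX
    calc 2 * (Real.exp (-q / 4) * ∑ T ∈ S.powerset,
            Real.exp (-Q B' (r + (1 / 2 : ℝ) • p a + ∑ j ∈ T, p j)))
        ≤ 2 * (((2 - q) / 2) ^ (1 / 4 : ℝ) * (2 ^ S.card * (B'.det / Y.det) ^ (1 / 4 : ℝ))) := by
          refine mul_le_mul_of_nonneg_left ?_ (by norm_num)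
          refine mul_le_mul (exp_quarter hq0 hq1) hih ?_ (by positivity)
          exact Finset.sum_nonneg fun T _ => (Real.exp_pos _).le
      _ = 2 ^ (insert a S).card *
            (((2 - q) / 2) ^ (1 / 4 : ℝ) * (B'.det / Y.det) ^ (1 / 4 : ℝ)) := by
          rw [Finset.card_insert_of_notMem ha, pow_succ]
          ring
      _ ≤ _ := mul_le_mul_of_nonneg_left hr hA

/-- variational lower bound for the form of the inverse -/
lemma Q_ge {N : Matrix ι ι ℝ} (hN : N.PosDef) (y w : ι → ℝ) :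
    2 * (y ⬝ᵥ w) - y ⬝ᵥ (N *ᵥ y) ≤ Q N w := by
  have hu : IsUnit N.det := (Matrix.isUnit_iff_isUnit_det N).1 hN.isUnit
  set z := y - N⁻¹ *ᵥ w with hz
  have h := hN.posSemidef.dotProduct_mulVec_nonneg z
  rw [star_trivial] at h
  have hNz : N *ᵥ z = N *ᵥ y - w := by
    rw [hz, mulVec_sub, mulVec_mulVec, Matrix.mul_nonsing_inv _ hu, one_mulVec]
  rw [hNz, hz, sub_dotProduct, dotProduct_sub, dotProduct_sub] at h
  have hsym : (N⁻¹ *ᵥ w) ⬝ᵥ (N *ᵥ y) = w ⬝ᵥ y := by
    have h1 : Nᵀ = N := by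
      have := hN.isHermitian
      rwa [Matrix.IsHermitian, conjTranspose_eq_transpose_of_trivial] at this
    rw [dotProduct_mulVec, ← mulVec_transpose, h1, mulVec_mulVec,
      Matrix.mul_nonsing_inv _ hu, one_mulVec]
  rw [hsym] at h
  unfold Q
  rw [dotProduct_comm w (N⁻¹ *ᵥ w)]
  rw [dotProduct_comm w y] at h
  linarith

end

section

variable {ι : Type*} [Fintype ι] [LinearOrder ι] {k : ℕ}

lemma dotProduct_N (S : Finset ι) (w : ι → Fin k → ℝ) (y : Fin k → ℝ) :
    y ⬝ᵥ (((1 : Matrix (Fin k) (Fin k) ℝ) + (1 / 2 : ℝ) • ∑ i ∈ S, vecMulVec (w i) (w i)) *ᵥ y)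
      = y ⬝ᵥ y + (1 / 2) * ∑ i ∈ S, (y ⬝ᵥ w i) ^ 2 := by
  rw [add_mulVec, one_mulVec, dotProduct_add, smul_mulVec, dotProduct_smul, smul_eq_mul]
  congr 2
  rw [Matrix.sum_mulVec, dotProduct_sum]
  refine Finset.sum_congr rfl fun i _ => ?_
  rw [vecMulVec_mulVec]
  simp only [dotProduct, Pi.smul_apply, MulOpposite.smul_eq_mul_unop, MulOpposite.unop_op]
  rw [sq, Finset.sum_mul]
  refine Finset.sum_congr rfl fun j _ => ?_
  rw [mul_assoc]
  congr 2
  exact Finset.sum_congr rfl fun _ _ => mul_comm _ _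

lemma det_ge (w y : ι → Fin k → ℝ) (D : ℝ) (hD : 0 ≤ D)
    (hy : ∀ i i' : ι, i' < i → y i ⬝ᵥ w i' = 0)
    (hyD : ∀ i : ι, D ≤ 2 * (y i ⬝ᵥ w i) - y i ⬝ᵥ y i) (S : Finset ι) :
    (1 + D / 2) ^ S.card ≤
      ((1 : Matrix (Fin k) (Fin k) ℝ) + (1 / 2 : ℝ) • ∑ i ∈ S, vecMulVec (w i) (w i)).det := by
  induction S using Finset.induction_on_max with
  | empty => simp
  | insert a S hlt ih =>
    have ha : a ∉ S := fun h => lt_irrefl _ (hlt a h)
    set N := ((1 : Matrix (Fin k) (Fin k) ℝ) + (1 / 2 : ℝ) • ∑ i ∈ S, vecMulVec (w i) (w i)) with hN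
    have hPD : N.PosDef := posDef_sum PosDef.one (by norm_num) _ _
    have e : ((1 : Matrix (Fin k) (Fin k) ℝ) +
        (1 / 2 : ℝ) • ∑ i ∈ insert a S, vecMulVec (w i) (w i))
        = N + (1 / 2 : ℝ) • vecMulVec (w a) (w a) := by
      rw [hN, Finset.sum_insert ha, smul_add]
      abel
    rw [e, det_add_vmv hPD, Finset.card_insert_of_notMem ha, pow_succ]
    have h1 : D ≤ Q N (w a) := by
      refine le_trans ?_ (Q_ge hPD (y a) (w a))
      rw [hN, dotProduct_N]
      have : ∑ i ∈ S, (y a ⬝ᵥ w i) ^ 2 = 0 := by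
        refine Finset.sum_eq_zero fun i hi => ?_
        rw [hy a i (hlt i hi)]; norm_num
      rw [this]
      linarith [hyD a]
    have h2 : 1 + D / 2 ≤ 1 + 1 / 2 * Q N (w a) := by linarith
    exact mul_le_mul ih h2 (by positivity) (by linarith [hPD.det_pos])

/-- **Gaussian type bound** for sums of squares of linear forms on the cube. -/
theorem gauss_bound (w y : ι → Fin k → ℝ) (t : ι → ℝ) (D : ℝ) (hD : 0 ≤ D)
    (hw : ∀ j, ∑ i, w i j ^ 2 ≤ 1)
    (hy : ∀ i i' : ι, i' < i → y i ⬝ᵥ w i' = 0)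
    (hyD : ∀ i : ι, D ≤ 2 * (y i ⬝ᵥ w i) - y i ⬝ᵥ y i) :
    ∑ T ∈ (Finset.univ : Finset (Fin k)).powerset,
      Real.exp (-∑ i, (t i + ∑ j ∈ T, w i j) ^ 2) ≤
      2 ^ k * (((1 + D / 2) ^ Fintype.card ι)⁻¹) ^ (1 / 4 : ℝ) := by
  have h := small_ball (fun j : Fin k => fun i : ι => w i j) Finset.univ
    (1 : Matrix ι ι ℝ) PosDef.one (by
      intro j _
      unfold Q
      rw [inv_one, one_mulVec]
      simp only [dotProduct]
      refine le_trans (le_of_eq ?_) (hw j)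
      exact Finset.sum_congr rfl fun i _ => by ring) t
  have e1 : ∀ T : Finset (Fin k), Q (1 : Matrix ι ι ℝ) (t + ∑ j ∈ T, fun i : ι => w i j)
      = ∑ i, (t i + ∑ j ∈ T, w i j) ^ 2 := by
    intro T
    unfold Q
    rw [inv_one, one_mulVec]
    simp only [dotProduct, Pi.add_apply, Finset.sum_apply]
    exact Finset.sum_congr rfl fun i _ => by ring
  simp only [e1] at h
  refine h.trans ?_
  rw [Finset.card_univ, Fintype.card_fin, det_one]
  refine mul_le_mul_of_nonneg_left ?_ (by positivity)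
  have hdet : ((1 : Matrix ι ι ℝ) + (1 / 2 : ℝ) • ∑ j : Fin k,
      vecMulVec (fun i : ι => w i j) (fun i : ι => w i j)).det
      = ((1 : Matrix (Fin k) (Fin k) ℝ) + (1 / 2 : ℝ) • ∑ i, vecMulVec (w i) (w i)).det := by
    have e2 : ((1 / 2 : ℝ) • ∑ j : Fin k,
        vecMulVec (fun i : ι => w i j) (fun i : ι => w i j))
        = ((1 / 2 : ℝ) • (Matrix.of w)) * (Matrix.of w)ᵀ := by
      ext i i'
      simp only [Matrix.smul_apply, Matrix.sum_apply, vecMulVec_apply, smul_eq_mul,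
        Matrix.mul_apply, Matrix.of_apply, transpose_apply, Finset.mul_sum]
      exact Finset.sum_congr rfl fun j _ => by ring
    have e3 : ((1 / 2 : ℝ) • ∑ i, vecMulVec (w i) (w i))
        = (Matrix.of w)ᵀ * ((1 / 2 : ℝ) • (Matrix.of w)) := by
      ext j j'
      simp only [Matrix.smul_apply, Matrix.sum_apply, vecMulVec_apply, smul_eq_mul,
        Matrix.mul_apply, Matrix.of_apply, transpose_apply, Finset.mul_sum]
      exact Finset.sum_congr rfl fun i _ => by ring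
    rw [e2, e3, det_one_add_mul_comm]
  rw [hdet]
  have hge := det_ge w y D hD hy hyD Finset.univ
  rw [Finset.card_univ] at hge
  refine Real.rpow_le_rpow ?_ ?_ (by norm_num)
  · exact div_nonneg zero_le_one (le_trans (by positivity) hge)
  · rw [one_div]
    exact inv_anti₀ (by positivity) hge

end

end Pool.Agent.H76.SIJ.Ghd
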