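import Pool.Agent.H76.SIJ.Chain

/-!
The information bound for partitions into rectangles with a planted position.
-/

open Finset
open scoped BigOperators

namespace Pool.Agent.H76.SIJ

section info

variable {k : ℕ} {P : Type*} [Fintype P] [DecidableEq P]

/-- Mean of `G` conditioned on the value `b` at the position `p0` of the block `g`. -/
noncomputable def cm (p0 : P) (G : (Fin k → P → Bool) → ℝ) (g : Fin k) (b : Bool) : ℝ :=
  margAt p0 (margAt g G) b

/-- Conditional expectation as a function of the content of the block `g`. -/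
noncomputable def slice (F : (Fin k → P → Bool) → ℝ) (g : Fin k) (x : Fin k → P → Bool)
    (z : P → Bool) : ℝ :=
  condE ((g : ℕ) + 1) F (Function.update x g z)

theorem slice_eq (F : (Fin k → P → Bool) → ℝ) (g : Fin k) (x : Fin k → P → Bool)
    (z : P → Bool) :
    slice F g x z = 𝔼 x' : Fin k → P → Bool, F (Function.update (mix (g : ℕ) x x') g z) := by
  unfold slice condE
  simp only [update_mix_succ]

theorem slice_nonneg (F : (Fin k → P → Bool) → ℝ) (hF : ∀ x, 0 ≤ F x) (g : Fin k)
    (x : Fin k → P → Bool) (z : P → Bool) : 0 ≤ slice F g x z :=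
  condE_nonneg _ F hF _

theorem expect_slice (F : (Fin k → P → Bool) → ℝ) (g : Fin k) (z : P → Bool) :
    (𝔼 x, slice F g x z) = margAt g F z := (margAt_eq_expect_condE g F z).symm

theorem cm_nonneg (p0 : P) (G : (Fin k → P → Bool) → ℝ) (hG : ∀ y, 0 ≤ G y) (g : Fin k)
    (b : Bool) : 0 ≤ cm p0 G g b :=
  margAt_nonneg _ _ (fun z => margAt_nonneg _ _ hG z) _

theorem expect_cm (p0 : P) (G : (Fin k → P → Bool) → ℝ) (g : Fin k) :
    (𝔼 b, cm p0 G g b) = 𝔼 y, G y := by
  unfold cm
  rw [expect_margAt, expect_margAt]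

theorem expect_bool (f : Bool → ℝ) : (𝔼 b, f b) = (f true + f false) / 2 := by
  rw [Fintype.expect_eq_sum_div_card]
  simp

theorem cm_le (p0 : P) (G : (Fin k → P → Bool) → ℝ) (hG : ∀ y, 0 ≤ G y) (g : Fin k)
    (b : Bool) : cm p0 G g b ≤ 2 * 𝔼 y, G y := by
  rw [← expect_cm p0 G g, expect_bool]
  have h1 := cm_nonneg p0 G hG g true
  have h2 := cm_nonneg p0 G hG g false
  cases b <;> linarith

theorem margAt_swap (p0 i : P) (φ : (P → Bool) → ℝ) (b : Bool) :
    margAt p0 (fun z => φ (fun q => z (Equiv.swap p0 i q))) b = margAt i φ b := by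
  unfold margAt
  have e : ∀ z : P → Bool, (fun q => Function.update z p0 b (Equiv.swap p0 i q))
      = Function.update ((Equiv.arrowCongr (Equiv.swap p0 i) (Equiv.refl Bool)) z) i b := by
    intro z
    funext q
    by_cases hq : q = i
    · subst hq
      simp
    · rw [Function.update_of_ne hq, Function.update_of_ne]
      · simp [Equiv.arrowCongr]
      · intro h
        apply hq
        have := congrArg (Equiv.swap p0 i) h
        simpa using this
  simp only [e]
  exact expect_equiv' (Equiv.arrowCongr (Equiv.swap p0 i) (Equiv.refl Bool))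
    (fun z => φ (Function.update z i b))

variable {L : Type*} [Fintype L]

theorem log_bound (w : L → ℝ) (hw : ∀ l, 0 ≤ w l) (hs : ∑ l, w l = 1) :
    - ∑ l, w l * Real.log (w l) ≤ Real.log (Fintype.card L) := by
  have hne : Nonempty L := by
    by_contra h
    rw [not_nonempty_iff] at h
    simp at hs
  have hc : (0 : ℝ) < Fintype.card L := by exact_mod_cast Fintype.card_pos
  have h1 : ∀ l, w l - 1 / (Fintype.card L : ℝ) ≤
      w l * Real.log (w l) + w l * Real.log (Fintype.card L) := by
    intro l
    have := tangent (hw l) (y := 1 / (Fintype.card L : ℝ)) (by positivity)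
    rw [Real.log_div one_ne_zero hc.ne', Real.log_one] at this
    linarith
  have h2 := Finset.sum_le_sum (fun l (_ : l ∈ (Finset.univ : Finset L)) => h1 l)
  rw [Finset.sum_sub_distrib, Finset.sum_add_distrib, ← Finset.sum_mul, hs] at h2
  simp only [Finset.sum_const, Finset.card_univ, nsmul_eq_mul] at h2
  rw [mul_one_div_cancel hc.ne'] at h2
  linarith

theorem sum_Ent_le (F G : L → (Fin k → P → Bool) → ℝ)
    (hF : ∀ l x, F l x = 0 ∨ F l x = 1) (hG : ∀ l y, 0 ≤ G l y) (hG1 : ∀ l y, G l y ≤ 1)
    (hFG : ∀ x y, ∑ l, F l x * G l y = 1) :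
    ∑ l, (𝔼 y, G l y) * Ent (F l) ≤ Real.log (Fintype.card L) := by
  have hF0 : ∀ l x, 0 ≤ F l x := fun l x => by rcases hF l x with h | h <;> simp [h]
  have hE : ∀ l, Ent (F l) = - ((𝔼 x, F l x) * Real.log (𝔼 x, F l x)) := by
    intro l
    unfold Ent
    have : ∀ x, F l x * Real.log (F l x) = 0 := by
      intro x
      rcases hF l x with h | h <;> simp [h]
    simp [this]
  have hw : ∑ l, (𝔼 x, F l x) * (𝔼 y, G l y) = 1 := by
    have h1 : (𝔼 x : Fin k → P → Bool, 𝔼 y : Fin k → P → Bool, ∑ l, F l x * G l y) = 1 := by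
      simp [hFG]
    rw [← h1]
    have h2 : ∀ x : Fin k → P → Bool, (𝔼 y : Fin k → P → Bool, ∑ l, F l x * G l y)
        = ∑ l, F l x * 𝔼 y, G l y := by
      intro x
      rw [expect_sum]
      apply Finset.sum_congr rfl
      intro l _
      rw [Finset.mul_expect]
    simp only [h2]
    rw [expect_sum]
    apply Finset.sum_congr rfl
    intro l _
    rw [Finset.expect_mul]
  refine le_trans ?_ (log_bound (fun l => (𝔼 x, F l x) * (𝔼 y, G l y))
    (fun l => mul_nonneg (expect_nonneg' (hF0 l)) (expect_nonneg' (hG l))) hw)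
  rw [← Finset.sum_neg_distrib]
  apply Finset.sum_le_sum
  intro l _
  rw [hE l]
  have hg0 : 0 ≤ 𝔼 y, G l y := expect_nonneg' (hG l)
  have hg1 : (𝔼 y, G l y) ≤ 1 := by
    calc (𝔼 y, G l y) ≤ 𝔼 _y : Fin k → P → Bool, (1 : ℝ) := expect_mono (hG1 l)
      _ = 1 := by simp
  have hf0 : 0 ≤ 𝔼 x, F l x := expect_nonneg' (hF0 l)
  rcases hg0.eq_or_lt with hg | hg
  · simp [← hg]
  rcases hf0.eq_or_lt with hf | hf
  · simp [← hf]
  rw [Real.log_mul hf.ne' hg.ne']
  have : Real.log (𝔼 y, G l y) ≤ 0 := Real.log_nonpos hg.le hg1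
  have h3 : 0 ≤ (𝔼 x, F l x) * (𝔼 y, G l y) := by positivity
  nlinarith

variable {S : Type*} [Fintype S] [Nonempty S]

/-- The information bound. -/
theorem info_bound (p0 : P) (T : Fin k → P → Equiv.Perm S)
    (F G : L → S → (Fin k → P → Bool) → ℝ)
    (hF : ∀ l s x, F l s x = 0 ∨ F l s x = 1) (hG : ∀ l s y, 0 ≤ G l s y)
    (hG1 : ∀ l s y, G l s y ≤ 1)
    (hFG : ∀ s x y, ∑ l, F l s x * G l s y = 1)
    (hTF : ∀ g i l s x, F l (T g i s) x =
      F l s (Function.update x g (fun q => x g (Equiv.swap p0 i q))))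
    (hTG : ∀ g i l s y, y g p0 = false → G l (T g i s) y = G l s y) :
    ∑ g : Fin k, 𝔼 s, ∑ l, cm p0 (G l s) g false * (𝔼 x, Ent (margAt p0 (slice (F l s) g x)))
      ≤ 2 * Real.log (Fintype.card L) / Fintype.card P := by
  have hP : (0 : ℝ) < Fintype.card P := by
    have : Nonempty P := ⟨p0⟩
    exact_mod_cast Fintype.card_pos
  have hF0 : ∀ l s x, 0 ≤ F l s x := fun l s x => by rcases hF l s x with h | h <;> simp [h]
  -- symmetry of the slices
  have hslice : ∀ g i l s x, slice (F l (T g i s)) g x
      = fun z => slice (F l s) g x (fun q => z (Equiv.swap p0 i q)) := by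
    intro g i l s x
    funext z
    rw [slice_eq, slice_eq]
    apply Finset.expect_congr rfl
    intro x' _
    rw [hTF]
    congr 1
    rw [Function.update_self, Function.update_idem]
  have hmarg : ∀ g i l s x, margAt p0 (slice (F l (T g i s)) g x)
      = margAt i (slice (F l s) g x) := by
    intro g i l s x
    rw [hslice]
    funext b
    exact margAt_swap p0 i _ b
  have hcm : ∀ g i l s, cm p0 (G l (T g i s)) g false = cm p0 (G l s) g false := by
    intro g i l s
    unfold cm margAt
    apply Finset.expect_congr rfl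
    intro z _
    apply Finset.expect_congr rfl
    intro y _
    apply hTG
    simp
  -- symmetrisation
  have hsym : ∀ g i, (𝔼 s, ∑ l, cm p0 (G l s) g false *
      (𝔼 x, Ent (margAt p0 (slice (F l s) g x))))
      = 𝔼 s, ∑ l, cm p0 (G l s) g false * (𝔼 x, Ent (margAt i (slice (F l s) g x))) := by
    intro g i
    rw [← expect_equiv' (T g i)]
    apply Finset.expect_congr rfl
    intro s _
    apply Finset.sum_congr rfl
    intro l _
    rw [hcm]
    congr 1
    apply Finset.expect_congr rfl
    intro x _
    rw [hmarg]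
  have hstep : ∀ g, (Fintype.card P : ℝ) * (𝔼 s, ∑ l, cm p0 (G l s) g false *
      (𝔼 x, Ent (margAt p0 (slice (F l s) g x))))
      ≤ 𝔼 s, ∑ l, 2 * (𝔼 y, G l s y) * (𝔼 x, Ent (slice (F l s) g x)) := by
    intro g
    calc (Fintype.card P : ℝ) * (𝔼 s, ∑ l, cm p0 (G l s) g false *
          (𝔼 x, Ent (margAt p0 (slice (F l s) g x))))
        = ∑ i : P, 𝔼 s, ∑ l, cm p0 (G l s) g false *
            (𝔼 x, Ent (margAt i (slice (F l s) g x))) := by
          rw [← Finset.sum_congr rfl (fun i _ => hsym g i)]
          simp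
      _ = 𝔼 s, ∑ l, cm p0 (G l s) g false *
            (𝔼 x, ∑ i : P, Ent (margAt i (slice (F l s) g x))) := by
          rw [← expect_sum]
          apply Finset.expect_congr rfl
          intro s _
          rw [Finset.sum_comm]
          apply Finset.sum_congr rfl
          intro l _
          rw [← Finset.mul_sum, expect_sum]
      _ ≤ 𝔼 s, ∑ l, 2 * (𝔼 y, G l s y) * (𝔼 x, Ent (slice (F l s) g x)) := by
          apply expect_mono
          intro s
          apply Finset.sum_le_sum
          intro l _
          apply mul_le_mul (cm_le p0 (G l s) (hG l s) g false)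
          · apply expect_mono
            intro x
            exact Ent_superadd _ (slice_nonneg _ (hF0 l s) g x)
          · apply expect_nonneg'
            intro x
            apply Finset.sum_nonneg
            intro i _
            exact Ent_nonneg _ (margAt_nonneg _ _ (slice_nonneg _ (hF0 l s) g x))
          · have := expect_nonneg' (hG l s)
            linarith
  have hsum : (Fintype.card P : ℝ) * ∑ g, (𝔼 s, ∑ l, cm p0 (G l s) g false *
      (𝔼 x, Ent (margAt p0 (slice (F l s) g x)))) ≤ 2 * Real.log (Fintype.card L) := by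
    rw [Finset.mul_sum]
    refine le_trans (Finset.sum_le_sum fun g _ => hstep g) ?_
    calc (∑ g, 𝔼 s, ∑ l, 2 * (𝔼 y, G l s y) * (𝔼 x, Ent (slice (F l s) g x)))
        = 𝔼 s, ∑ l, 2 * (𝔼 y, G l s y) * Ent (F l s) := by
          rw [← expect_sum]
          apply Finset.expect_congr rfl
          intro s _
          rw [Finset.sum_comm]
          apply Finset.sum_congr rfl
          intro l _
          rw [← Finset.mul_sum]
          congr 1
          exact (Ent_chain (F l s)).symm
      _ ≤ 𝔼 _s : S, 2 * Real.log (Fintype.card L) := by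
          apply expect_mono
          intro s
          have := sum_Ent_le (fun l => F l s) (fun l => G l s) (fun l => hF l s)
            (fun l => hG l s) (fun l => hG1 l s) (hFG s)
          calc (∑ l, 2 * (𝔼 y, G l s y) * Ent (F l s))
              = 2 * ∑ l, (𝔼 y, G l s y) * Ent (F l s) := by
                rw [Finset.mul_sum]
                apply Finset.sum_congr rfl
                intro l _
                ring
            _ ≤ 2 * Real.log (Fintype.card L) := by linarith
      _ = 2 * Real.log (Fintype.card L) := by simp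
  rw [le_div_iff₀ hP]
  linarith

end info

end Pool.Agent.H76.SIJ
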