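import Mathlib

/-!
Probabilistic estimates (over finite uniform spaces) for the sampling protocol.
-/

open Finset
open scoped BigOperators

namespace Pool.Agent.H76.SIJ

/-- Moment generating function of a binomial count. -/
theorem mgf_bound {ι V : Type} [Fintype ι] [DecidableEq ι] [Fintype V] (P : V → Prop)
    [DecidablePred P] (q : ℝ) (hq0 : 0 ≤ q)
    (hq : ((univ.filter P).card : ℝ) = q * Fintype.card V) (R : Finset ι) (s : ℝ)
    (hs : |s| ≤ 1) :
    ∑ h : ι → V, Real.exp (s * (((R.filter fun j => P (h j)).card : ℝ) - q * R.card)) ≤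
      (Fintype.card V : ℝ) ^ (Fintype.card ι) * Real.exp (q * R.card * s ^ 2) := by
  classical
  have h1 : ∀ h : ι → V, Real.exp (s * (((R.filter fun j => P (h j)).card : ℝ) - q * R.card)) =
      Real.exp (-(s * q * R.card)) * ∏ j, (if j ∈ R ∧ P (h j) then Real.exp s else 1) := by
    intro h
    have h2 : ∏ j, (if j ∈ R ∧ P (h j) then Real.exp s else 1) =
        Real.exp s ^ (R.filter fun j => P (h j)).card := by
      rw [← prod_filter, prod_const]
      congr 2
      ext j; simp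
    rw [h2, ← Real.exp_nat_mul, ← Real.exp_add]
    congr 1
    ring
  rw [sum_congr rfl (fun h _ => h1 h), ← mul_sum]
  have h3 : ∑ h : ι → V, ∏ j, (if j ∈ R ∧ P (h j) then Real.exp s else 1) =
      ∏ j, ∑ v : V, (if j ∈ R ∧ P v then Real.exp s else 1) := by
    rw [prod_univ_sum]
    simp [Fintype.piFinset_univ]
  rw [h3]
  have hexp : 1 + q * (Real.exp s - 1) ≤ Real.exp (q * (s + s ^ 2)) := by
    have h4 := Real.abs_exp_sub_one_sub_id_le hs
    have h5 : Real.exp s - 1 ≤ s + s ^ 2 := by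
      have := (abs_le.mp h4).2
      linarith
    have h6 := Real.add_one_le_exp (q * (s + s ^ 2))
    have h7 := mul_le_mul_of_nonneg_left h5 hq0
    linarith
  have hVnn : (0 : ℝ) ≤ Fintype.card V := Nat.cast_nonneg _
  have h8 : ∀ j ∈ (univ : Finset ι), ∑ v : V, (if j ∈ R ∧ P v then Real.exp s else 1) ≤
      (Fintype.card V : ℝ) * (if j ∈ R then Real.exp (q * (s + s ^ 2)) else 1) := by
    intro j _
    by_cases hj : j ∈ R
    · simp only [hj, true_and, if_true]
      have : ∑ v : V, (if P v then Real.exp s else 1) =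
          (Fintype.card V : ℝ) * (1 + q * (Real.exp s - 1)) := by
        have h9 : ∀ v : V, (if P v then Real.exp s else 1) =
            1 + (if P v then (Real.exp s - 1) else 0) := by
          intro v; split_ifs <;> ring
        rw [sum_congr rfl (fun v _ => h9 v), sum_add_distrib, ← sum_filter, sum_const, sum_const,
          nsmul_eq_mul, nsmul_eq_mul, card_univ, mul_one, hq]
        ring
      rw [this]
      exact mul_le_mul_of_nonneg_left hexp hVnn
    · simp [hj]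
  have h10 : ∏ j, ∑ v : V, (if j ∈ R ∧ P v then Real.exp s else 1) ≤
      ∏ j : ι, ((Fintype.card V : ℝ) * (if j ∈ R then Real.exp (q * (s + s ^ 2)) else 1)) :=
    prod_le_prod (fun j _ => sum_nonneg (fun v _ => by split_ifs <;> positivity)) h8
  have h11 : ∏ j : ι, ((Fintype.card V : ℝ) * (if j ∈ R then Real.exp (q * (s + s ^ 2)) else 1)) =
      (Fintype.card V : ℝ) ^ (Fintype.card ι) * Real.exp (q * (s + s ^ 2)) ^ R.card := by
    rw [prod_mul_distrib, prod_const, card_univ, ← prod_filter, prod_const]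
    simp
  calc Real.exp (-(s * q * R.card)) *
        ∏ j, ∑ v : V, (if j ∈ R ∧ P v then Real.exp s else 1)
      ≤ Real.exp (-(s * q * R.card)) * ((Fintype.card V : ℝ) ^ (Fintype.card ι) *
          Real.exp (q * (s + s ^ 2)) ^ R.card) := by
        rw [← h11]
        exact mul_le_mul_of_nonneg_left h10 (Real.exp_pos _).le
    _ = (Fintype.card V : ℝ) ^ (Fintype.card ι) *
          (Real.exp (-(s * q * R.card)) * Real.exp (q * (s + s ^ 2)) ^ R.card) := by ring
    _ = _ := by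
        rw [← Real.exp_nat_mul, ← Real.exp_add]
        congr 2
        ring

/-- Two sided tail bound. -/
theorem tail_bound {ι V : Type} [Fintype ι] [DecidableEq ι] [Fintype V] (P : V → Prop)
    [DecidablePred P] (q : ℝ) (hq0 : 0 ≤ q)
    (hq : ((univ.filter P).card : ℝ) = q * Fintype.card V) (R : Finset ι) (κ τ : ℝ)
    (hκ0 : 0 < κ) (hκ1 : κ ≤ 1) :
    ((univ.filter fun h : ι → V => κ * max (q * R.card) τ <
      |((R.filter fun j => P (h j)).card : ℝ) - q * R.card|).card : ℝ) ≤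
      2 * ((Fintype.card V : ℝ) ^ (Fintype.card ι) * Real.exp (-(κ ^ 2 * τ / 4))) := by
  classical
  set mu : ℝ := q * R.card with hmu
  have hmu0 : 0 ≤ mu := by positivity
  have hone : ∀ s : ℝ, |s| ≤ 1 → ∀ lam : ℝ,
      ((univ.filter fun h : ι → V => lam <
        s * (((R.filter fun j => P (h j)).card : ℝ) - mu)).card : ℝ) ≤
      (Fintype.card V : ℝ) ^ (Fintype.card ι) * Real.exp (mu * s ^ 2 - lam) := by
    intro s hs lam
    have h1 := mgf_bound P q hq0 hq R s hs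
    have h2 : ((univ.filter fun h : ι → V => lam <
        s * (((R.filter fun j => P (h j)).card : ℝ) - mu)).card : ℝ) * Real.exp lam ≤
        ∑ h : ι → V, Real.exp (s * (((R.filter fun j => P (h j)).card : ℝ) - mu)) := by
      rw [← nsmul_eq_mul, ← sum_const]
      refine (sum_le_sum (fun h hh => ?_)).trans
        (sum_le_sum_of_subset_of_nonneg (filter_subset _ _) (fun h _ _ => (Real.exp_pos _).le))
      exact Real.exp_le_exp.mpr (mem_filter.mp hh).2.le
    have h3 := h2.trans h1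
    rw [← le_div_iff₀ (Real.exp_pos _)] at h3
    refine h3.trans (le_of_eq ?_)
    rw [mul_div_assoc, ← Real.exp_sub]
  set M : ℝ := max mu τ with hM
  have hMmu : mu ≤ M := le_max_left _ _
  have hMτ : τ ≤ M := le_max_right _ _
  have hM0 : 0 ≤ M := hmu0.trans hMmu
  have hκ2 : |κ / 2| ≤ 1 := by rw [abs_of_pos (by positivity)]; linarith
  have hκ3 : |-(κ / 2)| ≤ 1 := by rw [abs_neg]; exact hκ2
  have hA := hone (κ / 2) hκ2 (κ / 2 * (κ * M))
  have hB := hone (-(κ / 2)) hκ3 (κ / 2 * (κ * M))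
  have hexp : ∀ s : ℝ, s ^ 2 = (κ / 2) ^ 2 → Real.exp (mu * s ^ 2 - κ / 2 * (κ * M)) ≤
      Real.exp (-(κ ^ 2 * τ / 4)) := by
    intro s hs
    rw [hs]
    refine Real.exp_le_exp.mpr ?_
    have e1 : κ ^ 2 * mu ≤ κ ^ 2 * M := mul_le_mul_of_nonneg_left hMmu (by positivity)
    have e2 : κ ^ 2 * τ ≤ κ ^ 2 * M := mul_le_mul_of_nonneg_left hMτ (by positivity)
    nlinarith
  have hsub : (univ.filter fun h : ι → V => κ * M <
      |((R.filter fun j => P (h j)).card : ℝ) - mu|) ⊆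
      (univ.filter fun h : ι → V => κ / 2 * (κ * M) <
        κ / 2 * (((R.filter fun j => P (h j)).card : ℝ) - mu)) ∪
      (univ.filter fun h : ι → V => κ / 2 * (κ * M) <
        -(κ / 2) * (((R.filter fun j => P (h j)).card : ℝ) - mu)) := by
    intro h hh
    simp only [mem_filter, mem_univ, true_and, mem_union] at hh ⊢
    rcases lt_abs.mp hh with h1 | h1
    · left; exact mul_lt_mul_of_pos_left h1 (by positivity)
    · right
      have := mul_lt_mul_of_pos_left h1 (show (0 : ℝ) < κ / 2 by positivity)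
      linarith
  have hc : ((univ.filter fun h : ι → V => κ * M <
      |((R.filter fun j => P (h j)).card : ℝ) - mu|).card : ℝ) ≤ _ :=
    Nat.cast_le.mpr ((card_le_card hsub).trans (card_union_le _ _))
  push_cast at hc
  have hVnn : (0 : ℝ) ≤ (Fintype.card V : ℝ) ^ (Fintype.card ι) := by positivity
  have e1 := mul_le_mul_of_nonneg_left (hexp (κ / 2) rfl) hVnn
  have e2 := mul_le_mul_of_nonneg_left (hexp (-(κ / 2)) (by ring)) hVnn
  linarith

/-- Second moment of a sum of independent centred variables. -/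
theorem sum_sq_iid {V : Type} [Fintype V] (g : V → ℝ) (hg : ∑ v, g v = 0) (m : ℕ) :
    ∑ u : Fin m → V, (∑ t, g (u t)) ^ 2 * (Fintype.card V : ℝ) =
      m * (Fintype.card V : ℝ) ^ m * ∑ v, g v ^ 2 := by
  classical
  have hmean : ∀ m : ℕ, ∑ u : Fin m → V, (∑ t, g (u t)) = 0 := by
    intro m
    induction m with
    | zero => simp
    | succ m ih =>
      rw [← (Fin.consEquiv (fun _ : Fin (m + 1) => V)).sum_comp, Fintype.sum_prod_type]
      have : ∀ (v : V) (u : Fin m → V), ∑ t : Fin (m + 1),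
          g ((Fin.consEquiv (fun _ : Fin (m + 1) => V)) (v, u) t) = g v + ∑ t, g (u t) := by
        intro v u
        rw [Fin.sum_univ_succ]
        simp [Fin.consEquiv]
      simp only [this, sum_add_distrib, ih, add_zero, sum_const, nsmul_eq_mul]
      rw [← mul_sum, hg, mul_zero]
  induction m with
  | zero => simp
  | succ m ih =>
    rw [← (Fin.consEquiv (fun _ : Fin (m + 1) => V)).sum_comp, Fintype.sum_prod_type]
    have h1 : ∀ (v : V) (u : Fin m → V), ∑ t : Fin (m + 1),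
        g ((Fin.consEquiv (fun _ : Fin (m + 1) => V)) (v, u) t) = g v + ∑ t, g (u t) := by
      intro v u
      rw [Fin.sum_univ_succ]
      simp [Fin.consEquiv]
    have h2 : ∀ v : V, ∑ u : Fin m → V, (∑ t : Fin (m + 1),
        g ((Fin.consEquiv (fun _ : Fin (m + 1) => V)) (v, u) t)) ^ 2 * (Fintype.card V : ℝ) =
        (Fintype.card V : ℝ) ^ m * g v ^ 2 * (Fintype.card V : ℝ) +
          m * (Fintype.card V : ℝ) ^ m * ∑ v, g v ^ 2 := by
      intro v
      rw [← ih]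
      have h3 : ∀ u : Fin m → V, (∑ t : Fin (m + 1),
        g ((Fin.consEquiv (fun _ : Fin (m + 1) => V)) (v, u) t)) ^ 2 * (Fintype.card V : ℝ) =
          g v ^ 2 * (Fintype.card V : ℝ) + 2 * g v * (Fintype.card V : ℝ) * (∑ t, g (u t)) +
            (∑ t, g (u t)) ^ 2 * (Fintype.card V : ℝ) := by
        intro u; rw [h1]; ring
      have hz : ∑ u : Fin m → V, 2 * g v * (Fintype.card V : ℝ) * (∑ t, g (u t)) = 0 := by
        rw [← mul_sum, hmean, mul_zero]
      rw [sum_congr rfl (fun u _ => h3 u), sum_add_distrib, sum_add_distrib, hz,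
        sum_const, card_univ, Fintype.card_fun, Fintype.card_fin, nsmul_eq_mul]
      push_cast
      ring
    simp only [h2]
    rw [sum_add_distrib, ← sum_mul, ← mul_sum, sum_const, card_univ, nsmul_eq_mul]
    push_cast
    ring

/-- A function on `Fin D` with prescribed fibre sizes. -/
theorem exists_pick {n : ℕ} (c : Fin n → ℕ) (D : ℕ) (hc : ∑ i, c i = D) :
    ∃ φ : Fin D → Fin n, ∀ f : Fin n → ℝ, ∑ u, f (φ u) = ∑ i, (c i : ℝ) * f i := by
  subst hc
  refine ⟨fun u => (finSigmaFinEquiv.symm u).1, fun f => ?_⟩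
  rw [finSigmaFinEquiv.symm.sum_comp (fun x : (i : Fin n) × Fin (c i) => f x.1),
    Fintype.sum_sigma]
  simp

/-- The importance sampling estimator. -/
theorem sampling {n : ℕ} (w r : Fin n → ℕ) (κ ε : ℝ) (hκ0 : 0 ≤ κ) (hκ1 : κ ≤ 1 / 2)
    (hε : 0 < ε) (hw : ∀ i, |(w i : ℝ) - r i| ≤ κ * r i) (D m : ℕ) (hm : 1 ≤ m)
    (hW : (∑ i, w i) ∣ D) (hD : 1 ≤ D)
    (φ : Fin D → Fin n)
    (hφ : ∀ f : Fin n → ℝ, ∑ u, f (φ u) = ∑ i, ((D / (∑ i, w i) * w i : ℕ) : ℝ) * f i)
    (hN : 0 < ∑ i, r i) :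
    ((univ.filter fun u : Fin m → Fin D => ε / 2 * ((∑ i, r i : ℕ) : ℝ) <
      |((∑ i, w i : ℕ) : ℝ) / m * ∑ t, (r (φ (u t)) : ℝ) / w (φ (u t)) -
        ((∑ i, r i : ℕ) : ℝ)|).card : ℝ) ≤
      (64 * κ ^ 2 / (ε ^ 2 * m)) * (D : ℝ) ^ m := by
  classical
  set W : ℕ := ∑ i, w i with hWdef
  set N : ℕ := ∑ i, r i with hNdef
  obtain ⟨K, hK⟩ := hW
  have hW0 : 0 < W := by
    rcases Nat.eq_zero_or_pos W with h | h
    · rw [h] at hK; omega
    · exact h
  have hDK : D / W = K := by rw [hK]; exact Nat.mul_div_cancel_left K hW0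
  rw [hDK] at hφ
  have hNr : (0 : ℝ) < N := by exact_mod_cast hN
  have hWr : (0 : ℝ) < W := by exact_mod_cast hW0
  have hmr : (0 : ℝ) < m := by exact_mod_cast hm
  have hDr : (0 : ℝ) < D := by exact_mod_cast hD
  have hNsum : (N : ℝ) = ∑ i, (r i : ℝ) := by rw [hNdef]; push_cast; rfl
  have hWsum : (W : ℝ) = ∑ i, (w i : ℝ) := by rw [hWdef]; push_cast; rfl
  -- W close to N
  have hWN : |(W : ℝ) - N| ≤ κ * N := by
    rw [hNsum, hWsum, ← sum_sub_distrib, mul_sum]
    exact (abs_sum_le_sum_abs _ _).trans (sum_le_sum fun i _ => hw i)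
  -- the centred variable
  set gg : Fin n → ℝ := fun i => (W : ℝ) * ((r i : ℝ) / w i) - N with hgg
  have hr0 : ∀ i, w i = 0 → r i = 0 := by
    intro i hi
    have h1 := hw i
    rw [hi] at h1
    simp only [Nat.cast_zero, zero_sub, abs_neg, Nat.abs_cast] at h1
    by_contra h2
    have h3 : (1 : ℝ) ≤ r i := by exact_mod_cast Nat.one_le_iff_ne_zero.mpr h2
    nlinarith
  have hgpt : ∀ i, 0 < w i → |gg i| ≤ 4 * κ * N := by
    intro i hi
    have hwi : (0 : ℝ) < w i := by exact_mod_cast hi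
    have h1 := hw i
    have hri : (0 : ℝ) ≤ r i := Nat.cast_nonneg _
    have h2 : (r i : ℝ) ≤ 2 * w i := by
      have := (abs_le.mp h1).1
      nlinarith
    have h3 : |(r i : ℝ) / w i - 1| ≤ 2 * κ := by
      rw [div_sub_one hwi.ne', abs_div, abs_of_pos hwi, div_le_iff₀ hwi, abs_sub_comm]
      refine h1.trans ?_
      nlinarith
    have h4 : gg i = (W : ℝ) * ((r i : ℝ) / w i - 1) + ((W : ℝ) - N) := by
      rw [hgg]; ring
    rw [h4]
    have h5 : |(W : ℝ) * ((r i : ℝ) / w i - 1)| ≤ (3 / 2 * N) * (2 * κ) := by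
      rw [abs_mul, abs_of_pos hWr]
      refine mul_le_mul ?_ h3 (abs_nonneg _) (by positivity)
      have := (abs_le.mp hWN).2
      nlinarith
    calc |(W : ℝ) * ((r i : ℝ) / w i - 1) + ((W : ℝ) - N)|
        ≤ |(W : ℝ) * ((r i : ℝ) / w i - 1)| + |(W : ℝ) - N| := abs_add_le _ _
      _ ≤ (3 / 2 * N) * (2 * κ) + κ * N := add_le_add h5 hWN
      _ = 4 * κ * N := by ring
  have hsum0 : ∑ v : Fin D, gg (φ v) = 0 := by
    rw [hφ]
    have h1 : ∀ i, ((K * w i : ℕ) : ℝ) * gg i = (K * W : ℝ) * r i - (K * N : ℝ) * w i := by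
      intro i
      rw [hgg]
      push_cast
      by_cases hi : w i = 0
      · rw [hi, hr0 i hi]; simp
      · have : (w i : ℝ) ≠ 0 := by exact_mod_cast hi
        field_simp
    rw [sum_congr rfl (fun i _ => h1 i), sum_sub_distrib, ← mul_sum, ← mul_sum, ← hNsum, ← hWsum]
    ring
  have hsumsq : ∑ v : Fin D, gg (φ v) ^ 2 ≤ D * (16 * κ ^ 2 * (N : ℝ) ^ 2) := by
    have h0 := hφ (fun i => gg i ^ 2)
    rw [h0]
    have h1 : ∀ i ∈ (univ : Finset (Fin n)), ((K * w i : ℕ) : ℝ) * gg i ^ 2 ≤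
        (K * (16 * κ ^ 2 * (N : ℝ) ^ 2)) * w i := by
      intro i _
      push_cast
      rcases Nat.eq_zero_or_pos (w i) with hi | hi
      · rw [hi]; simp
      · have h2 := hgpt i hi
        have h3 : gg i ^ 2 ≤ (4 * κ * N) ^ 2 := by
          rw [← sq_abs]
          exact pow_le_pow_left₀ (abs_nonneg _) h2 2
        have h4 : (0 : ℝ) ≤ K * w i := by positivity
        have := mul_le_mul_of_nonneg_left h3 h4
        nlinarith
    refine (sum_le_sum h1).trans (le_of_eq ?_)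
    rw [← mul_sum, ← hWsum]
    have : (D : ℝ) = W * K := by rw [hK]; push_cast; ring
    rw [this]
    ring
  have hvar := sum_sq_iid (fun v : Fin D => gg (φ v)) hsum0 m
  simp only [Fintype.card_fin] at hvar
  have hest : ∀ u : Fin m → Fin D, (W : ℝ) / m * ∑ t, (r (φ (u t)) : ℝ) / w (φ (u t)) - N =
      (∑ t, gg (φ (u t))) / m := by
    intro u
    simp only [hgg]
    rw [sum_sub_distrib, ← mul_sum, sum_const, card_univ, Fintype.card_fin, nsmul_eq_mul]
    field_simp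
  have hcheb : ((univ.filter fun u : Fin m → Fin D => ε / 2 * (N : ℝ) <
      |(W : ℝ) / m * ∑ t, (r (φ (u t)) : ℝ) / w (φ (u t)) - N|).card : ℝ) *
      ((ε / 2 * N * m) ^ 2 * D) ≤ ∑ u : Fin m → Fin D, (∑ t, gg (φ (u t))) ^ 2 * (D : ℝ) := by
    rw [← nsmul_eq_mul, ← sum_const]
    refine (sum_le_sum (fun u hu => ?_)).trans
        (sum_le_sum_of_subset_of_nonneg (filter_subset _ _) (fun u _ _ => by positivity))
    have h1 := (mem_filter.mp hu).2
    rw [hest, abs_div, abs_of_pos hmr, lt_div_iff₀ hmr] at h1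
    refine mul_le_mul_of_nonneg_right ?_ hDr.le
    rw [← sq_abs (∑ t, gg (φ (u t)))]
    exact pow_le_pow_left₀ (by positivity) h1.le 2
  rw [hvar] at hcheb
  have hfin : ((univ.filter fun u : Fin m → Fin D => ε / 2 * (N : ℝ) <
      |(W : ℝ) / m * ∑ t, (r (φ (u t)) : ℝ) / w (φ (u t)) - N|).card : ℝ) *
      ((ε / 2 * N * m) ^ 2 * D) ≤ m * (D : ℝ) ^ m * (D * (16 * κ ^ 2 * (N : ℝ) ^ 2)) :=
    hcheb.trans (mul_le_mul_of_nonneg_left hsumsq (by positivity))
  have hpos : 0 < (ε / 2 * N * m) ^ 2 * D := by positivity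
  rw [← le_div_iff₀ hpos] at hfin
  refine hfin.trans (le_of_eq ?_)
  field_simp
  ring

/-- The weight computed from the counts on the levels. -/
noncomputable def wt (T L : ℕ) (x : ℕ → ℕ) : ℕ := by
  classical
  exact if h : ∃ b, b ≤ L ∧ x b ≤ T then 2 ^ (Nat.find h) * x (Nat.find h) else 0

theorem wt_spec_pos (T L : ℕ) (x : ℕ → ℕ) (h : ∃ b, b ≤ L ∧ x b ≤ T) :
    ∃ b, b ≤ L ∧ x b ≤ T ∧ (∀ b' < b, T < x b') ∧ wt T L x = 2 ^ b * x b := by
  classical
  refine ⟨Nat.find h, (Nat.find_spec h).1, (Nat.find_spec h).2, fun b' hb' => ?_, ?_⟩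
  · have h1 := Nat.find_min h hb'
    have h2 : b' ≤ L := hb'.le.trans (Nat.find_spec h).1
    by_contra h3
    exact h1 ⟨h2, not_lt.mp h3⟩
  · unfold wt
    rw [dif_pos h]

theorem wt_spec_neg (T L : ℕ) (x : ℕ → ℕ) (h : ¬ ∃ b, b ≤ L ∧ x b ≤ T) : wt T L x = 0 := by
  unfold wt
  rw [dif_neg h]

theorem wt_congr (T L : ℕ) (x y : ℕ → ℕ) (h1 : ∀ b ≤ L, x b ≤ T → y b = x b)
    (h2 : ∀ b ≤ L, y b ≤ T → x b = y b) : wt T L x = wt T L y := by
  by_cases h : ∃ b, b ≤ L ∧ x b ≤ T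
  · have h' : ∃ b, b ≤ L ∧ y b ≤ T := by
      obtain ⟨b, hb, hx⟩ := h
      exact ⟨b, hb, by rw [h1 b hb hx]; exact hx⟩
    obtain ⟨b, hb, hxb, hmin, he⟩ := wt_spec_pos T L x h
    obtain ⟨b', hb', hyb', hmin', he'⟩ := wt_spec_pos T L y h'
    have hbb : b = b' := by
      rcases lt_trichotomy b b' with hlt | heq | hgt
      · have := hmin' b hlt
        rw [h1 b hb hxb] at this
        omega
      · exact heq
      · have := hmin b' hgt
        rw [h2 b' hb' hyb'] at this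
        omega
    subst hbb
    rw [he, he', h1 b hb hxb]
  · have h' : ¬ ∃ b, b ≤ L ∧ y b ≤ T := by
      rintro ⟨b, hb, hy⟩
      exact h ⟨b, hb, by rw [h2 b hb hy]; exact hy⟩
    rw [wt_spec_neg _ _ _ h, wt_spec_neg _ _ _ h']

theorem wt_le (T L n : ℕ) (x : ℕ → ℕ) (hx : ∀ b, x b ≤ n) : wt T L x ≤ 2 ^ L * n := by
  by_cases h : ∃ b, b ≤ L ∧ x b ≤ T
  · obtain ⟨b, hb, hxb, hmin, he⟩ := wt_spec_pos T L x h
    rw [he]
    exact Nat.mul_le_mul (Nat.pow_le_pow_right (by norm_num) hb) (hx b)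
  · rw [wt_spec_neg _ _ _ h]
    exact Nat.zero_le _

theorem wt_approx (T L : ℕ) (x : ℕ → ℕ) (r : ℕ) (κ : ℝ) (hκ0 : 0 ≤ κ) (hκ : κ ≤ 1 / 2)
    (hT : 4 ≤ T) (hx0 : x 0 = r) (hr : r ≤ 2 ^ L)
    (hx : ∀ b ≤ L, |(x b : ℝ) - (1 / 2 ^ b : ℝ) * r| ≤
      κ * max ((1 / 2 ^ b : ℝ) * r) ((T : ℝ) / 4)) :
    |(wt T L x : ℝ) - r| ≤ κ * r := by
  have hTr : (4 : ℝ) ≤ T := by exact_mod_cast hT
  have hr0 : (0 : ℝ) ≤ r := Nat.cast_nonneg _
  have hex : ∃ b, b ≤ L ∧ x b ≤ T := by
    refine ⟨L, le_rfl, ?_⟩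
    have h1 := hx L le_rfl
    have h2 : (1 / 2 ^ L : ℝ) * r ≤ 1 := by
      rw [one_div, inv_mul_le_iff₀ (by positivity), mul_one]
      exact_mod_cast hr
    have h3 : max ((1 / 2 ^ L : ℝ) * r) ((T : ℝ) / 4) ≤ T / 4 :=
      max_le (by linarith) le_rfl
    have h4 := (abs_le.mp h1).2
    have h5 : κ * max ((1 / 2 ^ L : ℝ) * r) ((T : ℝ) / 4) ≤ 1 / 2 * (T / 4) :=
      mul_le_mul hκ h3 (le_max_of_le_right (by positivity)) (by norm_num)
    have h6 : (x L : ℝ) ≤ T := by linarith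
    exact_mod_cast h6
  obtain ⟨b, hb, hxb, hmin, he⟩ := wt_spec_pos T L x hex
  rw [he]
  rcases Nat.eq_zero_or_pos b with h0 | h0
  · subst h0
    rw [hx0]
    simp
    positivity
  · obtain ⟨b', rfl⟩ : ∃ b', b = b' + 1 := ⟨b - 1, by omega⟩
    have h1 := hmin b' (by omega)
    have h2 := hx b' (by omega)
    have h3 := hx (b' + 1) hb
    set M' : ℝ := (1 / 2 ^ b' : ℝ) * r with hM'
    have hM : (1 / 2 ^ (b' + 1) : ℝ) * r = M' / 2 := by
      rw [hM', pow_succ]; field_simp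
    rw [hM] at h3
    have hM0 : 0 ≤ M' := by positivity
    have h4 : (T : ℝ) < x b' := by exact_mod_cast h1
    have h5 : (T : ℝ) / 2 ≤ M' := by
      by_contra h6
      push Not at h6
      have h7 : max M' ((T : ℝ) / 4) ≤ T / 2 := max_le h6.le (by linarith)
      have h8 : κ * max M' ((T : ℝ) / 4) ≤ 1 / 2 * (T / 2) :=
        mul_le_mul hκ h7 (le_max_of_le_left hM0) (by norm_num)
      have h9 := (abs_le.mp h2).2
      linarith
    have h6 : max (M' / 2) ((T : ℝ) / 4) = M' / 2 := max_eq_left (by linarith)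
    rw [h6, ← hM] at h3
    have hp : (0 : ℝ) < 2 ^ (b' + 1) := by positivity
    have h7 : ((2 ^ (b' + 1) * x (b' + 1) : ℕ) : ℝ) - r =
        2 ^ (b' + 1) * ((x (b' + 1) : ℝ) - 1 / 2 ^ (b' + 1) * r) := by
      push_cast
      field_simp
    rw [h7, abs_mul, abs_of_pos hp]
    calc (2 : ℝ) ^ (b' + 1) * |(x (b' + 1) : ℝ) - 1 / 2 ^ (b' + 1) * r|
        ≤ 2 ^ (b' + 1) * (κ * (1 / 2 ^ (b' + 1) * r)) := mul_le_mul_of_nonneg_left h3 hp.le
      _ = κ * r := by field_simp

end Pool.Agent.H76.SIJ
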