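import Mathlib
import Pool.Agent.H76.SIJ.Defs
import Pool.Agent.H76.SIJ.UpperProto
import Pool.Agent.H76.SIJ.UpperProb

/-!
The upper bound: a sampling protocol with cost `O(n/ε · polylog n)`.
-/

open Finset
open scoped BigOperators

namespace Pool.Agent.H76.SIJ

/-- The columns met by the row `a`. -/
def nbr {n : ℕ} (a : Fin n → Bool) (B : BM n) : Finset (Fin n) :=
  univ.filter fun j => ∃ e, a e = true ∧ B e j = true

/-- The part of row `e` of `B` in the sampled columns of level `b`. -/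
def sec {n L : ℕ} (B : BM n) (h : Fin n → Fin (2 ^ L)) (e : Fin n) (b : ℕ) : Finset (Fin n) :=
  univ.filter fun j => B e j = true ∧ (h j : ℕ) < 2 ^ (L - b)

/-- Number of sampled columns of level `b` met by `a`. -/
def cnt {n L : ℕ} (a : Fin n → Bool) (B : BM n) (h : Fin n → Fin (2 ^ L)) (b : ℕ) : ℕ :=
  ((nbr a B).filter fun j => (h j : ℕ) < 2 ^ (L - b)).card

/-- The first message of Bob. -/
def msg {n L : ℕ} (T : ℕ) (B : BM n) (h : Fin n → Fin (2 ^ L)) :
    Fin n → Fin (L + 1) → Option {S : Finset (Fin n) // S.card ≤ T} :=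
  fun e b => if hS : (sec B h e b).card ≤ T then some ⟨_, hS⟩ else none

theorem cnt_eq_of_msg {n L : ℕ} (T : ℕ) (B B' : BM n) (h : Fin n → Fin (2 ^ L))
    (hmsg : msg T B h = msg T B' h) (a : Fin n → Bool) (b : ℕ) (hb : b ≤ L)
    (hc : cnt a B h b ≤ T) : cnt a B' h b = cnt a B h b := by
  have h1 : ∀ e, a e = true → sec B' h e b = sec B h e b := by
    intro e he
    have h2 : sec B h e b ⊆ (nbr a B).filter fun j => (h j : ℕ) < 2 ^ (L - b) := by
      intro j hj
      simp only [sec, nbr, mem_filter, mem_univ, true_and] at hj ⊢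
      exact ⟨⟨e, he, hj.1⟩, hj.2⟩
    have h3 : (sec B h e b).card ≤ T := (card_le_card h2).trans hc
    have h4 := congrFun (congrFun hmsg e) ⟨b, by omega⟩
    unfold msg at h4
    simp only at h4
    rw [dif_pos h3] at h4
    by_cases h5 : (sec B' h e b).card ≤ T
    · rw [dif_pos h5] at h4
      have h6 := Option.some.inj h4
      exact (Subtype.ext_iff.mp h6).symm
    · rw [dif_neg h5] at h4
      exact absurd h4 (by simp)
  unfold cnt
  congr 1
  ext j
  simp only [nbr, mem_filter, mem_univ, true_and]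
  constructor
  · rintro ⟨⟨e, he, hj⟩, hh⟩
    have : j ∈ sec B' h e b := by simp [sec, hj, hh]
    rw [h1 e he] at this
    simp only [sec, mem_filter, mem_univ, true_and] at this
    exact ⟨⟨e, he, this.1⟩, this.2⟩
  · rintro ⟨⟨e, he, hj⟩, hh⟩
    have : j ∈ sec B h e b := by simp [sec, hj, hh]
    rw [← h1 e he] at this
    simp only [sec, mem_filter, mem_univ, true_and] at this
    exact ⟨⟨e, he, this.1⟩, this.2⟩

theorem wt_eq_of_msg {n L : ℕ} (T : ℕ) (B B' : BM n) (h : Fin n → Fin (2 ^ L))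
    (hmsg : msg T B h = msg T B' h) (a : Fin n → Bool) :
    wt T L (cnt a B h) = wt T L (cnt a B' h) :=
  wt_congr T L _ _ (fun b hb hc => cnt_eq_of_msg T B B' h hmsg a b hb hc)
    (fun b hb hc => cnt_eq_of_msg T B' B h hmsg.symm a b hb hc)

theorem card_small (n T : ℕ) : Fintype.card {S : Finset (Fin n) // S.card ≤ T} ≤ (n + 1) ^ T := by
  classical
  have h0 : (n + 1) ^ T = Fintype.card (Fin T → Option (Fin n)) := by simp
  rw [h0]
  let g : {S : Finset (Fin n) // S.card ≤ T} → (Fin T → Option (Fin n)) := fun S t =>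
    if h : (t : ℕ) < S.1.card then some ((S.1.equivFin.symm ⟨t, h⟩).1) else none
  have hg : ∀ (S : {S : Finset (Fin n) // S.card ≤ T}) (j : Fin n),
      j ∈ S.1 ↔ ∃ t, g S t = some j := by
    intro S j
    constructor
    · intro hj
      refine ⟨⟨(S.1.equivFin ⟨j, hj⟩ : ℕ), lt_of_lt_of_le (Fin.isLt _) S.2⟩, ?_⟩
      simp only [g]
      rw [dif_pos (Fin.isLt _)]
      simp
    · rintro ⟨t, ht⟩
      simp only [g] at ht
      split_ifs at ht with h
      · rw [← Option.some.inj ht]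
        exact (S.1.equivFin.symm ⟨t, h⟩).2
  refine Fintype.card_le_of_injective g (fun S S' hSS => ?_)
  apply Subtype.ext
  ext j
  rw [hg S j, hg S' j, hSS]

theorem card_M1 (n L T : ℕ) (hL : n ≤ 2 ^ L) (hT : 1 ≤ T) :
    Fintype.card (Fin n → Fin (L + 1) → Option {S : Finset (Fin n) // S.card ≤ T}) ≤
      2 ^ ((L + 2) * T * ((L + 1) * n)) := by
  rw [Fintype.card_fun, Fintype.card_fun, Fintype.card_option, Fintype.card_fin, Fintype.card_fin,
    ← pow_mul, pow_mul 2]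
  refine Nat.pow_le_pow_left ?_ _
  have h1 : Fintype.card {S : Finset (Fin n) // S.card ≤ T} + 1 ≤ (n + 2) ^ T := by
    have h2 := card_small n T
    have h3 : (n + 1) ^ T < (n + 2) ^ T := Nat.pow_lt_pow_left (by omega) (by omega)
    omega
  refine h1.trans ?_
  rw [pow_mul]
  refine Nat.pow_le_pow_left ?_ _
  have h4 : 1 ≤ 2 ^ L := Nat.one_le_two_pow
  rw [pow_add]
  omega

theorem card_level (L b : ℕ) (hb : b ≤ L) :
    (((univ : Finset (Fin (2 ^ L))).filter fun v : Fin (2 ^ L) => (v : ℕ) < 2 ^ (L - b)).card : ℝ) =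
      (1 / 2 ^ b : ℝ) * Fintype.card (Fin (2 ^ L)) := by
  have h1 : 2 ^ (L - b) ≤ 2 ^ L := Nat.pow_le_pow_right (by norm_num) (by omega)
  have h2 : ((univ : Finset (Fin (2 ^ L))).filter fun v : Fin (2 ^ L) => (v : ℕ) < 2 ^ (L - b)).card =
      2 ^ (L - b) := by
    have h3 := Fin.card_filter_val_lt (n := 2 ^ L) (m := 2 ^ (L - b))
    rw [h3]
    exact min_eq_right h1
  rw [h2, Fintype.card_fin]
  push_cast
  rw [one_div, eq_inv_mul_iff_mul_eq₀ (by positivity), ← pow_add]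
  congr 1
  omega

theorem suppSize_eq_sum {n : ℕ} (A B : BM n) : suppSize A B = ∑ i, (nbr (A i) B).card := by
  rw [suppSize_eq, ← univ_product_univ, card_filter, sum_product]
  refine sum_congr rfl (fun i _ => ?_)
  unfold nbr
  rw [card_filter]
  refine sum_congr rfl (fun j _ => ?_)
  simp only [Meets]

theorem exists_Phi (n D : ℕ) (hn : 1 ≤ n) : ∃ Φ : (Fin n → ℕ) → Fin D → Fin n,
    ∀ w : Fin n → ℕ, (∑ i, w i) ∣ D → ∀ f : Fin n → ℝ,
      ∑ u, f (Φ w u) = ∑ i, ((D / (∑ i, w i) * w i : ℕ) : ℝ) * f i := by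
  have H : ∀ w : Fin n → ℕ, ∃ φ : Fin D → Fin n, (∑ i, w i) ∣ D → ∀ f : Fin n → ℝ,
      ∑ u, f (φ u) = ∑ i, ((D / (∑ i, w i) * w i : ℕ) : ℝ) * f i := by
    intro w
    by_cases h : (∑ i, w i) ∣ D
    · obtain ⟨φ, hφ⟩ := exists_pick (fun i => D / (∑ i, w i) * w i) D (by
        rw [← mul_sum]
        exact Nat.div_mul_cancel h)
      exact ⟨φ, fun _ => hφ⟩
    · exact ⟨fun _ => ⟨0, hn⟩, fun h' => absurd h' h⟩
  choose Φ hΦ using H
  exact ⟨Φ, hΦ⟩

theorem isApprox_of_abs {ε : ℝ} (hε0 : 0 < ε) (hε1 : ε ≤ 1) {N : ℕ} {v : ℝ}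
    (h : |v - N| ≤ ε / 2 * N) : IsApprox ε N v := by
  have hN : (0 : ℝ) ≤ N := Nat.cast_nonneg _
  have h1 := abs_le.mp h
  constructor
  · rw [div_le_iff₀ (by linarith)]
    nlinarith [mul_nonneg hN hε0.le, mul_nonneg (mul_nonneg hN hε0.le) (sub_nonneg.mpr hε1)]
  · nlinarith [mul_nonneg hN hε0.le]

theorem public_core (n L T m : ℕ) (hn : 1 ≤ n) (hL : n ≤ 2 ^ L) (hT : 4 ≤ T) (hm : 1 ≤ m)
    (ε δ : ℝ) (hε0 : 0 < ε) (hε1 : ε ≤ 1)
    (hTδ : (n * (L + 1) : ℝ) * (2 * Real.exp (-(ε / 4 * (T / 4) / 4))) ≤ δ / 8)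
    (hmδ : 64 * (ε / 4) / (ε ^ 2 * m) ≤ δ / 8) :
    ∃ (Ω : Type) (_ : Fintype Ω) (_ : Nonempty Ω) (p : Ω → Protocol (BM n) (BM n) ℝ),
      (∀ ω, (p ω).cost ≤ (L + 2) * T * ((L + 1) * n) +
        (((n + (3 * L + 1)) * m + (3 * L + 1)) + (L + 1) * m)) ∧
      ∀ A B : BM n, (∃ S : Finset Ω, (S.card : ℝ) ≤ δ / 4 * Fintype.card Ω ∧ ∀ ω, ω ∉ S →
        IsApprox ε (suppSize A B) ((p ω).run A B)) := by
  classical
  set D : ℕ := (2 ^ (3 * L + 1)).factorial with hD
  have hD1 : 1 ≤ D := Nat.factorial_pos _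
  obtain ⟨Φ, hΦ⟩ := exists_Phi n D hn
  have : Nonempty (Fin n) := ⟨⟨0, hn⟩⟩
  have : Nonempty (Fin D) := ⟨⟨0, hD1⟩⟩
  have : Nonempty (BM n) := ⟨fun _ _ => false⟩
  let M1 : Type := Fin n → Fin (L + 1) → Option {S : Finset (Fin n) // S.card ≤ T}
  let M2 : Type := (Fin m → (Fin n → Bool) × Fin (2 ^ (3 * L + 1))) × Fin (2 ^ (3 * L + 1))
  let M3 : Type := Fin m → Fin (n + 1)
  have hk1 : Fintype.card M1 ≤ 2 ^ ((L + 2) * T * ((L + 1) * n)) := card_M1 n L T hL (by omega)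
  have hk2 : Fintype.card M2 ≤ 2 ^ ((n + (3 * L + 1)) * m + (3 * L + 1)) := by
    simp only [M2, Fintype.card_prod, Fintype.card_fun, Fintype.card_fin, Fintype.card_bool]
    rw [← pow_add, ← pow_mul, ← pow_add]
  have hk3 : Fintype.card M3 ≤ 2 ^ ((L + 1) * m) := by
    simp only [M3, Fintype.card_fun, Fintype.card_fin]
    rw [pow_mul]
    refine Nat.pow_le_pow_left ?_ _
    have h4 : 1 ≤ 2 ^ L := Nat.one_le_two_pow
    rw [pow_add]
    omega
  -- the protocol for a seed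
  have hproto : ∀ ω : (Fin n → Fin (2 ^ L)) × (Fin m → Fin D),
      ∃ p : Protocol (BM n) (BM n) ℝ, p.cost ≤ (L + 2) * T * ((L + 1) * n) +
        (((n + (3 * L + 1)) * m + (3 * L + 1)) + (L + 1) * m) ∧
      ∀ A B : BM n, p.run A B =
        ((∑ i, wt T L (cnt (A i) B ω.1) : ℕ) : ℝ) / m *
          ∑ t, ((nbr (A (Φ (fun i => wt T L (cnt (A i) B ω.1)) (ω.2 t))) B).card : ℝ) /
            wt T L (cnt (A (Φ (fun i => wt T L (cnt (A i) B ω.1)) (ω.2 t))) B ω.1) := by
    rintro ⟨h, u⟩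
    let dec : M1 → BM n := Function.invFun (fun B : BM n => (msg T B h : M1))
    have hdec : ∀ (B : BM n) (a : Fin n → Bool),
        wt T L (cnt a (dec (msg T B h)) h) = wt T L (cnt a B h) := by
      intro B a
      have h1 : msg T (dec (msg T B h)) h = msg T B h :=
        Function.invFun_eq (f := fun B : BM n => (msg T B h : M1)) ⟨B, rfl⟩
      exact wt_eq_of_msg T _ _ h h1 a
    obtain ⟨p, hp, hp'⟩ := Protocol.exists_three (X := BM n) (Y := BM n) (R := ℝ)
      (M1 := M1) (M2 := M2) (M3 := M3) hk1 hk2 hk3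
      (fun B => msg T B h)
      (fun A m1 => (fun t =>
        (A (Φ (fun i => wt T L (cnt (A i) (dec m1) h)) (u t)),
          Fin.ofNat (2 ^ (3 * L + 1))
            (wt T L (cnt (A (Φ (fun i => wt T L (cnt (A i) (dec m1) h)) (u t))) (dec m1) h))),
        Fin.ofNat (2 ^ (3 * L + 1)) (∑ i, wt T L (cnt (A i) (dec m1) h))))
      (fun B _ m2 => fun t => Fin.ofNat (n + 1) (nbr (m2.1 t).1 B).card)
      (fun _ m2 m3 => (((m2.2 : Fin (2 ^ (3 * L + 1))) : ℕ) : ℝ) / m *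
        ∑ t, (((m3 t : Fin (n + 1)) : ℕ) : ℝ) / (((m2.1 t).2 : Fin (2 ^ (3 * L + 1))) : ℕ))
    refine ⟨p, hp, fun A B => ?_⟩
    rw [hp']
    simp only [hdec]
    have hcntle : ∀ (a : Fin n → Bool) (b : ℕ), cnt a B h b ≤ n := by
      intro a b
      refine (card_le_univ _).trans ?_
      simp
    have hwt1 : ∀ a : Fin n → Bool, wt T L (cnt a B h) ≤ 2 ^ L * n :=
      fun a => wt_le T L n _ (hcntle a)
    have hpow : n * (2 ^ L * n) < 2 ^ (3 * L + 1) := by
      have h1 : n * (2 ^ L * n) ≤ 2 ^ L * (2 ^ L * 2 ^ L) :=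
        Nat.mul_le_mul hL (Nat.mul_le_mul le_rfl hL)
      have h2 : 2 ^ (3 * L + 1) = 2 * (2 ^ L * (2 ^ L * 2 ^ L)) := by
        rw [pow_succ, show 3 * L = L + (L + L) by ring, pow_add, pow_add]
        ring
      have h3 : 0 < 2 ^ L * (2 ^ L * 2 ^ L) := by positivity
      omega
    have hwt2 : ∀ a : Fin n → Bool, wt T L (cnt a B h) < 2 ^ (3 * L + 1) := by
      intro a
      refine lt_of_le_of_lt ((hwt1 a).trans ?_) hpow
      exact Nat.le_mul_of_pos_left _ hn
    have hW : ∑ i, wt T L (cnt (A i) B h) < 2 ^ (3 * L + 1) := by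
      refine lt_of_le_of_lt ?_ hpow
      calc ∑ i, wt T L (cnt (A i) B h) ≤ ∑ _i : Fin n, 2 ^ L * n := sum_le_sum (fun i _ => hwt1 _)
        _ = n * (2 ^ L * n) := by simp
    have hnbr : ∀ a : Fin n → Bool, (nbr a B).card < n + 1 := by
      intro a
      refine Nat.lt_succ_of_le ((card_le_univ _).trans ?_)
      simp
    simp only [Fin.val_ofNat]
    rw [Nat.mod_eq_of_lt hW]
    congr 1
    refine sum_congr rfl (fun t _ => ?_)
    rw [Nat.mod_eq_of_lt (hnbr _), Nat.mod_eq_of_lt (hwt2 _)]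
  choose p hp hp' using hproto
  refine ⟨(Fin n → Fin (2 ^ L)) × (Fin m → Fin D), inferInstance, inferInstance, p, hp,
    fun A B => ?_⟩
  -- the bad sets
  set κ : ℝ := Real.sqrt (ε / 4) with hκ
  have hκ0 : 0 < κ := Real.sqrt_pos.mpr (by positivity)
  have hκsq : κ ^ 2 = ε / 4 := Real.sq_sqrt (by positivity)
  have hκ1 : κ ≤ 1 / 2 := by
    nlinarith
  let badH1 : Fin n → Fin (L + 1) → Finset (Fin n → Fin (2 ^ L)) := fun i b =>
    univ.filter fun h : Fin n → Fin (2 ^ L) =>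
      κ * max ((1 / 2 ^ (b : ℕ) : ℝ) * (nbr (A i) B).card) ((T : ℝ) / 4) <
      |(((nbr (A i) B).filter fun j => (h j : ℕ) < 2 ^ (L - (b : ℕ))).card : ℝ) -
        (1 / 2 ^ (b : ℕ) : ℝ) * (nbr (A i) B).card|
  let badH : Finset (Fin n → Fin (2 ^ L)) := univ.biUnion fun i => univ.biUnion fun b => badH1 i b
  have hV : (0 : ℝ) < ((2 ^ L : ℕ) : ℝ) ^ n := by positivity
  have hbadH1 : ∀ i b, ((badH1 i b).card : ℝ) ≤
      (2 * Real.exp (-(ε / 4 * (T / 4) / 4))) * ((2 ^ L : ℕ) : ℝ) ^ n := by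
    intro i b
    have h1 := tail_bound (ι := Fin n) (V := Fin (2 ^ L))
      (fun v => (v : ℕ) < 2 ^ (L - (b : ℕ))) (1 / 2 ^ (b : ℕ) : ℝ) (by positivity)
      (card_level L b (by omega)) (nbr (A i) B) κ ((T : ℝ) / 4) hκ0 (by linarith)
    rw [hκsq, Fintype.card_fin, Fintype.card_fin] at h1
    refine h1.trans (le_of_eq ?_)
    ring
  have hbadH : (badH.card : ℝ) ≤ δ / 8 * ((2 ^ L : ℕ) : ℝ) ^ n := by
    have h1 : (badH.card : ℝ) ≤ ∑ i : Fin n, ∑ b : Fin (L + 1), ((badH1 i b).card : ℝ) := by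
      have h2 : badH.card ≤ ∑ i : Fin n, ∑ b : Fin (L + 1), (badH1 i b).card :=
        card_biUnion_le.trans (sum_le_sum fun i _ => card_biUnion_le)
      exact_mod_cast h2
    refine h1.trans ((sum_le_sum fun i _ => sum_le_sum fun b _ => hbadH1 i b).trans ?_)
    rw [sum_const, sum_const, card_univ, card_univ, Fintype.card_fin, Fintype.card_fin,
      nsmul_eq_mul, nsmul_eq_mul]
    calc (n : ℝ) * (((L + 1 : ℕ) : ℝ) * ((2 * Real.exp (-(ε / 4 * (T / 4) / 4))) *
          ((2 ^ L : ℕ) : ℝ) ^ n))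
        = ((n * (L + 1) : ℝ) * (2 * Real.exp (-(ε / 4 * (T / 4) / 4)))) *
          ((2 ^ L : ℕ) : ℝ) ^ n := by push_cast; ring
      _ ≤ _ := mul_le_mul_of_nonneg_right hTδ hV.le
  let r : Fin n → ℕ := fun i => (nbr (A i) B).card
  let w : (Fin n → Fin (2 ^ L)) → Fin n → ℕ := fun h i => wt T L (cnt (A i) B h)
  have hN : suppSize A B = ∑ i, r i := suppSize_eq_sum A B
  have hgood : ∀ h, h ∉ badH → ∀ i, |(w h i : ℝ) - r i| ≤ κ * r i := by
    intro h hh i
    refine wt_approx T L (cnt (A i) B h) (r i) κ hκ0.le hκ1 hT ?_ ?_ ?_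
    · simp only [cnt, r]
      congr 1
      ext j
      simp
    · refine le_trans ((card_le_univ _).trans ?_) hL
      simp
    · intro b hb
      by_contra hlt
      push Not at hlt
      apply hh
      simp only [badH, mem_biUnion, mem_univ, true_and]
      refine ⟨i, ⟨b, by omega⟩, ?_⟩
      simp only [badH1, mem_filter, mem_univ, true_and]
      exact hlt
  let badU : (Fin n → Fin (2 ^ L)) → Finset (Fin m → Fin D) := fun h =>
    univ.filter fun u : Fin m → Fin D => ε / 2 * ((∑ i, r i : ℕ) : ℝ) <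
      |((∑ i, w h i : ℕ) : ℝ) / m * ∑ t, (r (Φ (w h) (u t)) : ℝ) / w h (Φ (w h) (u t)) -
        ((∑ i, r i : ℕ) : ℝ)|
  have hD0 : (0 : ℝ) < (D : ℝ) ^ m := by positivity
  have hWdvd : ∀ h, 0 < ∑ i, w h i → (∑ i, w h i) ∣ D := by
    intro h h0
    refine Nat.dvd_factorial h0 ?_
    have hcntle : ∀ (a : Fin n → Bool) (b : ℕ), cnt a B h b ≤ n := by
      intro a b
      refine (card_le_univ _).trans ?_
      simp
    calc ∑ i, w h i ≤ ∑ _i : Fin n, 2 ^ L * n := sum_le_sum (fun i _ => wt_le T L n _ (hcntle _))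
      _ = n * (2 ^ L * n) := by simp
      _ ≤ 2 ^ L * (2 ^ L * 2 ^ L) := Nat.mul_le_mul hL (Nat.mul_le_mul le_rfl hL)
      _ = 2 ^ (3 * L) := by rw [← pow_add, ← pow_add]; congr 1; ring
      _ ≤ 2 ^ (3 * L + 1) := Nat.pow_le_pow_right (by norm_num) (by omega)
  have hbadU : ∀ h, h ∉ badH → ((badU h).card : ℝ) ≤ δ / 8 * (D : ℝ) ^ m := by
    intro h hh
    have hδ8 : 0 ≤ δ / 8 := le_trans (by positivity) hmδ
    rcases Nat.eq_zero_or_pos (∑ i, r i) with h0 | h0
    · -- N = 0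
      have hr0 : ∀ i, r i = 0 := by
        intro i
        exact (sum_eq_zero_iff.mp h0) i (mem_univ i)
      have hw0 : ∀ i, w h i = 0 := by
        intro i
        have h1 := hgood h hh i
        rw [hr0 i] at h1
        simp only [Nat.cast_zero, sub_zero, mul_zero, abs_nonpos_iff, Nat.cast_eq_zero] at h1
        exact h1
      have : badU h = ∅ := by
        apply filter_eq_empty_iff.mpr
        intro u _
        rw [h0]
        simp [hw0, hr0]
      rw [this]
      simp only [card_empty, Nat.cast_zero]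
      positivity
    · have hW0 : 0 < ∑ i, w h i := by
        rcases Nat.eq_zero_or_pos (∑ i, w h i) with hz | hz
        · exfalso
          have hw0 : ∀ i, w h i = 0 := fun i => (sum_eq_zero_iff.mp hz) i (mem_univ i)
          have hr0 : ∀ i, r i = 0 := by
            intro i
            have h1 := hgood h hh i
            rw [hw0 i] at h1
            simp only [Nat.cast_zero, zero_sub, abs_neg, Nat.abs_cast] at h1
            by_contra h2
            have h3 : (1 : ℝ) ≤ r i := by exact_mod_cast Nat.one_le_iff_ne_zero.mpr h2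
            nlinarith
          simp [hr0] at h0
        · exact hz
      have h1 := sampling (w h) r κ ε hκ0.le hκ1 hε0 (hgood h hh) D m hm (hWdvd h hW0) hD1
        (Φ (w h)) (hΦ (w h) (hWdvd h hW0)) h0
      rw [hκsq] at h1
      exact h1.trans (mul_le_mul_of_nonneg_right hmδ hD0.le)
  have hδ8 : 0 ≤ δ / 8 := le_trans (by positivity) hmδ
  refine ⟨(badH ×ˢ univ) ∪ (univ.filter fun ω : (Fin n → Fin (2 ^ L)) × (Fin m → Fin D) =>
    ω.1 ∉ badH ∧ ω.2 ∈ badU ω.1), ?_, ?_⟩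
  · have hcard : (Fintype.card ((Fin n → Fin (2 ^ L)) × (Fin m → Fin D)) : ℝ) =
        ((2 ^ L : ℕ) : ℝ) ^ n * (D : ℝ) ^ m := by
      simp [Fintype.card_prod]
    rw [hcard]
    have h1 : ((badH ×ˢ (univ : Finset (Fin m → Fin D))).card : ℝ) ≤
        δ / 8 * (((2 ^ L : ℕ) : ℝ) ^ n * (D : ℝ) ^ m) := by
      rw [card_product, card_univ, Fintype.card_fun, Fintype.card_fin, Fintype.card_fin]
      push_cast
      have := mul_le_mul_of_nonneg_right hbadH hD0.le
      push_cast at this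
      linarith
    have h2 : ((univ.filter fun ω : (Fin n → Fin (2 ^ L)) × (Fin m → Fin D) =>
        ω.1 ∉ badH ∧ ω.2 ∈ badU ω.1).card : ℝ) ≤
        δ / 8 * (((2 ^ L : ℕ) : ℝ) ^ n * (D : ℝ) ^ m) := by
      have h3 : (univ.filter fun ω : (Fin n → Fin (2 ^ L)) × (Fin m → Fin D) =>
        ω.1 ∉ badH ∧ ω.2 ∈ badU ω.1).card =
          ∑ h : Fin n → Fin (2 ^ L), if h ∉ badH then (badU h).card else 0 := by
        rw [← univ_product_univ, card_filter, sum_product]
        refine sum_congr rfl (fun h _ => ?_)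
        by_cases hh : h ∈ badH
        · simp [hh]
        · simp [hh]
      rw [h3, Nat.cast_sum]
      have h4 : ∀ h ∈ (univ : Finset (Fin n → Fin (2 ^ L))),
          (((if h ∉ badH then (badU h).card else 0 : ℕ)) : ℝ) ≤ δ / 8 * (D : ℝ) ^ m := by
        intro h _
        by_cases hh : h ∈ badH
        · rw [if_neg (not_not.mpr hh), Nat.cast_zero]
          positivity
        · rw [if_pos hh]
          exact hbadU h hh
      refine (sum_le_sum h4).trans (le_of_eq ?_)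
      rw [sum_const, card_univ, Fintype.card_fun, Fintype.card_fin, Fintype.card_fin,
        nsmul_eq_mul]
      push_cast
      ring
    have h3 : (((badH ×ˢ univ) ∪ (univ.filter fun ω : (Fin n → Fin (2 ^ L)) × (Fin m → Fin D) =>
        ω.1 ∉ badH ∧ ω.2 ∈ badU ω.1)).card : ℝ) ≤ _ :=
      Nat.cast_le.mpr (card_union_le _ _)
    push_cast at h3
    push_cast at h1 h2 ⊢
    linarith
  · rintro ⟨h, u⟩ hω
    simp only [mem_union, mem_product, mem_univ, and_true, mem_filter, true_and, not_or,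
      not_and] at hω
    have h1 : u ∉ badU h := hω.2 hω.1
    rw [hp', hN]
    refine isApprox_of_abs hε0 hε1 ?_
    simp only [badU, mem_filter, mem_univ, true_and, not_lt] at h1
    exact h1

/-- MODULE P2: for every constant error probability `δ` there is a private-coin protocol with
`O((n/ε) (1 + log n)^3)` bits (and at most `2 n^2` bits). -/
theorem upper_bound (δ : ℝ) (hδ : 0 < δ) : ∃ C : ℝ, 0 < C ∧ ∀ n : ℕ, 1 ≤ n → ∀ ε : ℝ, 0 < ε →
    ε ≤ 1 → ∃ c : ℕ, PrivSolves n ε δ c ∧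
      (c : ℝ) ≤ C * n * min (1 / ε) n * (1 + Real.log n) ^ 3 := by
  set K : ℝ := |Real.log (32 / δ)| + 1 with hK
  have hK0 : 1 ≤ K := by
    have := abs_nonneg (Real.log (32 / δ))
    linarith
  set K2 : ℕ := Nat.clog 2 (⌈4 / δ⌉₊ + 1) with hK2
  set CT : ℝ := 64 * (2 + K) + 1 with hCT
  set Cm : ℝ := 128 / δ + 1 with hCm
  have hCT0 : 0 < CT := by positivity
  have hCm0 : 0 < Cm := by positivity
  refine ⟨11 + K2 + 12 * CT + 11 * Cm, by positivity, fun n hn ε hε0 hε1 => ?_⟩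
  have hn1 : (1 : ℝ) ≤ n := by exact_mod_cast hn
  have hn0 : (0 : ℝ) < n := by linarith
  have hlog : 0 ≤ Real.log n := Real.log_nonneg hn1
  set Λ : ℝ := 1 + Real.log n with hΛ
  have hΛ1 : 1 ≤ Λ := by linarith
  have hΛ0 : 0 ≤ Λ := by linarith
  have hΛ3 : 1 ≤ Λ ^ 3 := one_le_pow₀ hΛ1
  have hΛ23 : Λ ≤ Λ ^ 3 := by nlinarith [mul_nonneg hΛ0 hΛ0]
  set C1 : ℝ := 11 + K2 + 12 * CT + 11 * Cm with hC1
  have hC12 : 2 ≤ C1 := by
    have : (0 : ℝ) ≤ K2 := Nat.cast_nonneg _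
    nlinarith
  rcases le_or_gt (1 / ε) n with hcase | hcase
  swap
  · refine ⟨n ^ 2 + n ^ 2, privSolves_trivial n hε0.le hδ, ?_⟩
    rw [min_eq_right hcase.le]
    push_cast
    have h1 : (0 : ℝ) ≤ (n : ℝ) * n := by positivity
    have h2 : 2 * ((n : ℝ) * n) ≤ C1 * (n * n) := mul_le_mul_of_nonneg_right hC12 h1
    have h3 : C1 * ((n : ℝ) * n) * 1 ≤ C1 * (n * n) * Λ ^ 3 :=
      mul_le_mul_of_nonneg_left hΛ3 (by positivity)
    nlinarith
  rw [min_eq_left hcase]
  set E : ℝ := 1 / ε with hE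
  have hE1 : 1 ≤ E := by
    rw [hE, le_div_iff₀ hε0]; linarith
  have hE0 : 0 < E := by linarith
  have hεE : ε * E = 1 := by rw [hE]; field_simp
  set L : ℕ := Nat.clog 2 n with hL
  have hnL : n ≤ 2 ^ L := Nat.le_pow_clog (by norm_num) n
  have hLn : L ≤ n := Nat.clog_le_of_le_pow (Nat.lt_two_pow_self).le
  have hLΛ : (L : ℝ) ≤ 2 * Λ := by
    rcases Nat.lt_or_ge 1 n with h1 | h1
    · have h2 := Nat.pow_pred_clog_lt_self (b := 2) (by norm_num) h1
      rw [← hL] at h2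
      have h3 : ((2 : ℝ) ^ (L - 1)) ≤ n := by exact_mod_cast h2.le
      have h4 := Real.log_le_log (by positivity) h3
      rw [Real.log_pow] at h4
      have h5 : (L : ℝ) - 1 ≤ ((L - 1 : ℕ) : ℝ) := by
        rw [sub_le_iff_le_add]
        have : L ≤ L - 1 + 1 := by omega
        exact_mod_cast this
      have h6 : (1 / 2 : ℝ) ≤ Real.log 2 := by
        have := Real.log_two_gt_d9
        linarith
      have h7 : (0 : ℝ) ≤ ((L - 1 : ℕ) : ℝ) := Nat.cast_nonneg _
      nlinarith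
    · have : n = 1 := by omega
      have hL0 : L = 0 := by rw [hL, this]; simp
      rw [hL0]
      simp only [Nat.cast_zero]
      positivity
  set T : ℕ := ⌈64 * E * (2 * Real.log n + K)⌉₊ with hT
  set m : ℕ := ⌈128 / δ * E⌉₊ with hm
  have hTge : 64 * E * (2 * Real.log n + K) ≤ T := Nat.le_ceil _
  have hTle : (T : ℝ) ≤ CT * Λ * E := by
    have h1 := (Nat.ceil_lt_add_one (a := 64 * E * (2 * Real.log n + K)) (by positivity)).le
    have h2 : 2 * Real.log n + K ≤ (2 + K) * Λ := by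
      rw [hΛ]; nlinarith
    have h3 : 64 * E * (2 * Real.log n + K) ≤ 64 * E * ((2 + K) * Λ) :=
      mul_le_mul_of_nonneg_left h2 (by positivity)
    have h4 : 1 ≤ Λ * E := by nlinarith
    rw [← hT] at h1
    rw [hCT]
    nlinarith
  have hmge : 128 / δ * E ≤ m := Nat.le_ceil _
  have hmle : (m : ℝ) ≤ Cm * E := by
    have h1 := (Nat.ceil_lt_add_one (a := 128 / δ * E) (by positivity)).le
    rw [← hm] at h1
    rw [hCm]
    nlinarith
  have hm1 : 1 ≤ m := by
    rw [hm]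
    exact Nat.one_le_ceil_iff.mpr (by positivity)
  have hT4 : 4 ≤ T := by
    have h1 : (4 : ℝ) ≤ T := by
      refine le_trans ?_ hTge
      have h2 : 1 ≤ 2 * Real.log n + K := by linarith
      nlinarith
    exact_mod_cast h1
  have hm0 : (0 : ℝ) < m := by exact_mod_cast hm1
  have hTδ : (n * (L + 1) : ℝ) * (2 * Real.exp (-(ε / 4 * (T / 4) / 4))) ≤ δ / 8 := by
    have h1 : 2 * Real.log n + K ≤ ε / 4 * (T / 4) / 4 := by
      have h2 : ε * (64 * E * (2 * Real.log n + K)) ≤ ε * T :=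
        mul_le_mul_of_nonneg_left hTge hε0.le
      have h3 : ε * (64 * E * (2 * Real.log n + K)) = 64 * (2 * Real.log n + K) := by
        calc ε * (64 * E * (2 * Real.log n + K)) = 64 * (ε * E) * (2 * Real.log n + K) := by ring
          _ = _ := by rw [hεE]; ring
      linarith
    have h4 : Real.exp (-(ε / 4 * (T / 4) / 4)) ≤ Real.exp (-(2 * Real.log n + K)) :=
      Real.exp_le_exp.mpr (by linarith)
    have h5 : Real.exp (-(2 * Real.log n + K)) ≤ δ / 32 / (n : ℝ) ^ 2 := by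
      have h6 : -(2 * Real.log n + K) ≤ Real.log (δ / 32 / (n : ℝ) ^ 2) := by
        rw [Real.log_div (by positivity) (by positivity), Real.log_pow]
        have h7 : Real.log (δ / 32) = -Real.log (32 / δ) := by
          rw [← Real.log_inv, inv_div]
        have h8 := neg_abs_le (Real.log (32 / δ))
        have h9 := le_abs_self (Real.log (32 / δ))
        push_cast
        rw [h7]
        linarith
      calc Real.exp (-(2 * Real.log n + K)) ≤ Real.exp (Real.log (δ / 32 / (n : ℝ) ^ 2)) :=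
            Real.exp_le_exp.mpr h6
        _ = _ := Real.exp_log (by positivity)
    have h10 : (n * (L + 1) : ℝ) ≤ 2 * (n : ℝ) ^ 2 := by
      have : (L : ℝ) ≤ n := by exact_mod_cast hLn
      nlinarith
    calc (n * (L + 1) : ℝ) * (2 * Real.exp (-(ε / 4 * (T / 4) / 4)))
        ≤ (2 * (n : ℝ) ^ 2) * (2 * (δ / 32 / (n : ℝ) ^ 2)) :=
          mul_le_mul h10 (by linarith) (by positivity) (by positivity)
      _ = δ / 8 := by field_simp; ring
  have hmδ : 64 * (ε / 4) / (ε ^ 2 * m) ≤ δ / 8 := by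
    rw [div_le_iff₀ (by positivity)]
    have h1 : ε * (128 / δ * E) ≤ ε * m := mul_le_mul_of_nonneg_left hmge hε0.le
    have h2 : ε * (128 / δ * E) = 128 / δ := by
      calc ε * (128 / δ * E) = 128 / δ * (ε * E) := by ring
        _ = _ := by rw [hεE]; ring
    rw [h2, div_le_iff₀ hδ] at h1
    nlinarith
  obtain ⟨Ω, hΩ1, hΩ2, p, hpc, hp⟩ := public_core n L T m hn hnL hT4 hm1 ε δ hε0 hε1 hTδ hmδ
  have htk : n ^ 2 * (⌈4 / δ⌉₊ + 1) ≤ 2 ^ (2 * L + K2) := by
    rw [pow_add, pow_mul']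
    refine Nat.mul_le_mul (Nat.pow_le_pow_left hnL 2) (Nat.le_pow_clog (by norm_num) _)
  have ht4 : 4 * (n : ℝ) ^ 2 ≤ δ * ((n ^ 2 * (⌈4 / δ⌉₊ + 1) : ℕ) : ℝ) := by
    push_cast
    have h1 : 4 / δ ≤ (⌈4 / δ⌉₊ : ℝ) := Nat.le_ceil _
    rw [div_le_iff₀ hδ] at h1
    have h2 : (0 : ℝ) ≤ (n : ℝ) ^ 2 := by positivity
    nlinarith
  have hfin := privSolves_of_public (ε := ε) hδ p _ hpc hp (n ^ 2 * (⌈4 / δ⌉₊ + 1)) (2 * L + K2)
    (Nat.mul_pos (by positivity) (by omega)) ht4 htk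
  refine ⟨_, hfin, ?_⟩
  push_cast
  set X : ℝ := n * E * Λ ^ 3 with hX
  have hL0 : (0 : ℝ) ≤ L := Nat.cast_nonneg _
  have hK20 : (0 : ℝ) ≤ K2 := Nat.cast_nonneg _
  have hnE : 1 ≤ n * E := by nlinarith
  have hX1 : 1 ≤ X := by
    rw [hX]; nlinarith
  have hΛX : Λ ≤ X := by
    rw [hX]
    calc Λ ≤ Λ ^ 3 := hΛ23
      _ = 1 * Λ ^ 3 := (one_mul _).symm
      _ ≤ n * E * Λ ^ 3 := mul_le_mul_of_nonneg_right hnE (by positivity)
  have hΛEX : Λ * E ≤ X := by
    rw [hX]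
    calc Λ * E ≤ Λ ^ 3 * E := mul_le_mul_of_nonneg_right hΛ23 hE0.le
      _ = 1 * (E * Λ ^ 3) := by ring
      _ ≤ n * (E * Λ ^ 3) := mul_le_mul_of_nonneg_right hn1 (by positivity)
      _ = n * E * Λ ^ 3 := by ring
  have hnEX : n * E ≤ X := by
    rw [hX]
    calc n * E = n * E * 1 := (mul_one _).symm
      _ ≤ n * E * Λ ^ 3 := mul_le_mul_of_nonneg_left hΛ3 (by positivity)
  have e1 : ((L : ℝ) + 2) * T * ((L + 1) * n) ≤ 12 * CT * X := by
    have h1 : ((L : ℝ) + 2) ≤ 4 * Λ := by linarith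
    have h2 : ((L : ℝ) + 1) ≤ 3 * Λ := by linarith
    calc ((L : ℝ) + 2) * T * ((L + 1) * n) ≤ (4 * Λ) * (CT * Λ * E) * ((3 * Λ) * n) := by
          refine mul_le_mul (mul_le_mul h1 hTle (by positivity) (by positivity))
            (mul_le_mul_of_nonneg_right h2 hn0.le) (by positivity) (by positivity)
      _ = 12 * CT * X := by rw [hX]; ring
  have e2 : ((n : ℝ) + (3 * L + 1)) * m ≤ 8 * Cm * X := by
    have h1 : (n : ℝ) + (3 * L + 1) ≤ n + 7 * Λ := by linarith
    calc ((n : ℝ) + (3 * L + 1)) * m ≤ (n + 7 * Λ) * (Cm * E) :=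
          mul_le_mul h1 hmle (by positivity) (by positivity)
      _ = Cm * (n * E) + 7 * Cm * (Λ * E) := by ring
      _ ≤ Cm * X + 7 * Cm * X := by
          refine add_le_add (mul_le_mul_of_nonneg_left hnEX hCm0.le)
            (mul_le_mul_of_nonneg_left hΛEX (by positivity))
      _ = 8 * Cm * X := by ring
  have e3 : ((L : ℝ) + 1) * m ≤ 3 * Cm * X := by
    have h2 : ((L : ℝ) + 1) ≤ 3 * Λ := by linarith
    calc ((L : ℝ) + 1) * m ≤ (3 * Λ) * (Cm * E) :=
          mul_le_mul h2 hmle (by positivity) (by positivity)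
      _ = 3 * Cm * (Λ * E) := by ring
      _ ≤ 3 * Cm * X := mul_le_mul_of_nonneg_left hΛEX (by positivity)
  have e4 : (2 * L + K2 : ℝ) ≤ 4 * X + K2 * X := by nlinarith
  have e5 : (3 * L + 1 : ℝ) ≤ 7 * X := by linarith
  calc (2 * (L : ℝ) + K2) + ((L + 2) * T * ((L + 1) * n) +
        ((n + (3 * L + 1)) * m + (3 * L + 1) + (L + 1) * m))
      ≤ (4 * X + K2 * X) + (12 * CT * X + (8 * Cm * X + 7 * X + 3 * Cm * X)) := by linarith
    _ = C1 * n * E * Λ ^ 3 := by rw [hC1, hX]; ring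

end Pool.Agent.H76.SIJ
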